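import Mathlib

set_option autoImplicit false

namespace Pool.Agent.Helper30.Grigorchuk

/-! The vertices of the rooted binary tree are the finite words over the two letters `false` and
`true`; the empty word is the root. -/

/-- Exchange the two subtrees at the root. -/
def actA : List Bool → List Bool
  | [] => []
  | x :: w => (!x) :: w

mutual

/-- `b = (a, c)` -/
def actB : List Bool → List Bool
  | [] => []
  | false :: w => false :: actA w
  | true :: w => true :: actC w

/-- `c = (a, d)` -/
def actC : List Bool → List Bool
  | [] => []
  | false :: w => false :: actA w
  | true :: w => true :: actD w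

/-- `d = (1, b)` -/
def actD : List Bool → List Bool
  | [] => []
  | false :: w => false :: w
  | true :: w => true :: actB w

end

lemma actA_actA (w : List Bool) : actA (actA w) = w := by
  cases w <;> simp [actA]

lemma act_act (w : List Bool) :
    actB (actB w) = w ∧ actC (actC w) = w ∧ actD (actD w) = w := by
  induction w with
  | nil => simp [actB, actC, actD]
  | cons x w ih =>
    obtain ⟨h1, h2, h3⟩ := ih
    cases x <;> simp [actB, actC, actD, h1, h2, h3, actA_actA]

/-- The four generators, as permutations of the vertex set. -/
def a : Equiv.Perm (List Bool) := ⟨actA, actA, actA_actA, actA_actA⟩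

def b : Equiv.Perm (List Bool) := ⟨actB, actB, fun w => (act_act w).1, fun w => (act_act w).1⟩

def c : Equiv.Perm (List Bool) := ⟨actC, actC, fun w => (act_act w).2.1, fun w => (act_act w).2.1⟩

def d : Equiv.Perm (List Bool) := ⟨actD, actD, fun w => (act_act w).2.2, fun w => (act_act w).2.2⟩

/-- Grigorchuk's first group. -/
def grigorchukGroup : Subgroup (Equiv.Perm (List Bool)) := Subgroup.closure {a, b, c, d}

end Pool.Agent.Helper30.Grigorchuk
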