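import Pool.Agent.Helper30.WHypSelfSimilar
import Pool.Agent.Helper30.GrigorchukDefs

set_option autoImplicit false

namespace Pool.Agent.Helper30.Grigorchuk

open Pool.Agent.Helper30.WHyp
open Pointwise

/-- the automorphism acting as `f` and `g` on the two subtrees -/
def pair (f g : Equiv.Perm (List Bool)) : Equiv.Perm (List Bool) where
  toFun
    | [] => []
    | false :: w => false :: f w
    | true :: w => true :: g w
  invFun
    | [] => []
    | false :: w => false :: f.symm w
    | true :: w => true :: g.symm w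
  left_inv w := by
    match w with
    | [] => rfl
    | false :: w => simp
    | true :: w => simp
  right_inv w := by
    match w with
    | [] => rfl
    | false :: w => simp
    | true :: w => simp

@[simp] lemma pair_nil (f g : Equiv.Perm (List Bool)) : pair f g [] = [] := rfl
@[simp] lemma pair_false (f g : Equiv.Perm (List Bool)) (w : List Bool) :
    pair f g (false :: w) = false :: f w := rfl
@[simp] lemma pair_true (f g : Equiv.Perm (List Bool)) (w : List Bool) :
    pair f g (true :: w) = true :: g w := rfl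

lemma perm_ext (f g : Equiv.Perm (List Bool)) (h : f [] = g []) (h0 : ∀ w, f (false :: w) = g (false :: w))
    (h1 : ∀ w, f (true :: w) = g (true :: w)) : f = g := by
  apply Equiv.ext
  intro w
  match w with
  | [] => exact h
  | false :: w => exact h0 w
  | true :: w => exact h1 w

lemma pair_mul (f g f' g' : Equiv.Perm (List Bool)) :
    pair f g * pair f' g' = pair (f * f') (g * g') := by
  apply perm_ext <;> simp

lemma pair_one : pair 1 1 = 1 := by
  apply perm_ext <;> simp

lemma pair_inv (f g : Equiv.Perm (List Bool)) : (pair f g)⁻¹ = pair f⁻¹ g⁻¹ := by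
  rw [inv_eq_iff_mul_eq_one, pair_mul, mul_inv_cancel, mul_inv_cancel, pair_one]

@[simp] lemma a_nil : a [] = [] := rfl
@[simp] lemma a_cons (x : Bool) (w : List Bool) : a (x :: w) = (!x) :: w := rfl

lemma aa : a * a = 1 := Equiv.ext actA_actA
lemma bb : b * b = 1 := Equiv.ext (fun w => (act_act w).1)
lemma cc : c * c = 1 := Equiv.ext (fun w => (act_act w).2.1)
lemma dd : d * d = 1 := Equiv.ext (fun w => (act_act w).2.2)

lemma b_eq : b = pair a c := by
  apply perm_ext
  · exact actB.eq_1
  · intro w; exact actB.eq_2 w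
  · intro w; exact actB.eq_3 w

lemma c_eq : c = pair a d := by
  apply perm_ext
  · exact actC.eq_1
  · intro w; exact actC.eq_2 w
  · intro w; exact actC.eq_3 w

lemma d_eq : d = pair 1 b := by
  apply perm_ext
  · exact actD.eq_1
  · intro w; exact actD.eq_2 w
  · intro w; exact actD.eq_3 w

lemma a_pair_a (f g : Equiv.Perm (List Bool)) : a * pair f g * a = pair g f := by
  apply perm_ext <;> simp

lemma prods (w : List Bool) : actC (actB w) = actD w ∧ actB (actC w) = actD w ∧
    actC (actD w) = actB w ∧ actD (actC w) = actB w ∧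
    actD (actB w) = actC w ∧ actB (actD w) = actC w := by
  induction w with
  | nil => simp [actB, actC, actD]
  | cons x w ih =>
    obtain ⟨h1, h2, h3, h4, h5, h6⟩ := ih
    cases x <;> simp [actB, actC, actD, h1, h2, h3, h4, h5, h6, actA_actA]

lemma cb : c * b = d := Equiv.ext (fun w => (prods w).1)
lemma cd : c * d = b := Equiv.ext (fun w => (prods w).2.2.1)

lemma inv_a : a⁻¹ = a := by rw [inv_eq_iff_mul_eq_one, aa]
lemma inv_b : b⁻¹ = b := by rw [inv_eq_iff_mul_eq_one, bb]
lemma inv_c : c⁻¹ = c := by rw [inv_eq_iff_mul_eq_one, cc]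
lemma inv_d : d⁻¹ = d := by rw [inv_eq_iff_mul_eq_one, dd]

/-! ### the elements `X`, `Y`, `Z` -/

def X : Equiv.Perm (List Bool) := a * b * a * b
def Y : Equiv.Perm (List Bool) := b * a * d * a * (b * a * d * a)
def Z : Equiv.Perm (List Bool) := a * b * a * d * (a * b * a * d)

def lam : Equiv.Perm (List Bool) →* Equiv.Perm (List Bool) where
  toFun f := pair f 1
  map_one' := pair_one
  map_mul' f g := by rw [pair_mul, mul_one]

def rho : Equiv.Perm (List Bool) →* Equiv.Perm (List Bool) where
  toFun f := pair 1 f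
  map_one' := pair_one
  map_mul' f g := by rw [pair_mul, mul_one]

lemma lam_def (f : Equiv.Perm (List Bool)) : lam f = pair f 1 := rfl
lemma rho_def (f : Equiv.Perm (List Bool)) : rho f = pair 1 f := rfl

lemma aba : a * b * a = pair c a := by rw [b_eq, a_pair_a]
lemma ada : a * d * a = pair b 1 := by rw [d_eq, a_pair_a]

lemma X_pair : X = pair (c * a) (a * c) := by
  unfold X
  rw [aba, b_eq, pair_mul]

lemma XX : X = (a * b) * (a * b) := by unfold X; group

lemma X_inv : X⁻¹ = b * a * b * a := by
  unfold X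
  rw [mul_inv_rev, mul_inv_rev, mul_inv_rev, inv_a, inv_b]
  group

lemma aXa : a * X * a = X⁻¹ := by
  rw [X_inv]
  unfold X
  calc a * (a * b * a * b) * a = (a * a) * b * a * b * a := by group
    _ = b * a * b * a := by rw [aa, one_mul]

lemma aZa : a * Z * a = Y := by
  unfold Y Z
  calc a * (a * b * a * d * (a * b * a * d)) * a = (a * a) * (b * a * d * a * (b * a * d * a)) := by
        group
    _ = _ := by rw [aa, one_mul]

lemma lam_X : lam X = Y := by
  have h1 : b * a * d * a = pair (a * b) c := by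
    calc b * a * d * a = b * (a * d * a) := by group
      _ = pair (a * b) c := by rw [ada]; nth_rewrite 1 [b_eq]; rw [pair_mul, mul_one]
  unfold Y
  rw [h1, pair_mul, cc, lam_def, XX]

lemma rho_X : rho X = Z := by
  have h1 : a * b * a * d = pair c (a * b) := by
    rw [aba]; nth_rewrite 1 [d_eq]; rw [pair_mul, mul_one]
  unfold Z
  rw [h1, pair_mul, cc, rho_def, XX]

/-- the key identity -/
lemma cXc : c * X * c = X⁻¹ * Z := by
  rw [← rho_X, rho_def, X_pair, pair_inv, pair_mul]
  nth_rewrite 1 [c_eq]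
  nth_rewrite 3 [c_eq]
  rw [pair_mul, pair_mul]
  have h1 : a * (c * a) * a = (c * a)⁻¹ * 1 := by
    rw [mul_one, mul_inv_rev, inv_a, inv_c]
    calc a * (c * a) * a = a * c * (a * a) := by group
      _ = a * c := by rw [aa, mul_one]
  have h2 : d * (a * c) * d = (a * c)⁻¹ * X := by
    rw [mul_inv_rev, inv_a, inv_c]
    unfold X
    calc d * (a * c) * d = d * a * (c * d) := by group
      _ = d * a * b := by rw [cd]
      _ = (c * b) * a * b := by rw [cb]
      _ = c * (a * a) * b * a * b := by rw [aa, mul_one]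
      _ = c * a * (a * b * a * b) := by group
  rw [h1, ← X_pair, h2]

lemma aX'a : a * X⁻¹ * a = X := by
  rw [← aXa]
  calc a * (a * X * a) * a = (a * a) * X * (a * a) := by group
    _ = X := by rw [aa, one_mul, mul_one]

lemma rho_Z : rho Z = Z * X⁻¹ * Z⁻¹ * X := by
  have h : Z * X⁻¹ * Z⁻¹ * X =
      pair 1 X * (pair (c * a) (a * c))⁻¹ * (pair 1 X)⁻¹ * pair (c * a) (a * c) := by
    rw [← X_pair, ← rho_def, rho_X]
  rw [h, pair_inv, pair_inv, pair_mul, pair_mul, pair_mul, rho_def]
  congr 1
  · group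
  · rw [mul_inv_rev, inv_a, inv_c]
    calc Z = X * (X⁻¹ * Z) := by group
      _ = X * (c * (a * X⁻¹ * a) * c) := by rw [← cXc, aX'a]
      _ = _ := by group

lemma rho_Y : rho Y = Z⁻¹ * X * Z * X⁻¹ := by
  have h : Z⁻¹ * X * Z * X⁻¹ =
      (pair 1 X)⁻¹ * pair (c * a) (a * c) * pair 1 X * (pair (c * a) (a * c))⁻¹ := by
    rw [← X_pair, ← rho_def, rho_X]
  rw [h, pair_inv, pair_inv, pair_mul, pair_mul, pair_mul, rho_def]
  congr 1
  · group
  · rw [mul_inv_rev, inv_a, inv_c]
    calc Y = X⁻¹ * (a * X⁻¹ * a) * (a * Z * a) := by rw [aX'a, aZa]; group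
      _ = X⁻¹ * a * (X⁻¹ * (a * a) * Z) * a := by group
      _ = X⁻¹ * a * (c * X * c) * a := by rw [aa, mul_one, cXc]
      _ = _ := by group

lemma lam_Y : lam Y = Y⁻¹ * X⁻¹ * Y * X := by
  have h : Y⁻¹ * X⁻¹ * Y * X =
      (pair X 1)⁻¹ * (pair (c * a) (a * c))⁻¹ * pair X 1 * pair (c * a) (a * c) := by
    rw [← X_pair, ← lam_def, lam_X]
  rw [h, pair_inv, pair_inv, pair_mul, pair_mul, pair_mul, lam_def]
  congr 1
  · rw [mul_inv_rev, inv_a, inv_c]
    calc Y = X⁻¹ * (a * X⁻¹ * a) * (a * Z * a) := by rw [aX'a, aZa]; group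
      _ = X⁻¹ * a * (X⁻¹ * (a * a) * Z) * a := by group
      _ = X⁻¹ * a * (c * X * c) * a := by rw [aa, mul_one, cXc]
      _ = _ := by group
  · group

lemma lam_Z : lam Z = Y * X * Y⁻¹ * X⁻¹ := by
  have h : Y * X * Y⁻¹ * X⁻¹ =
      pair X 1 * pair (c * a) (a * c) * (pair X 1)⁻¹ * (pair (c * a) (a * c))⁻¹ := by
    rw [← X_pair, ← lam_def, lam_X]
  rw [h, pair_inv, pair_inv, pair_mul, pair_mul, pair_mul, lam_def]
  congr 1
  · rw [mul_inv_rev, inv_a, inv_c]
    calc Z = X * (X⁻¹ * Z) := by group
      _ = X * (c * (a * X⁻¹ * a) * c) := by rw [← cXc, aX'a]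
      _ = _ := by group
  · group

/-! ### the commuting family -/

lemma lam_rho_inj (u v u' v' : Equiv.Perm (List Bool)) (h : lam u * rho v = lam u' * rho v') :
    u = u' ∧ v = v' := by
  rw [lam_def, rho_def, lam_def, rho_def, pair_mul, pair_mul, mul_one, one_mul, mul_one,
    one_mul] at h
  constructor
  · ext1 w
    have := congrArg (fun f : Equiv.Perm (List Bool) => f (false :: w)) h
    simpa using this
  · ext1 w
    have := congrArg (fun f : Equiv.Perm (List Bool) => f (true :: w)) h
    simpa using this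

lemma lam_rho_commute (u v : Equiv.Perm (List Bool)) : Commute (lam u) (rho v) := by
  change lam u * rho v = rho v * lam u
  rw [lam_def, rho_def, pair_mul, pair_mul, mul_one, one_mul, mul_one, one_mul]

def kap : ℕ → (Equiv.Perm (List Bool) →* Equiv.Perm (List Bool))
  | 0 => lam
  | (i + 1) => rho.comp (kap i)

lemma kap_inj (i : ℕ) : Function.Injective (kap i) := by
  induction i with
  | zero =>
    intro u u' h
    exact (lam_rho_inj u 1 u' 1 (by simpa [kap] using h)).1
  | succ i ih =>
    intro u u' h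
    apply ih
    exact (lam_rho_inj 1 (kap i u) 1 (kap i u') (by simpa [kap] using h)).2

lemma kap_commute (i j : ℕ) (hij : i < j) (u v : Equiv.Perm (List Bool)) :
    Commute (kap i u) (kap j v) := by
  induction i generalizing j with
  | zero =>
    obtain ⟨j, rfl⟩ : ∃ k, j = k + 1 := ⟨j - 1, by omega⟩
    exact lam_rho_commute _ _
  | succ i ih =>
    obtain ⟨j, rfl⟩ : ∃ k, j = k + 1 := ⟨j - 1, by omega⟩
    exact (ih j (by omega)).map rho

open Classical in
noncomputable def gens : Finset (Equiv.Perm (List Bool)) := {1, X, X⁻¹, Y, Y⁻¹, Z, Z⁻¹}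

open Classical in
lemma word_mem {Q : Type*} [Group Q] (U : Finset Q) (h1 : 1 ∈ U) (l : List Q) (hl : ∀ s ∈ l, s ∈ U)
    (n : ℕ) (hn : l.length ≤ n) : l.prod ∈ U ^ n := by
  have h2 : l.prod ∈ U ^ l.length := by
    induction l generalizing n with
    | nil => simp
    | cons a l ih =>
      rw [List.prod_cons, List.length_cons, pow_succ']
      exact Finset.mul_mem_mul (hl a (by simp)) (ih (fun s hs => hl s (by simp [hs])) l.length le_rfl)
  exact Finset.pow_subset_pow_right h1 hn h2

lemma one_mem_gens : 1 ∈ gens := by simp [gens]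
lemma X_mem : X ∈ gens := by simp [gens]
lemma X'_mem : X⁻¹ ∈ gens := by simp [gens]
lemma Y_mem : Y ∈ gens := by simp [gens]
lemma Y'_mem : Y⁻¹ ∈ gens := by simp [gens]
lemma Z_mem : Z ∈ gens := by simp [gens]
lemma Z'_mem : Z⁻¹ ∈ gens := by simp [gens]

open Classical in
lemma gens_lam : gens.image lam ⊆ gens ^ 4 := by
  intro x hx
  rw [Finset.mem_image] at hx
  obtain ⟨u, hu, rfl⟩ := hx
  simp only [gens, Finset.mem_insert, Finset.mem_singleton] at hu
  rcases hu with rfl | rfl | rfl | rfl | rfl | rfl | rfl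
  · simpa using word_mem gens one_mem_gens [] (by simp) 4 (by simp)
  · rw [lam_X]
    simpa using word_mem gens one_mem_gens [Y] (by simp [Y_mem]) 4 (by simp)
  · rw [map_inv, lam_X]
    simpa using word_mem gens one_mem_gens [Y⁻¹] (by simp [Y'_mem]) 4 (by simp)
  · rw [lam_Y]
    simpa [mul_assoc] using word_mem gens one_mem_gens [Y⁻¹, X⁻¹, Y, X]
      (by simp [Y'_mem, X'_mem, Y_mem, X_mem]) 4 (by simp)
  · rw [map_inv, lam_Y]
    simpa [mul_assoc] using word_mem gens one_mem_gens [X⁻¹, Y⁻¹, X, Y]
      (by simp [Y'_mem, X'_mem, Y_mem, X_mem]) 4 (by simp)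
  · rw [lam_Z]
    simpa [mul_assoc] using word_mem gens one_mem_gens [Y, X, Y⁻¹, X⁻¹]
      (by simp [Y'_mem, X'_mem, Y_mem, X_mem]) 4 (by simp)
  · rw [map_inv, lam_Z]
    simpa [mul_assoc] using word_mem gens one_mem_gens [X, Y, X⁻¹, Y⁻¹]
      (by simp [Y'_mem, X'_mem, Y_mem, X_mem]) 4 (by simp)

open Classical in
lemma gens_rho : gens.image rho ⊆ gens ^ 4 := by
  intro x hx
  rw [Finset.mem_image] at hx
  obtain ⟨u, hu, rfl⟩ := hx
  simp only [gens, Finset.mem_insert, Finset.mem_singleton] at hu
  rcases hu with rfl | rfl | rfl | rfl | rfl | rfl | rfl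
  · simpa using word_mem gens one_mem_gens [] (by simp) 4 (by simp)
  · rw [rho_X]
    simpa using word_mem gens one_mem_gens [Z] (by simp [Z_mem]) 4 (by simp)
  · rw [map_inv, rho_X]
    simpa using word_mem gens one_mem_gens [Z⁻¹] (by simp [Z'_mem]) 4 (by simp)
  · rw [rho_Y]
    simpa [mul_assoc] using word_mem gens one_mem_gens [Z⁻¹, X, Z, X⁻¹]
      (by simp [Z'_mem, X'_mem, Z_mem, X_mem]) 4 (by simp)
  · rw [map_inv, rho_Y]
    simpa [mul_assoc] using word_mem gens one_mem_gens [X, Z⁻¹, X⁻¹, Z]
      (by simp [Z'_mem, X'_mem, Z_mem, X_mem]) 4 (by simp)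
  · rw [rho_Z]
    simpa [mul_assoc] using word_mem gens one_mem_gens [Z, X⁻¹, Z⁻¹, X]
      (by simp [Z'_mem, X'_mem, Z_mem, X_mem]) 4 (by simp)
  · rw [map_inv, rho_Z]
    simpa [mul_assoc] using word_mem gens one_mem_gens [X⁻¹, Z, X, Z⁻¹]
      (by simp [Z'_mem, X'_mem, Z_mem, X_mem]) 4 (by simp)

lemma a_mem : a ∈ grigorchukGroup := Subgroup.subset_closure (by simp)
lemma b_mem : b ∈ grigorchukGroup := Subgroup.subset_closure (by simp)
lemma d_mem : d ∈ grigorchukGroup := Subgroup.subset_closure (by simp)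

lemma gens_mem (u : Equiv.Perm (List Bool)) (hu : u ∈ gens) : u ∈ grigorchukGroup := by
  have hX : X ∈ grigorchukGroup := by
    unfold X
    exact mul_mem (mul_mem (mul_mem a_mem b_mem) a_mem) b_mem
  have hY : Y ∈ grigorchukGroup := by
    unfold Y
    have : b * a * d * a ∈ grigorchukGroup := mul_mem (mul_mem (mul_mem b_mem a_mem) d_mem) a_mem
    exact mul_mem this this
  have hZ : Z ∈ grigorchukGroup := by
    unfold Z
    have : a * b * a * d ∈ grigorchukGroup := mul_mem (mul_mem (mul_mem a_mem b_mem) a_mem) d_mem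
    exact mul_mem this this
  simp only [gens, Finset.mem_insert, Finset.mem_singleton] at hu
  rcases hu with rfl | rfl | rfl | rfl | rfl | rfl | rfl
  · exact one_mem _
  · exact hX
  · exact inv_mem hX
  · exact hY
  · exact inv_mem hY
  · exact hZ
  · exact inv_mem hZ

lemma pow_subset_closure {Q : Type*} [Group Q] [DecidableEq Q] (U : Finset Q) (n : ℕ) (x : Q)
    (hx : x ∈ U ^ n) : x ∈ Subgroup.closure (U : Set Q) := by
  induction n generalizing x with
  | zero =>
    rw [pow_zero, Finset.mem_one] at hx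
    rw [hx]; exact one_mem _
  | succ n ih =>
    rw [pow_succ, Finset.mem_mul] at hx
    obtain ⟨y, hy, z, hz, rfl⟩ := hx
    exact mul_mem (ih y hy) (Subgroup.subset_closure hz)

lemma lam_closure (x : Equiv.Perm (List Bool)) (hx : x ∈ Subgroup.closure (gens : Set _)) :
    lam x ∈ Subgroup.closure (gens : Set (Equiv.Perm (List Bool))) := by
  classical
  have h1 : Subgroup.closure (gens : Set (Equiv.Perm (List Bool))) ≤
      (Subgroup.closure (gens : Set (Equiv.Perm (List Bool)))).comap lam := by
    rw [Subgroup.closure_le]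
    intro u hu
    exact pow_subset_closure gens 4 _ (gens_lam (Finset.mem_image_of_mem _ hu))
  exact h1 hx

lemma rho_closure (x : Equiv.Perm (List Bool)) (hx : x ∈ Subgroup.closure (gens : Set _)) :
    rho x ∈ Subgroup.closure (gens : Set (Equiv.Perm (List Bool))) := by
  classical
  have h1 : Subgroup.closure (gens : Set (Equiv.Perm (List Bool))) ≤
      (Subgroup.closure (gens : Set (Equiv.Perm (List Bool)))).comap rho := by
    rw [Subgroup.closure_le]
    intro u hu
    exact pow_subset_closure gens 4 _ (gens_rho (Finset.mem_image_of_mem _ hu))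
  exact h1 hx

lemma kap_closure (i : ℕ) (x : Equiv.Perm (List Bool)) (hx : x ∈ Subgroup.closure (gens : Set _)) :
    kap i x ∈ Subgroup.closure (gens : Set (Equiv.Perm (List Bool))) := by
  induction i with
  | zero => exact lam_closure x hx
  | succ i ih => exact rho_closure _ ih

lemma closure_le : Subgroup.closure (gens : Set (Equiv.Perm (List Bool))) ≤ grigorchukGroup := by
  rw [Subgroup.closure_le]
  exact gens_mem

open Classical in
/-- the commuting finite sets -/
noncomputable def sets (i : ℕ) : Finset grigorchukGroup :=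
  (gens.image (kap i)).subtype (fun x => x ∈ grigorchukGroup)

lemma gens_card : 2 ≤ gens.card := by
  classical
  refine Finset.one_lt_card.mpr ⟨1, one_mem_gens, X, X_mem, ?_⟩
  intro h
  have h1 : X [true, false, false] = [true, false, false] := by rw [← h]; rfl
  rw [X_pair] at h1
  have h2 : (a * c) [false, false] = [true, true] := by
    rw [c_eq]; rfl
  rw [pair_true, h2] at h1
  simp at h1

/-- Grigorchuk's first group has infinite weak hyperbolic dimension. -/
theorem weakHyperbolicDimension_grigorchuk (S : Set grigorchukGroup) (hfin : S.Finite)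
    (hS : Subgroup.closure S = ⊤) :
    @weakHyperbolicDimension grigorchukGroup (wordMetric S hS) = ⊤ := by
  classical
  let _ := wordMetric S hS
  refine selfsimilar_criterion hfin hS (fun _ _ => rfl) gens gens_card lam rho lam_rho_inj 4
    gens_lam gens_rho grigorchukGroup.subtype sets ?_ ?_ kap kap_inj ?_
  · intro i
    rw [sets, Finset.mem_subtype, Finset.mem_image]
    exact ⟨1, one_mem_gens, map_one _⟩
  · intro i j hij s hs t ht
    rw [sets, Finset.mem_subtype, Finset.mem_image] at hs ht
    obtain ⟨u, _, hu⟩ := hs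
    obtain ⟨v, _, hv⟩ := ht
    have h := kap_commute i j hij u v
    rw [hu, hv] at h
    exact Subtype.ext h
  · intro i x hx
    have h1 : x ∈ grigorchukGroup := by
      rw [Finset.mem_image] at hx
      obtain ⟨u, hu, rfl⟩ := hx
      exact closure_le (kap_closure i u (Subgroup.subset_closure hu))
    rw [Finset.mem_image]
    refine ⟨⟨x, h1⟩, ?_, rfl⟩
    rw [sets, Finset.mem_subtype]
    exact hx

end Pool.Agent.Helper30.Grigorchuk
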