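import Pool.Agent.Helper30.HexParity

set_option autoImplicit false

namespace Pool.Agent.Helper30.Hex

/-- one step of a monochromatic chain in the grid `[0, L]^m` -/
def Step {m : ℕ} (L : ℕ) (c : (Fin m → ℕ) → Fin m) (i : Fin m) (x y : Fin m → ℕ) : Prop :=
  (∀ k, y k ≤ L) ∧ c y = i ∧ (∀ k, x k ≤ y k + 2) ∧ (∀ k, y k ≤ x k + 2)

/-- a point of colour `i` connected by a chain to the face `x i ≤ 1` -/
def Reach {m : ℕ} (L : ℕ) (c : (Fin m → ℕ) → Fin m) (i : Fin m) (y : Fin m → ℕ) : Prop :=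
  ∃ x : Fin m → ℕ, (∀ k, x k ≤ L) ∧ c x = i ∧ x i ≤ 1 ∧ Relation.ReflTransGen (Step L c i) x y

lemma Reach.step {m : ℕ} {L : ℕ} {c : (Fin m → ℕ) → Fin m} {i : Fin m} {y z : Fin m → ℕ}
    (h : Reach L c i y) (hz : Step L c i y z) : Reach L c i z := by
  obtain ⟨x, h1, h2, h3, h4⟩ := h
  exact ⟨x, h1, h2, h3, h4.tail hz⟩

lemma vtx_le {n : ℕ} {L : ℕ} (x : Fin n → Fin L) (σ : Equiv.Perm (Fin n)) (j : ℕ) (k : Fin n) :
    vtx (fun k => (x k : ℕ)) σ j k ≤ L := by
  have := (x k).2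
  change (x k : ℕ) + (if (σ k : ℕ) < j then 1 else 0) ≤ L
  split_ifs <;> omega

lemma vtx_close {n : ℕ} (x : Fin n → ℕ) (σ : Equiv.Perm (Fin n)) (j l : ℕ) (k : Fin n) :
    vtx x σ j k ≤ vtx x σ l k + 1 := by
  unfold vtx
  split_ifs <;> omega

open Classical in
/-- the labels used in the proof of the Hex lemma -/
noncomputable def label {m : ℕ} (L : ℕ) (c : (Fin m → ℕ) → Fin m) (i : ℕ) (x : Fin m → ℕ) : ZMod 2 :=
  if h : i < m then
    (if x ⟨i, h⟩ = 0 ∨ ∃ y, Reach L c ⟨i, h⟩ y ∧ (∀ k, x k ≤ y k + 1) ∧ (∀ k, y k ≤ x k + 1) then 0 else 1)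
  else 0

/-- **Hex lemma** -/
theorem hex (L m : ℕ) (hL : 1 ≤ L) (c : (Fin m → ℕ) → Fin m) :
    ∃ (i : Fin m) (x y : Fin m → ℕ), (∀ k, x k ≤ L) ∧ c x = i ∧ x i ≤ 1 ∧
      Relation.ReflTransGen (Step L c i) x y ∧ L ≤ y i + 1 := by
  classical
  by_contra hcon
  have hcon' : ∀ (i : Fin m) (y : Fin m → ℕ), Reach L c i y → y i + 1 < L := by
    intro i y hy
    by_contra h
    obtain ⟨x, h1, h2, h3, h4⟩ := hy
    exact hcon ⟨i, x, y, h1, h2, h3, h4, by omega⟩
  have hb : Bdry L m (label L c) := by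
    constructor
    · intro i x hx h
      unfold label
      rw [dif_pos i.2, if_pos (Or.inl h)]
    · intro i x hx h
      unfold label
      rw [dif_pos i.2, if_neg]
      rintro (h1 | ⟨y, hy, h1, h2⟩)
      · have h1' : x i = 0 := h1
        omega
      · have := hcon' i y hy
        have h3 := h1 i
        omega
  obtain ⟨x, σ, hxσ⟩ := exists_simplex L m (label L c) hb
  -- the colour of the base vertex
  set v : ℕ → Fin m → ℕ := fun j => vtx (fun k => (x k : ℕ)) σ j with hv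
  have hvL : ∀ j k, v j k ≤ L := fun j k => vtx_le x σ j k
  have hvc : ∀ j l k, v j k ≤ v l k + 1 := fun j l k => vtx_close _ σ j l k
  set i := c (v 0) with hi
  have key : ∀ u w : ℕ, label L c i (v u) = 0 → label L c i (v w) = 0 := by
    intro u w hu
    unfold label at hu ⊢
    rw [dif_pos i.2] at hu ⊢
    have hr : Reach L c i (v 0) := by
      by_cases h : v u i = 0
      · exact ⟨v 0, hvL 0, rfl, by have := hvc 0 u i; omega, Relation.ReflTransGen.refl⟩
      · rw [ite_eq_left_iff] at hu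
        have h2 : v u i = 0 ∨ ∃ y, Reach L c i y ∧ (∀ k, v u k ≤ y k + 1) ∧ (∀ k, y k ≤ v u k + 1) := by
          by_contra h3
          exact one_ne_zero (hu h3)
        rcases h2 with h2 | ⟨y, hy, h3, h4⟩
        · exact absurd h2 h
        · refine hy.step ⟨hvL 0, rfl, ?_, ?_⟩
          · intro k
            have := h4 k
            have := hvc u 0 k
            omega
          · intro k
            have := h3 k
            have := hvc 0 u k
            omega
    rw [if_pos]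
    exact Or.inr ⟨v 0, hr, hvc w 0, hvc 0 w⟩
  have hne := hxσ i i.2
  have h01 : ∀ z : ZMod 2, z = 0 ∨ z = 1 := by decide
  rcases h01 (label L c i (v i)) with h | h
  · exact hne (h.trans (key i (i + 1) h).symm)
  · rcases h01 (label L c i (v (i + 1))) with h' | h'
    · exact hne ((key (i + 1) i h').trans h'.symm)
    · exact hne (h.trans h'.symm)

end Pool.Agent.Helper30.Hex
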