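import Mathlib

set_option autoImplicit false

namespace Pool.Agent.Helper30.Hex

open Finset

/-! ### The coboundary identity -/

/-- the index after deleting `j` -/
def del (j i : ℕ) : ℕ := if i < j then i else i + 1

def Dterm (m : ℕ) (a : ℕ → ℕ → ZMod 2) (j : ℕ) : ZMod 2 :=
  a 0 (del j 0) * ∏ i ∈ range m, (a (i + 1) (del j i) + a (i + 1) (del j (i + 1)))

lemma Dterm_succ (m : ℕ) (a : ℕ → ℕ → ZMod 2) (j : ℕ) :
    Dterm (m + 1) a j = Dterm m a j * (a (m + 1) (del j m) + a (m + 1) (del j (m + 1))) := by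
  unfold Dterm
  rw [prod_range_succ, mul_assoc]

lemma Dterm_last (m : ℕ) (a : ℕ → ℕ → ZMod 2) : Dterm m a (m + 1) = Dterm m a (m + 2) := by
  unfold Dterm
  congr 1
  apply prod_congr rfl
  intro i hi
  rw [mem_range] at hi
  have h1 : del (m + 1) i = i := if_pos (by omega)
  have h2 : del (m + 2) i = i := if_pos (by omega)
  have h3 : del (m + 1) (i + 1) = i + 1 := if_pos (by omega)
  have h4 : del (m + 2) (i + 1) = i + 1 := if_pos (by omega)
  rw [h1, h2, h3, h4]

lemma two_mul_zmod2 (x : ZMod 2) : x + x = 0 := CharTwo.add_self_eq_zero x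

/-- the coboundary of `b_0 ∪ db_1 ∪ ... ∪ db_m` is `db_0 ∪ ... ∪ db_m` -/
lemma coboundary (m : ℕ) (a : ℕ → ℕ → ZMod 2) :
    ∑ j ∈ range (m + 2), Dterm m a j = ∏ i ∈ range (m + 1), (a i i + a i (i + 1)) := by
  induction m with
  | zero =>
    simp [Dterm, sum_range_succ, del]
    ring
  | succ m ih =>
    rw [prod_range_succ, ← ih, sum_range_succ (fun j => Dterm (m + 1) a j),
      sum_range_succ (fun j => Dterm (m + 1) a j), sum_range_succ (fun j => Dterm m a j), add_mul]
    have h1 : ∀ j ∈ range (m + 1), Dterm (m + 1) a j =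
        Dterm m a j * (a (m + 1) (m + 1) + a (m + 1) (m + 1 + 1)) := by
      intro j hj
      rw [mem_range] at hj
      rw [Dterm_succ]
      have h3 : del j m = m + 1 := if_neg (by omega)
      have h4 : del j (m + 1) = m + 1 + 1 := if_neg (by omega)
      rw [h3, h4]
    rw [sum_congr rfl h1, ← sum_mul]
    have h2 : Dterm (m + 1) a (m + 1) = Dterm m a (m + 1) * (a (m + 1) m + a (m + 1) (m + 1 + 1)) := by
      rw [Dterm_succ]
      have h3 : del (m + 1) m = m := if_pos (by omega)
      have h4 : del (m + 1) (m + 1) = m + 1 + 1 := if_neg (by omega)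
      rw [h3, h4]
    have h5 : Dterm (m + 1) a (m + 1 + 1) = Dterm m a (m + 1) * (a (m + 1) m + a (m + 1) (m + 1)) := by
      rw [Dterm_succ, ← Dterm_last]
      have h3 : del (m + 1 + 1) m = m := if_pos (by omega)
      have h4 : del (m + 1 + 1) (m + 1) = m + 1 := if_pos (by omega)
      rw [h3, h4]
    rw [h2, h5]
    have h6 := two_mul_zmod2 (Dterm m a (m + 1) * a (m + 1) m)
    linear_combination h6

/-! ### Simplices of the cubical grid -/

/-- the `j`-th vertex of the simplex with base `x` and position function `σ` -/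
def vtx {n : ℕ} (x : Fin n → ℕ) (σ : Equiv.Perm (Fin n)) (j : ℕ) : Fin n → ℕ :=
  fun k => x k + if (σ k : ℕ) < j then 1 else 0

/-- the sum over all simplices -/
def T (L n : ℕ) (b : ℕ → (Fin n → ℕ) → ZMod 2) : ZMod 2 :=
  ∑ x : Fin n → Fin L, ∑ σ : Equiv.Perm (Fin n),
    ∏ i ∈ range n, (b i (vtx (fun k => (x k : ℕ)) σ i) + b i (vtx (fun k => (x k : ℕ)) σ (i + 1)))

/-- middle faces cancel -/
lemma middle (m : ℕ) (b : ℕ → (Fin (m + 1) → ℕ) → ZMod 2) (x : Fin (m + 1) → ℕ) (j : ℕ)
    (h1 : 1 ≤ j) (h2 : j ≤ m) :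
    ∑ σ : Equiv.Perm (Fin (m + 1)), Dterm m (fun i l => b i (vtx x σ l)) j = 0 := by
  let p : Fin (m + 1) := ⟨j - 1, by omega⟩
  let q : Fin (m + 1) := ⟨j, by omega⟩
  have hpq : p ≠ q := by
    intro h
    have := congrArg Fin.val h
    simp only [p, q] at this
    omega
  have hv : ∀ (σ : Equiv.Perm (Fin (m + 1))) (l : ℕ), l ≠ j →
      vtx x (Equiv.swap p q * σ) l = vtx x σ l := by
    intro σ l hl
    funext k
    unfold vtx
    congr 1
    have : (((Equiv.swap p q * σ) k : Fin (m + 1)) : ℕ) < l ↔ ((σ k : Fin (m + 1)) : ℕ) < l := by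
      rw [Equiv.Perm.mul_apply]
      by_cases hp : σ k = p
      · rw [hp, Equiv.swap_apply_left]
        simp only [p, q]
        omega
      · by_cases hq : σ k = q
        · rw [hq, Equiv.swap_apply_right]
          simp only [p, q]
          omega
        · rw [Equiv.swap_apply_of_ne_of_ne hp hq]
    simp only [this]
  apply Finset.sum_involution (fun σ _ => Equiv.swap p q * σ)
  · intro σ _
    have : Dterm m (fun i l => b i (vtx x (Equiv.swap p q * σ) l)) j =
        Dterm m (fun i l => b i (vtx x σ l)) j := by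
      unfold Dterm
      have hd : ∀ i, del j i ≠ j := by
        intro i; unfold del; split_ifs <;> omega
      beta_reduce
      rw [hv σ _ (hd 0)]
      congr 1
      apply prod_congr rfl
      intro i _
      rw [hv σ _ (hd _), hv σ _ (hd _)]
    rw [this]
    exact two_mul_zmod2 _
  · intro σ _ _ h
    have h3 : Equiv.swap p q = 1 := by
      have := congrArg (fun τ => τ * σ⁻¹) h
      simpa using this
    have h4 := congrArg (fun τ : Equiv.Perm (Fin (m + 1)) => τ p) h3
    simp only [Equiv.swap_apply_left, Equiv.Perm.one_apply] at h4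
    exact hpq h4.symm
  · intro σ _; exact mem_univ _
  · intro σ _
    rw [← mul_assoc, Equiv.swap_mul_self, one_mul]

/-- the vertices of a face, starting from `y` and ignoring the direction in position `0` -/
def fvtx {n : ℕ} (y : Fin n → ℕ) (σ : Equiv.Perm (Fin n)) (j : ℕ) : Fin n → ℕ :=
  fun k => y k + if 1 ≤ (σ k : ℕ) ∧ (σ k : ℕ) ≤ j then 1 else 0

def E (m : ℕ) (b : ℕ → (Fin (m + 1) → ℕ) → ZMod 2) (y : Fin (m + 1) → ℕ)
    (σ : Equiv.Perm (Fin (m + 1))) : ZMod 2 :=
  b 0 (fvtx y σ 0) * ∏ i ∈ range m, (b (i + 1) (fvtx y σ i) + b (i + 1) (fvtx y σ (i + 1)))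

/-- deleting the first vertex -/
lemma D_first (m : ℕ) (b : ℕ → (Fin (m + 1) → ℕ) → ZMod 2) (x : Fin (m + 1) → ℕ)
    (σ : Equiv.Perm (Fin (m + 1))) :
    Dterm m (fun i l => b i (vtx x σ l)) 0 =
      E m b (Function.update x (σ.symm 0) (x (σ.symm 0) + 1)) σ := by
  have hv : ∀ l, vtx x σ (l + 1) = fvtx (Function.update x (σ.symm 0) (x (σ.symm 0) + 1)) σ l := by
    intro l
    funext k
    unfold vtx fvtx
    by_cases hk : k = σ.symm 0
    · subst hk
      simp
    · rw [Function.update_of_ne hk]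
      have : σ k ≠ 0 := by
        intro h
        apply hk
        rw [← h, Equiv.symm_apply_apply]
      have h1 : 1 ≤ (σ k : ℕ) := by
        rw [Nat.one_le_iff_ne_zero]
        intro h
        exact this (Fin.ext h)
      congr 1
      simp only [h1, true_and, Nat.lt_succ_iff]
  unfold Dterm E
  have hd : ∀ i, del 0 i = i + 1 := fun i => if_neg (by omega)
  simp only [hd, hv]

/-- deleting the last vertex -/
lemma D_last (m : ℕ) (b : ℕ → (Fin (m + 1) → ℕ) → ZMod 2) (x : Fin (m + 1) → ℕ)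
    (σ : Equiv.Perm (Fin (m + 1))) :
    Dterm m (fun i l => b i (vtx x σ l)) (m + 1) = E m b x (finRotate (m + 1) * σ) := by
  have hv : ∀ l, l ≤ m → vtx x σ l = fvtx x (finRotate (m + 1) * σ) l := by
    intro l hl
    funext k
    unfold vtx fvtx
    congr 1
    rw [Equiv.Perm.mul_apply]
    by_cases h : σ k = Fin.last m
    · rw [h, finRotate_last]
      simp
      omega
    · have h1 : (σ k : ℕ) < m := by
        have := (σ k).2
        have h2 : (σ k : ℕ) ≠ m := fun h' => h (Fin.ext h')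
        omega
      have h2 : ((finRotate (m + 1) (σ k) : Fin (m + 1)) : ℕ) = (σ k : ℕ) + 1 := by
        rw [coe_finRotate_of_ne_last h]
      rw [h2]
      have : ((σ k : ℕ) < l) ↔ (1 ≤ (σ k : ℕ) + 1 ∧ (σ k : ℕ) + 1 ≤ l) := by omega
      simp only [this]
  unfold Dterm E
  have hd : ∀ i, i ≤ m → del (m + 1) i = i := fun i hi => if_pos (by omega)
  beta_reduce
  rw [hd 0 (by omega), hv 0 (by omega)]
  congr 1
  apply prod_congr rfl
  intro i hi
  rw [mem_range] at hi
  rw [hd i (by omega), hd (i + 1) (by omega), hv i (by omega), hv (i + 1) (by omega)]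


/-- faces transverse to a direction `k` telescope -/
lemma telescoping (g : ℕ → ZMod 2) (L : ℕ) :
    ∑ t : Fin L, (g (t + 1) + g t) = g L + g 0 := by
  rw [Fin.sum_univ_eq_sum_range (fun t => g (t + 1) + g t) L]
  induction L with
  | zero => simp [two_mul_zmod2]
  | succ L ih =>
    rw [sum_range_succ, ih]
    have := two_mul_zmod2 (g L)
    linear_combination this

/-- the boundary sum -/
lemma boundary (m L : ℕ) (b : ℕ → (Fin (m + 1) → ℕ) → ZMod 2)
    (σ : Equiv.Perm (Fin (m + 1))) :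
    ∑ x : Fin (m + 1) → Fin L,
      (E m b (Function.update (fun k => (x k : ℕ)) (σ.symm 0) ((x (σ.symm 0) : ℕ) + 1)) σ +
        E m b (fun k => (x k : ℕ)) σ) =
    ∑ x : Fin m → Fin L,
      (E m b (Fin.insertNth (σ.symm 0) L (fun k => (x k : ℕ))) σ +
        E m b (Fin.insertNth (σ.symm 0) 0 (fun k => (x k : ℕ))) σ) := by
  set k := σ.symm 0 with hk
  rw [← (Fin.insertNthEquiv (fun _ => Fin L) k).sum_comp]
  rw [Fintype.sum_prod_type, sum_comm]
  apply sum_congr rfl
  intro x _
  have h1 : ∀ t : Fin L, (fun i => ((Fin.insertNthEquiv (fun _ => Fin L) k (t, x) i : Fin L) : ℕ)) =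
      Fin.insertNth (α := fun _ => ℕ) k (t : ℕ) (fun i => (x i : ℕ)) := by
    intro t
    funext i
    refine Fin.succAboveCases k ?_ ?_ i
    · simp
    · intro j; simp
  have h2 : ∀ t : Fin L, Function.update
      (fun i => ((Fin.insertNthEquiv (fun _ => Fin L) k (t, x) i : Fin L) : ℕ)) k
      ((Fin.insertNthEquiv (fun _ => Fin L) k (t, x) k : Fin L) + 1) =
      Fin.insertNth (α := fun _ => ℕ) k ((t : ℕ) + 1) (fun i => (x i : ℕ)) := by
    intro t
    rw [h1]
    funext i
    refine Fin.succAboveCases k ?_ ?_ i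
    · simp
    · intro j
      rw [Function.update_of_ne (Fin.succAbove_ne k j)]
      simp
  have h3 : ∀ t : Fin L, (E m b (Function.update
      (fun i => ((Fin.insertNthEquiv (fun _ => Fin L) k (t, x) i : Fin L) : ℕ)) k
      ((Fin.insertNthEquiv (fun _ => Fin L) k (t, x) k : Fin L) + 1)) σ +
      E m b (fun i => ((Fin.insertNthEquiv (fun _ => Fin L) k (t, x) i : Fin L) : ℕ)) σ) =
      (fun t : ℕ => E m b (Fin.insertNth (α := fun _ => ℕ) k t (fun i => (x i : ℕ))) σ) ((t : ℕ) + 1) +
      (fun t : ℕ => E m b (Fin.insertNth (α := fun _ => ℕ) k t (fun i => (x i : ℕ))) σ) (t : ℕ) := by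
    intro t
    rw [h2, h1]
  exact (sum_congr rfl (fun t _ => h3 t)).trans (telescoping
    (fun t : ℕ => E m b (Fin.insertNth (α := fun _ => ℕ) k t (fun i => (x i : ℕ))) σ) L)

/-- The boundary conditions. -/
structure Bdry (L n : ℕ) (b : ℕ → (Fin n → ℕ) → ZMod 2) : Prop where
  zero : ∀ (i : Fin n) (x : Fin n → ℕ), (∀ k, x k ≤ L) → x i = 0 → b i x = 0
  one : ∀ (i : Fin n) (x : Fin n → ℕ), (∀ k, x k ≤ L) → x i = L → b i x = 1

lemma fvtx_le {n L : ℕ} (y : Fin n → ℕ) (σ : Equiv.Perm (Fin n)) (j : ℕ)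
    (hy : ∀ k, (σ k : ℕ) = 0 → y k ≤ L) (hy' : ∀ k, (σ k : ℕ) ≠ 0 → y k + 1 ≤ L) (k : Fin n) :
    fvtx y σ j k ≤ L := by
  unfold fvtx
  by_cases h : (σ k : ℕ) = 0
  · rw [if_neg (by omega)]
    simpa using hy k h
  · have := hy' k h
    split_ifs <;> omega

lemma fvtx_fix {n : ℕ} (y : Fin n → ℕ) (σ : Equiv.Perm (Fin n)) (j : ℕ) (k : Fin n)
    (h : (σ k : ℕ) = 0) : fvtx y σ j k = y k := by
  unfold fvtx
  rw [if_neg (by omega)]; simp

/-- terms on faces transverse to direction `k ≠ 0` vanish -/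
lemma E_zero_of_ne (m L : ℕ) (b : ℕ → (Fin (m + 1) → ℕ) → ZMod 2) (hb : Bdry L (m + 1) b)
    (σ : Equiv.Perm (Fin (m + 1))) (k : Fin (m + 1)) (hk : σ k = 0) (hk0 : k ≠ 0) (y : Fin (m + 1) → ℕ)
    (hy : ∀ i, (σ i : ℕ) ≠ 0 → y i + 1 ≤ L) (hyk : y k = 0 ∨ y k = L) : E m b y σ = 0 := by
  obtain ⟨i, rfl⟩ := Fin.exists_succ_eq.mpr hk0
  have hk' : (σ i.succ : ℕ) = 0 := by rw [hk]; rfl
  have hle : ∀ j k, fvtx y σ j k ≤ L := fun j k => fvtx_le y σ j (by
    intro k hk2
    have : k = i.succ := by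
      apply σ.injective
      rw [hk]
      exact Fin.ext hk2
    rw [this]
    rcases hyk with h | h <;> omega) hy k
  unfold E
  rw [Finset.prod_eq_zero (i := (i : ℕ)), mul_zero]
  · exact mem_range.mpr i.2
  · have e1 : ∀ j, fvtx y σ j i.succ = y i.succ := fun j => fvtx_fix y σ j _ hk'
    rcases hyk with h | h
    · have h1 := hb.zero i.succ (fvtx y σ i) (hle _) (by rw [e1, h])
      have h2 := hb.zero i.succ (fvtx y σ (i + 1)) (hle _) (by rw [e1, h])
      rw [Fin.val_succ] at h1 h2
      rw [h1, h2, add_zero]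
    · have h1 := hb.one i.succ (fvtx y σ i) (hle _) (by rw [e1, h])
      have h2 := hb.one i.succ (fvtx y σ (i + 1)) (hle _) (by rw [e1, h])
      rw [Fin.val_succ] at h1 h2
      rw [h1, h2]
      exact two_mul_zmod2 1

/-- the lower face in direction `0` contributes `0` -/
lemma E_zero_lower (m L : ℕ) (b : ℕ → (Fin (m + 1) → ℕ) → ZMod 2) (hb : Bdry L (m + 1) b)
    (σ : Equiv.Perm (Fin (m + 1))) (hk : σ 0 = 0) (y : Fin (m + 1) → ℕ)
    (hy : ∀ i, (σ i : ℕ) ≠ 0 → y i + 1 ≤ L) (hyk : y 0 = 0) : E m b y σ = 0 := by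
  have hk' : (σ 0 : ℕ) = 0 := by rw [hk]; rfl
  have hle : ∀ j k, fvtx y σ j k ≤ L := fun j k => fvtx_le y σ j (by
    intro k hk2
    have : k = 0 := by
      apply σ.injective
      rw [hk]
      exact Fin.ext hk2
    rw [this]
    omega) hy k
  unfold E
  have := hb.zero 0 (fvtx y σ 0) (hle 0) (by rw [fvtx_fix y σ 0 _ hk', hyk])
  rw [Fin.val_zero] at this
  rw [this, zero_mul]

/-- the upper face in direction `0` gives the sum in one dimension less -/
lemma E_upper (m L : ℕ) (b : ℕ → (Fin (m + 1) → ℕ) → ZMod 2) (hb : Bdry L (m + 1) b)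
    (e : Equiv.Perm (Fin m)) (x : Fin m → Fin L) :
    E m b (Fin.cons L (fun k => (x k : ℕ))) (Equiv.Perm.decomposeFin.symm (0, e)) =
    ∏ i ∈ range m, (b (i + 1) (Fin.cons L (vtx (fun k => (x k : ℕ)) e i)) +
      b (i + 1) (Fin.cons L (vtx (fun k => (x k : ℕ)) e (i + 1)))) := by
  set σ := Equiv.Perm.decomposeFin.symm ((0 : Fin (m + 1)), e) with hσ
  have h0 : σ 0 = 0 := by rw [hσ]; simp
  have hs : ∀ i : Fin m, σ i.succ = (e i).succ := by intro i; rw [hσ]; simp
  have hf : ∀ j, fvtx (Fin.cons L (fun k => (x k : ℕ)) : Fin (m + 1) → ℕ) σ j =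
      Fin.cons L (vtx (fun k => (x k : ℕ)) e j) := by
    intro j
    funext k
    refine Fin.cases ?_ ?_ k
    · rw [fvtx_fix _ _ _ _ (by rw [h0]; rfl)]; rfl
    · intro i
      unfold fvtx vtx
      rw [hs, Fin.cons_succ, Fin.cons_succ, Fin.val_succ]
      congr 1
      have : (1 ≤ (e i : ℕ) + 1 ∧ (e i : ℕ) + 1 ≤ j) ↔ (e i : ℕ) < j := by omega
      simp only [this]
  unfold E
  simp only [hf]
  have h1 : b 0 (Fin.cons L (vtx (fun k => (x k : ℕ)) e 0)) = 1 := by
    have := hb.one 0 (Fin.cons L (vtx (fun k => (x k : ℕ)) e 0)) (by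
      intro k
      refine Fin.cases ?_ ?_ k
      · simp
      · intro i
        rw [Fin.cons_succ]
        have := (x i).2
        change (x i : ℕ) + (if (e i : ℕ) < 0 then 1 else 0) ≤ L
        split_ifs <;> omega) rfl
    exact this
  rw [h1, one_mul]

/-- **Parity theorem.** -/
theorem T_eq_one (L n : ℕ) (b : ℕ → (Fin n → ℕ) → ZMod 2) (hb : Bdry L n b) :
    T L n b = 1 := by
  induction n with
  | zero =>
    unfold T
    simp
  | succ m ih =>
    -- the restricted functions
    have ih' := ih (fun i y => b (i + 1) (Fin.cons L y)) ⟨fun i x hx h => by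
        have := hb.zero i.succ (Fin.cons L x) (by
          intro k
          refine Fin.cases ?_ ?_ k
          · simp
          · intro j; simpa using hx j) (by simpa using h)
        simpa using this, fun i x hx h => by
        have := hb.one i.succ (Fin.cons L x) (by
          intro k
          refine Fin.cases ?_ ?_ k
          · simp
          · intro j; simpa using hx j) (by simpa using h)
        simpa using this⟩
    rw [← ih']
    unfold T
    -- use the coboundary identity
    have h1 : ∀ (x : Fin (m + 1) → Fin L) (σ : Equiv.Perm (Fin (m + 1))),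
        ∏ i ∈ range (m + 1), (b i (vtx (fun k => (x k : ℕ)) σ i) +
          b i (vtx (fun k => (x k : ℕ)) σ (i + 1))) =
        ∑ j ∈ range (m + 2), Dterm m (fun i l => b i (vtx (fun k => (x k : ℕ)) σ l)) j := by
      intro x σ
      rw [coboundary]
    have h2 : ∀ (x : Fin (m + 1) → Fin L), ∑ σ : Equiv.Perm (Fin (m + 1)),
        ∏ i ∈ range (m + 1), (b i (vtx (fun k => (x k : ℕ)) σ i) +
          b i (vtx (fun k => (x k : ℕ)) σ (i + 1))) =
        ∑ σ : Equiv.Perm (Fin (m + 1)),
          (E m b (Function.update (fun k => (x k : ℕ)) (σ.symm 0) ((x (σ.symm 0) : ℕ) + 1)) σ +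
            E m b (fun k => (x k : ℕ)) σ) := by
      intro x
      rw [sum_congr rfl (fun σ _ => h1 x σ), sum_comm, sum_range_succ, sum_range_succ']
      have h3 : ∑ k ∈ range m, ∑ σ : Equiv.Perm (Fin (m + 1)),
          Dterm m (fun i l => b i (vtx (fun k => (x k : ℕ)) σ l)) (k + 1) = 0 := by
        apply sum_eq_zero
        intro k hk
        rw [mem_range] at hk
        exact middle m b _ (k + 1) (by omega) (by omega)
      rw [h3, zero_add, sum_add_distrib]
      congr 1
      · apply sum_congr rfl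
        intro σ _
        exact D_first m b _ σ
      · rw [← Equiv.sum_comp (Equiv.mulLeft (finRotate (m + 1)))
          (fun σ => E m b (fun k => (x k : ℕ)) σ)]
        apply sum_congr rfl
        intro σ _
        exact D_last m b _ σ
    rw [sum_congr rfl (fun x _ => h2 x), sum_comm, sum_congr rfl (fun σ _ => boundary m L b σ)]
    -- split according to the position of direction 0
    have h4 : ∀ σ : Equiv.Perm (Fin (m + 1)), σ 0 ≠ 0 → ∑ x : Fin m → Fin L,
        (E m b (Fin.insertNth (σ.symm 0) L (fun k => (x k : ℕ))) σ +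
          E m b (Fin.insertNth (σ.symm 0) 0 (fun k => (x k : ℕ))) σ) = 0 := by
      intro σ hσ
      apply sum_eq_zero
      intro x _
      have hk0 : σ.symm 0 ≠ 0 := by
        intro h
        apply hσ
        rw [← h, Equiv.apply_symm_apply, h]
      have hy : ∀ t : ℕ, ∀ i, ((σ i : Fin (m + 1)) : ℕ) ≠ 0 →
          (Fin.insertNth (α := fun _ => ℕ) (σ.symm 0) t (fun k => (x k : ℕ))) i + 1 ≤ L := by
        intro t i
        refine Fin.succAboveCases (σ.symm 0) ?_ ?_ i
        · intro h; exact absurd (by simp) h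
        · intro j _
          simp only [Fin.insertNth_apply_succAbove]
          exact (x j).2
      rw [E_zero_of_ne m L b hb σ (σ.symm 0) (by simp) hk0 _ (hy L) (Or.inr (by simp)),
        E_zero_of_ne m L b hb σ (σ.symm 0) (by simp) hk0 _ (hy 0) (Or.inl (by simp)), add_zero]
    rw [← Equiv.sum_comp (Equiv.Perm.decomposeFin.symm), Fintype.sum_prod_type, Fin.sum_univ_succ]
    have h5 : ∑ i : Fin m, ∑ e : Equiv.Perm (Fin m), ∑ x : Fin m → Fin L,
        (E m b (Fin.insertNth ((Equiv.Perm.decomposeFin.symm (i.succ, e)).symm 0) L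
            (fun k => (x k : ℕ))) (Equiv.Perm.decomposeFin.symm (i.succ, e)) +
          E m b (Fin.insertNth ((Equiv.Perm.decomposeFin.symm (i.succ, e)).symm 0) 0
            (fun k => (x k : ℕ))) (Equiv.Perm.decomposeFin.symm (i.succ, e))) = 0 := by
      apply sum_eq_zero
      intro i _
      apply sum_eq_zero
      intro e _
      apply h4
      simp
    rw [h5, add_zero, sum_comm]
    apply sum_congr rfl
    intro x _
    apply sum_congr rfl
    intro e _
    set σ := Equiv.Perm.decomposeFin.symm ((0 : Fin (m + 1)), e) with hσ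
    have h0 : σ 0 = 0 := by rw [hσ]; simp
    have h0' : σ.symm 0 = 0 := by rw [Equiv.symm_apply_eq, h0]
    rw [h0', Fin.insertNth_zero', Fin.insertNth_zero']
    have hy : ∀ i, ((σ i : Fin (m + 1)) : ℕ) ≠ 0 →
          (Fin.cons 0 (fun k => (x k : ℕ)) : Fin (m + 1) → ℕ) i + 1 ≤ L := by
        intro i
        refine Fin.cases ?_ ?_ i
        · intro h; exact absurd (by rw [h0]; rfl) h
        · intro j _
          simp only [Fin.cons_succ]
          exact (x j).2
    rw [E_zero_lower m L b hb σ h0 _ hy (by simp), add_zero]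
    exact E_upper m L b hb e x

/-- **Combinatorial Poincare-Miranda lemma.** -/
theorem exists_simplex (L n : ℕ) (b : ℕ → (Fin n → ℕ) → ZMod 2) (hb : Bdry L n b) :
    ∃ (x : Fin n → Fin L) (σ : Equiv.Perm (Fin n)), ∀ i < n,
      b i (vtx (fun k => (x k : ℕ)) σ i) ≠ b i (vtx (fun k => (x k : ℕ)) σ (i + 1)) := by
  by_contra hcon
  push Not at hcon
  have h1 := T_eq_one L n b hb
  have h2 : T L n b = 0 := by
    unfold T
    apply sum_eq_zero
    intro x _
    apply sum_eq_zero
    intro σ _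
    obtain ⟨i, hi, h⟩ := hcon x σ
    apply prod_eq_zero (mem_range.mpr hi)
    rw [h]
    exact two_mul_zmod2 _
  rw [h1] at h2
  exact one_ne_zero h2

end Pool.Agent.Helper30.Hex
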