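import Pool.Agent.Helper30.QVStar

set_option autoImplicit false

universe u v w x y

namespace Pool.Agent.Helper30.QV

open FirstOrder FirstOrder.Language

variable {L : FirstOrder.Language.{v, w}} (D : Data L)

/-! ### Computations in encoded systems -/

section enc

variable {B : Type u} [L0.Structure B]

variable {D} (H : Enc D B)

include H

lemma Enc.e_co (i : ℕ) (x : B) : e (co i x) = co i x := H.e_e _

lemma Enc.co_packN (n : ℕ) (g : ℕ → B) (i : ℕ) (hi : i < D.k) :
    co i (packN n g) = if i < n then e (g i) else inf := by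
  induction n generalizing g i with
  | zero => rw [packN, H.co_inf]; simp
  | succ n ih =>
    cases i with
    | zero =>
      rw [packN]
      change e (cons _ _) = _
      rw [H.e_cons]; simp
    | succ i =>
      rw [packN, H.co_cons i hi, ih _ i (by omega)]
      simp

lemma Enc.co_tau_b {j : ℕ} (hj : j < D.s) (b : B) {n : ℕ} (y : Fin n → B) :
    co j (tau D j b y) = e b := by
  have h1 : j < D.k := D.lt_k_of_le_s hj
  rw [tau, H.co_packN _ _ _ h1, if_pos h1, if_pos rfl]

lemma Enc.co_tau_y {j : ℕ} (hj : j < D.s) (b : B) {n : ℕ} (hn : n ≤ D.W) (y : Fin n → B)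
    (a : Fin n) : co (D.s + a) (tau D j b y) = e (y a) := by
  have h1 : D.s + a < D.k := by unfold Data.k; omega
  rw [tau, H.co_packN _ _ _ h1, if_pos h1, if_neg (by omega)]
  have h2 : D.s ≤ D.s + (a : ℕ) ∧ D.s + (a : ℕ) - D.s < n := ⟨by omega, by
    rw [Nat.add_sub_cancel_left]; exact a.2⟩
  rw [dif_pos h2]
  congr 2
  apply Fin.ext
  simp

omit H in
lemma tau_congr {j : ℕ} {b : B} {n : ℕ} {y z : Fin n → B} (h : ∀ a, y a = z a) :
    tau D j b y = tau D j b z := by
  have : y = z := funext h
  rw [this]

lemma Enc.tau_inf {j : ℕ} (hj : j < D.s) {n : ℕ} (hn : n ≤ D.W) :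
    tau D j (inf : B) (fun _ : Fin n => inf) = inf := by
  apply H.ext
  intro i hi
  rw [tau, H.co_packN _ _ _ hi, if_pos hi, H.co_inf]
  have h1 : (if i = j then (inf : B) else if h : D.s ≤ i ∧ i - D.s < n then inf else inf) = inf := by
    split_ifs <;> rfl
  rw [h1]
  have := H.co_inf 0
  exact this

/-- `b` below `u` and `w` -/
lemma Enc.mul_below {b u w : B} : mul b (mul u w) = b ↔ mul b u = b ∧ mul b w = b := by
  constructor
  · intro h
    constructor
    · calc mul b u = mul (mul b (mul u w)) u := by rw [h]
        _ = mul (mul (mul b u) w) u := by rw [← H.assoc]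
        _ = mul (mul (mul b u) u) w := by rw [H.comm]
        _ = mul (mul b u) w := by rw [H.assoc b u u, H.idem]
        _ = mul b (mul u w) := by rw [H.assoc]
        _ = b := h
    · calc mul b w = mul (mul b (mul u w)) w := by rw [h]
        _ = mul (mul (mul b u) w) w := by rw [← H.assoc]
        _ = mul (mul b u) w := by rw [H.assoc (mul b u) w w, H.idem]
        _ = mul b (mul u w) := by rw [H.assoc]
        _ = b := h
  · rintro ⟨h1, h2⟩
    rw [← H.assoc, h1, h2]

lemma Enc.mul_mul_of_below {b u w : B} (h : mul b w = b) : mul (mul u w) b = mul u b := by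
  rw [H.comm, H.assoc, h]

end enc

/-! ### The component at `b` -/

section comp

variable {B : Type u} [L0.Structure B]

variable {D}

/-- the component of `b` -/
def Bb (_ : Enc D B) (b : B) (_ : e b = b) : Type u :=
  {y : B // e y = y ∧ mul y b = y ∧ mul b y = b}

variable (H : Enc D B) (b : B) (hb : e b = b)

include H hb in
lemma Bb.mem_of {x : B} (i : ℕ) (h : mul b (co i x) = b) :
    e (mul (co i x) b) = mul (co i x) b ∧ mul (mul (co i x) b) b = mul (co i x) b ∧
      mul b (mul (co i x) b) = b := by
  refine ⟨?_, ?_, ?_⟩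
  · have := H.co_mul 0 (co i x) b
    change e (mul (co i x) b) = mul (e (co i x)) (e b) at this
    rw [this, H.e_co, hb]
  · rw [H.assoc, H.idem]
  · rw [H.mul_below]
    exact ⟨h, H.idem b⟩

lemma bb_fun_aux {n : ℕ} (f : L.Functions n) (y : Fin n → Bb H b hb) :
    mul b (co (D.fi f) (ff (tau D (D.fi f) b (fun a => (y a).1)))) = b ∧
    mul (co (D.fi f) (ff (tau D (D.fi f) b (fun a => (y a).1)))) b =
      co (D.fi f) (ff (tau D (D.fi f) b (fun a => (y a).1))) := by
  set x := tau D (D.fi f) b (fun a => (y a).1) with hx
  have h1 : mul b (co (D.fi f) x) = b := by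
    rw [hx, H.co_tau_b (D.fi_lt f), hb, H.idem]
  have h2 : ∀ a : Fin n, co (D.s + a) x = (y a).1 := by
    intro a
    rw [hx, H.co_tau_y (D.fi_lt f) b (D.hF f), (y a).2.1]
  have h3 : ∀ a : Fin n, mul b (co (D.s + a) x) = b := by
    intro a
    rw [h2, (y a).2.2.2]
  refine ⟨H.F_b f x b h1 h3, ?_⟩
  rw [H.F_c f x b h1 h3]
  congr 2
  rw [hx]
  apply tau_congr
  intro a
  rw [← hx, h2, (y a).2.2.1]

instance bbStr : L.Structure (Bb H b hb) where
  funMap {n} f y := ⟨co (D.fi f) (ff (tau D (D.fi f) b (fun a => (y a).1))),
    H.e_co _ _, (bb_fun_aux H b hb f y).2, (bb_fun_aux H b hb f y).1⟩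
  RelMap {n} r y := rr (tau D (D.ri r) b (fun a => (y a).1))

instance : Nonempty (Bb H b hb) := ⟨⟨b, hb, H.idem b, H.idem b⟩⟩

lemma bb_fun {n : ℕ} (f : L.Functions n) (y : Fin n → Bb H b hb) :
    (Structure.funMap f y : Bb H b hb).1 =
      co (D.fi f) (ff (tau D (D.fi f) b (fun a => (y a).1))) := rfl

lemma bb_rel {n : ℕ} (r : L.Relations n) (y : Fin n → Bb H b hb) :
    Structure.RelMap r y ↔ rr (tau D (D.ri r) b (fun a => (y a).1)) := Iff.rfl

/-- the component as a system -/
def bbSys : Sys.{u} L := ⟨Bb H b hb⟩

end comp

/-! ### Translation of terms -/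

section translation

def tr {α : Type x} : L.Term α → L0.Term (Option α)
  | .var i => .var (some i)
  | .func f ts => tCo (D.fi f) (tFf (tTau D (D.fi f) (.var none) (fun a => tr (ts a))))

def trAtom {α : Type x} : Atom L α → Atom L0 (Option α)
  | .eq t s => .eq (tr D t) (tr D s)
  | .rel r ts => tRr (tTau D (D.ri r) (.var none) (fun a => tr D (ts a)))

variable {D} {B : Type u} [L0.Structure B] (H : Enc D B) (b : B) (hb : e b = b)

def extA {α : Type x} (a : α → Bb H b hb) : Option α → B
  | none => b
  | some i => (a i).1

lemma tr_realize {α : Type x} (a : α → Bb H b hb) (t : L.Term α) :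
    (tr D t).realize (extA H b hb a) = (t.realize a).1 := by
  induction t with
  | var i => rfl
  | func f ts ih =>
    rw [tr, r_co, r_ff, r_tau, Term.realize_func, bb_fun]
    congr 2
    apply tau_congr
    intro i
    exact ih i

lemma trAtom_realize {α : Type x} (a : α → Bb H b hb) (p : Atom L α) :
    (trAtom D p).Realize (extA H b hb a) ↔ p.Realize a := by
  cases p with
  | eq t s =>
    change (tr D t).realize (extA H b hb a) = (tr D s).realize (extA H b hb a) ↔
      t.realize a = s.realize a
    rw [tr_realize, tr_realize]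
    exact Subtype.ext_iff.symm
  | rel r ts =>
    rw [trAtom, r_rr, r_tau]
    change _ ↔ Structure.RelMap r (fun i => (ts i).realize a)
    rw [bb_rel]
    have : (fun i => (tr D (ts i)).realize (extA H b hb a)) = fun i => ((ts i).realize a).1 := by
      funext i
      exact tr_realize H b hb a (ts i)
    rw [this]; rfl

end translation

/-! ### Components of `A*` -/

section starcomp

variable {D} {A : Type u} [L.Structure A] (b : StarC D A) (hb : e b = b)

lemma star_bb_v (y : Bb (enc_star D A) b hb) (m : ℕ) : y.1.v (m + 1) = none := by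
  have := congrArg (fun z => z.v (m + 1)) y.2.1
  simp only [star_e] at this
  rw [← this]; simp

lemma star_bb_ne (y : Bb (enc_star D A) b hb) (h : b.v 0 ≠ none) : y.1.v 0 ≠ none := by
  intro h0
  apply h
  have := congrArg (fun z => z.v 0) y.2.2.2
  simp only [star_mul, omul, h0, if_true] at this
  exact this.symm

lemma star_bb_none (y : Bb (enc_star D A) b hb) (h : b.v 0 = none) : y.1.v 0 = none := by
  have := congrArg (fun z => z.v 0) y.2.2.1
  simp only [star_mul, omul, h, if_true] at this
  exact this.symm

/-- For `b` with nonempty support the component is a copy of `A`. -/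
noncomputable def bbToA (h : b.v 0 ≠ none) : Bb (enc_star D A) b hb →[L] A where
  toFun y := (y.1.v 0).get (Option.isSome_iff_ne_none.mpr (star_bb_ne b hb y h))
  map_fun' {n} f y := by
    have key : (Structure.funMap f y : Bb (enc_star D A) b hb).1.v 0 =
        some (Structure.funMap f (fun i => ((y i).1.v 0).get
          (Option.isSome_iff_ne_none.mpr (star_bb_ne b hb (y i) h)))) := by
      rw [bb_fun, star_co, if_pos rfl, star_ff, Fv_eq_some, FG_iff]
      refine ⟨?_, _, ?_, rfl⟩
      · rw [star_tau_b D (D.fi_lt f)]; exact h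
      · intro a
        rw [star_tau_y D (D.fi_lt f) b (D.hF f)]
        exact (Option.some_get _).symm
    apply Option.some.inj
    rw [Option.some_get, key]
    rfl
  map_rel' {n} r y hr := by
    rw [bb_rel, star_rr] at hr
    obtain ⟨v, hv, hR⟩ := hr n r (by rw [star_tau_b D (D.ri_lt r)]; exact h)
    convert hR using 1
    funext a
    have := hv a
    rw [star_tau_y D (D.ri_lt r) b (D.hR r)] at this
    apply Option.some.inj
    rw [← this]
    exact Option.some_get _

lemma bbToA_some (h : b.v 0 ≠ none) (y : Bb (enc_star D A) b hb) :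
    some (bbToA b hb h y) = y.1.v 0 := Option.some_get _

lemma bbToA_inj (h : b.v 0 ≠ none) {y z : Bb (enc_star D A) b hb}
    (hyz : bbToA b hb h y = bbToA b hb h z) : y = z := by
  apply Subtype.ext
  ext1
  funext m
  cases m with
  | zero => rw [← bbToA_some b hb h, ← bbToA_some b hb h, hyz]
  | succ m => rw [star_bb_v, star_bb_v]

lemma bbToA_rel (h : b.v 0 ≠ none) {n : ℕ} (r : L.Relations n) (y : Fin n → Bb (enc_star D A) b hb)
    (hr : Structure.RelMap r (bbToA b hb h ∘ y)) : Structure.RelMap r y := by
  rw [bb_rel, star_rr]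
  intro m r' hr'
  by_cases hrr : D.ri r' = D.ri r
  · have := D.ri_inj r' r hrr
    rw [Sigma.mk.injEq] at this
    obtain ⟨rfl, hg⟩ := this
    rw [heq_eq_eq] at hg
    subst hg
    refine ⟨_, ?_, hr⟩
    intro a
    rw [star_tau_y D (D.ri_lt r') b (D.hR r')]
    exact (bbToA_some b hb h (y a)).symm
  · exact absurd (star_tau_other D b _ (D.ri_lt r') hrr) hr'

lemma star_bb_holds (A : Sys.{u} L) (q : QuasiIdentity L) (hA : Holds A q)
    (b : StarC D A.carrier) (hb : e b = b) : Holds (bbSys (enc_star D A.carrier) b hb) q := by
  by_cases h : b.v 0 = none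
  · have H : JointRefl (L := L) (B := Bb (enc_star D A.carrier) b hb) (I := Empty)
      (C := fun _ => A.carrier) (fun i => i.elim) := by
      constructor
      · intro y z _
        apply Subtype.ext
        ext1
        funext m
        cases m with
        | zero => rw [star_bb_none b hb y h, star_bb_none b hb z h]
        | succ m => rw [star_bb_v, star_bb_v]
      · intro n r y _
        rw [bb_rel, star_rr]
        intro m r' hr'
        exfalso
        apply hr'
        by_cases hrr : D.ri r' = D.ri r
        · rw [hrr, star_tau_b D (D.ri_lt r), h]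
        · exact star_tau_other D b _ (D.ri_lt r') hrr
    exact JointRefl.holds (B := bbSys (enc_star D A.carrier) b hb) (C := fun _ : Empty => A) H q
      (fun i => i.elim)
  · have H : JointRefl (L := L) (B := Bb (enc_star D A.carrier) b hb) (I := Unit)
      (C := fun _ => A.carrier) (fun _ => bbToA b hb h) := by
      constructor
      · intro y z hyz
        exact bbToA_inj b hb h (hyz ())
      · intro n r y hr
        exact bbToA_rel b hb h r y (hr ())
    exact JointRefl.holds (B := bbSys (enc_star D A.carrier) b hb) (C := fun _ : Unit => A) H q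
      (fun _ => hA)

variable (D) in
/-- the element `(c, none, none, ...)` -/
def single (c : A) : StarC D A := ⟨fun i => if i = 0 then some c else none, fun i hi => by
  rw [if_neg]; rintro rfl; unfold Data.k at hi; omega⟩

lemma e_single (c : A) : e (single D c) = single D c := by
  ext1; funext m; rw [star_e]; simp only [single]; split_ifs <;> simp_all

omit [L.Structure A] in
lemma single_ne (c : A) : (single D c).v 0 ≠ none := by simp [single]

/-- elements of `A` as elements of the component -/
def toBb (c x : A) : Bb (enc_star D A) (single D c) (e_single c) :=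
  ⟨single D x, e_single x, by
    ext1; funext m; simp only [star_mul, single, omul]; split_ifs <;> simp_all, by
    ext1; funext m; simp only [star_mul, single, omul]; split_ifs <;> simp_all⟩

lemma bbToA_toBb (c x : A) : bbToA (single D c) (e_single c) (single_ne c) (toBb c x) = x := by
  apply Option.some.inj
  rw [bbToA_some]
  simp [toBb, single]

lemma holds_of_star_bb (A : Sys.{u} L) (q : QuasiIdentity L) (c : A.carrier)
    (hq : Holds (bbSys (enc_star D A.carrier) (single D c) (e_single c)) q) : Holds A q := by
  let φ := bbToA (single D c) (e_single c) (single_ne c)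
  let ψ : A.carrier →[L] Bb (enc_star D A.carrier) (single D c) (e_single c) :=
    { toFun := toBb c
      map_fun' := by
        intro n f x
        apply bbToA_inj _ _ (single_ne c)
        rw [(bbToA (single D c) (e_single c) (single_ne c)).map_fun, bbToA_toBb]
        congr 1
      map_rel' := by
        intro n r x hx
        apply bbToA_rel _ _ (single_ne c)
        convert hx using 1
        funext i
        exact bbToA_toBb c (x i) }
  have H : JointRefl (L := L) (B := A.carrier) (I := Unit)
      (C := fun _ => Bb (enc_star D A.carrier) (single D c) (e_single c)) (fun _ => ψ) := by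
    constructor
    · intro y z hyz
      have := hyz ()
      have h1 : toBb (D := D) c y = toBb c z := this
      rw [← bbToA_toBb (D := D) c y, h1, bbToA_toBb]
    · intro n r y hr
      have h1 : Structure.RelMap r (ψ ∘ y) := hr ()
      have h2 := φ.map_rel r _ h1
      convert h2 using 1
      funext i
      exact (bbToA_toBb c (y i)).symm
  exact JointRefl.holds (B := A)
    (C := fun _ : Unit => bbSys (enc_star D A.carrier) (single D c) (e_single c)) H q (fun _ => hq)

end starcomp

/-- the encoded system -/
noncomputable def starSys (A : Sys.{u} L) : Sys.{u} L0 :=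
  @Sys.mk L0 (StarC D A.carrier) ⟨inf⟩ _

/-- Components of a system in the quasivariety generated by the encodings of members of `N` satisfy
all quasi-identities of `N`. -/
lemma bb_holds_of_mem {N : Set (Sys.{u} L)} {B : Sys.{u} L0}
    (hB : B ∈ Mod (Th (starSys D '' N))) (H : Enc D B.carrier) (b : B.carrier) (hb : e b = b)
    (q : QuasiIdentity L) (hq : ∀ A ∈ N, Holds A q) : Holds (bbSys H b hb) q := by
  intro (a : Fin q.n → Bb H b hb) ha
  change Atom.Realize (A := Bb H b hb) a q.concl
  rw [← trAtom_realize]
  let D1 : List (Atom L0 (Option (Fin q.n))) := [.eq (tE (.var none)) (.var none)]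
  let D2 : List (Atom L0 (Option (Fin q.n))) :=
    List.ofFn (fun i : Fin q.n => .eq (tE (.var (some i))) (.var (some i)))
  let D3 : List (Atom L0 (Option (Fin q.n))) :=
    List.ofFn (fun i : Fin q.n => .eq (tMul (.var (some i)) (.var none)) (.var (some i)))
  let D4 : List (Atom L0 (Option (Fin q.n))) :=
    List.ofFn (fun i : Fin q.n => .eq (tMul (.var none) (.var (some i))) (.var none))
  let D5 : List (Atom L0 (Option (Fin q.n))) := q.prem.map (trAtom D)
  have hD : ∀ (C : Type u) [L0.Structure C] (v : Option (Fin q.n) → C),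
      (∀ d ∈ D1 ++ D2 ++ D3 ++ D4 ++ D5, d.Realize v) ↔
      (e (v none) = v none) ∧ (∀ i, e (v (some i)) = v (some i)) ∧
      (∀ i, mul (v (some i)) (v none) = v (some i)) ∧ (∀ i, mul (v none) (v (some i)) = v none) ∧
      (∀ p ∈ q.prem, (trAtom D p).Realize v) := by
    intro C _ v
    constructor
    · intro h
      refine ⟨?_, fun i => ?_, fun i => ?_, fun i => ?_, fun p hp => ?_⟩
      · simpa using h (.eq (tE (.var none)) (.var none)) (by simp [D1])
      · simpa using h (.eq (tE (.var (some i))) (.var (some i))) (by
          have : (Atom.eq (tE (.var (some i))) (.var (some i)) : Atom L0 (Option (Fin q.n))) ∈ D2 :=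
            (List.mem_ofFn' _ _).mpr ⟨i, rfl⟩
          simp [this])
      · simpa using h (.eq (tMul (.var (some i)) (.var none)) (.var (some i))) (by
          have : (Atom.eq (tMul (.var (some i)) (.var none)) (.var (some i)) :
            Atom L0 (Option (Fin q.n))) ∈ D3 := (List.mem_ofFn' _ _).mpr ⟨i, rfl⟩
          simp [this])
      · simpa using h (.eq (tMul (.var none) (.var (some i))) (.var none)) (by
          have : (Atom.eq (tMul (.var none) (.var (some i))) (.var none) :
            Atom L0 (Option (Fin q.n))) ∈ D4 := (List.mem_ofFn' _ _).mpr ⟨i, rfl⟩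
          simp [this])
      · exact h _ (by
          have : trAtom D p ∈ D5 := List.mem_map.mpr ⟨p, hp, rfl⟩
          simp [this])
    · rintro ⟨h1, h2, h3, h4, h5⟩ d hd
      simp only [List.mem_append] at hd
      rcases hd with (((hd | hd) | hd) | hd) | hd
      · rw [List.mem_singleton] at hd
        subst hd
        simpa using h1
      · obtain ⟨i, rfl⟩ := (List.mem_ofFn' _ _).mp hd
        simpa using h2 i
      · obtain ⟨i, rfl⟩ := (List.mem_ofFn' _ _).mp hd
        simpa using h3 i
      · obtain ⟨i, rfl⟩ := (List.mem_ofFn' _ _).mp hd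
        simpa using h4 i
      · obtain ⟨p, hp, rfl⟩ := List.mem_map.mp hd
        exact h5 p hp
  apply transfer hB (D1 ++ D2 ++ D3 ++ D4 ++ D5) (trAtom D q.concl)
  · rintro _ ⟨A, hA, rfl⟩ (v : Option (Fin q.n) → StarC D A.carrier) hv
    rw [hD] at hv
    obtain ⟨h1, h2, h3, h4, h5⟩ := hv
    let a' : Fin q.n → Bb (enc_star D A.carrier) (v none) h1 := fun i =>
      ⟨v (some i), h2 i, h3 i, h4 i⟩
    have hva : v = extA (enc_star D A.carrier) (v none) h1 a' := by
      funext o
      cases o <;> rfl
    have hh : Atom.Realize (A := Bb (enc_star D A.carrier) (v none) h1) a' q.concl :=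
      star_bb_holds A q (hq A hA) (v none) h1 a' (by
        intro p hp
        change Atom.Realize (A := Bb (enc_star D A.carrier) (v none) h1) a' p
        rw [← trAtom_realize, ← hva]
        exact h5 p hp)
    rw [← trAtom_realize, ← hva] at hh
    exact hh
  · rw [hD]
    refine ⟨hb, fun i => (a i).2.1, fun i => (a i).2.2.1, fun i => (a i).2.2.2, fun p hp => ?_⟩
    rw [trAtom_realize]
    exact ha p hp

end Pool.Agent.Helper30.QV
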