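import Mathlib

/-!
Quasivarieties of algebraic systems: basic definitions.
-/

set_option autoImplicit false

universe u v w x

namespace Pool.Agent.Helper30.QV

open FirstOrder FirstOrder.Language

/-- Atomic formulas of a signature `L` with variables in `α`: equations of terms, and basic relations
applied to terms. -/
inductive Atom (L : FirstOrder.Language.{v, w}) (α : Type x) : Type (max v w x)
  | eq (t s : L.Term α) : Atom L α
  | rel {n : ℕ} (r : L.Relations n) (ts : Fin n → L.Term α) : Atom L α

/-- Truth of an atomic formula under an assignment of the variables. -/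
def Atom.Realize {L : FirstOrder.Language.{v, w}} {α : Type x} {A : Type u} [L.Structure A]
    (a : α → A) : Atom L α → Prop
  | .eq t s => t.realize a = s.realize a
  | .rel r ts => Structure.RelMap r (fun i => (ts i).realize a)

/-- A quasi-identity: finitely many variables, a finite list of atomic premises, an atomic
conclusion. -/
structure QuasiIdentity (L : FirstOrder.Language.{v, w}) where
  n : ℕ
  prem : List (Atom L (Fin n))
  concl : Atom L (Fin n)

/-- An algebraic system of signature `L` (nonempty carrier in the universe `u`). -/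
structure Sys (L : FirstOrder.Language.{v, w}) : Type (max (u + 1) v w) where
  carrier : Type u
  [ne : Nonempty carrier]
  [str : L.Structure carrier]

attribute [instance] Sys.ne Sys.str

/-- Validity of a quasi-identity in a system (universal closure). -/
def Holds {L : FirstOrder.Language.{v, w}} (A : Sys.{u} L) (q : QuasiIdentity L) : Prop :=
  ∀ a : Fin q.n → A.carrier, (∀ p ∈ q.prem, p.Realize a) → q.concl.Realize a

/-- The class of all systems satisfying a set of quasi-identities. -/
def Mod {L : FirstOrder.Language.{v, w}} (S : Set (QuasiIdentity L)) : Set (Sys.{u} L) :=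
  {A | ∀ q ∈ S, Holds A q}

/-- The set of quasi-identities valid in all members of a class. -/
def Th {L : FirstOrder.Language.{v, w}} (X : Set (Sys.{u} L)) : Set (QuasiIdentity L) :=
  {q | ∀ A ∈ X, Holds A q}

/-- The quasivariety generated by a class: all systems satisfying the quasi-identities of the class. -/
abbrev Gen {L : FirstOrder.Language.{v, w}} (X : Set (Sys.{u} L)) : Set (Sys.{u} L) := Mod (Th X)

/-- A class of systems is a quasivariety if it is axiomatised by quasi-identities. -/
def IsQuasivariety {L : FirstOrder.Language.{v, w}} (X : Set (Sys.{u} L)) : Prop :=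
  ∃ S : Set (QuasiIdentity L), X = Mod S

/-- The collection of all quasivarieties of signature `L`. -/
def Quasivariety (L : FirstOrder.Language.{v, w}) : Type (max (u + 1) v w) :=
  {X : Set (Sys.{u} L) // IsQuasivariety X}

variable {L : FirstOrder.Language.{v, w}}

lemma subset_Mod_Th (X : Set (Sys.{u} L)) : X ⊆ Mod (Th X) := fun _ hA _ hq => hq _ hA

lemma Mod_Th_subset {X : Set (Sys.{u} L)} {Y : Set (Sys.{u} L)} (hY : IsQuasivariety Y)
    (h : X ⊆ Y) : Mod (Th X) ⊆ Y := by
  obtain ⟨S, rfl⟩ := hY
  intro A hA q hq
  exact hA q (fun B hB => h hB q hq)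

lemma IsQuasivariety.eq {X : Set (Sys.{u} L)} (hX : IsQuasivariety X) : Mod (Th X) = X :=
  Set.Subset.antisymm (Mod_Th_subset hX subset_rfl) (subset_Mod_Th X)

lemma isQuasivariety_inter {X Y : Set (Sys.{u} L)} (hX : IsQuasivariety X)
    (hY : IsQuasivariety Y) : IsQuasivariety (X ∩ Y) := by
  obtain ⟨S, rfl⟩ := hX
  obtain ⟨T, rfl⟩ := hY
  refine ⟨S ∪ T, ?_⟩
  ext A
  constructor
  · rintro ⟨h1, h2⟩ q (hq | hq)
    · exact h1 q hq
    · exact h2 q hq
  · intro h
    exact ⟨fun q hq => h q (Or.inl hq), fun q hq => h q (Or.inr hq)⟩

/-- Quasivarieties are ordered by inclusion. -/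
instance : PartialOrder (Quasivariety.{u} L) :=
  PartialOrder.lift (fun X => X.1) (fun _ _ h => Subtype.ext h)

lemma Quasivariety.le_def (X Y : Quasivariety.{u} L) : X ≤ Y ↔ X.1 ⊆ Y.1 := Iff.rfl

/-- The lattice of quasivarieties of signature `L`: the meet is the intersection, the join is the
least quasivariety containing the union. -/
instance : Lattice (Quasivariety.{u} L) where
  inf X Y := ⟨X.1 ∩ Y.1, isQuasivariety_inter X.2 Y.2⟩
  sup X Y := ⟨Gen (X.1 ∪ Y.1), _, rfl⟩
  inf_le_left _ _ := Set.inter_subset_left
  inf_le_right _ _ := Set.inter_subset_right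
  le_inf _ _ _ h1 h2 := Set.subset_inter h1 h2
  le_sup_left _ _ := Set.subset_union_left.trans (subset_Mod_Th _)
  le_sup_right _ _ := Set.subset_union_right.trans (subset_Mod_Th _)
  sup_le _ _ Z h1 h2 := Mod_Th_subset Z.2 (Set.union_subset h1 h2)

/-- The lattice `L_q(K)` of all subquasivarieties of the quasivariety `K`. -/
abbrev Lq (K : Quasivariety.{u} L) : Type (max (u + 1) v w) := Set.Iic K

end Pool.Agent.Helper30.QV
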