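import Pool.Agent.Helper30.QVReplica

set_option autoImplicit false

universe u v w x y

namespace Pool.Agent.Helper30.QV

open FirstOrder FirstOrder.Language

/-! ### The target signature -/

inductive F0 : ℕ → Type
  | inf : F0 0
  | sh : F0 1
  | ff : F0 1
  | cons : F0 2
  | mul : F0 2

inductive R0 : ℕ → Type
  | rr : R0 1

/-- The fixed finite signature. -/
def L0 : FirstOrder.Language.{0, 0} := ⟨F0, R0⟩

instance : Finite L0.Symbols := by
  have h1 : Finite (Σ n, L0.Functions n) := by
    apply Finite.of_surjective (α := Fin 5)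
      (fun i => match i with
        | 0 => (⟨0, F0.inf⟩ : Σ n, L0.Functions n)
        | 1 => ⟨1, F0.sh⟩
        | 2 => ⟨1, F0.ff⟩
        | 3 => ⟨2, F0.cons⟩
        | 4 => ⟨2, F0.mul⟩)
    rintro ⟨n, f⟩
    cases f
    · exact ⟨0, rfl⟩
    · exact ⟨1, rfl⟩
    · exact ⟨2, rfl⟩
    · exact ⟨3, rfl⟩
    · exact ⟨4, rfl⟩
  have h2 : Finite (Σ n, L0.Relations n) := by
    apply Finite.of_surjective (α := Fin 1) (fun _ => (⟨1, R0.rr⟩ : Σ n, L0.Relations n))
    rintro ⟨n, r⟩
    cases r
    exact ⟨0, rfl⟩
  exact inferInstanceAs (Finite (_ ⊕ _))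

section ops

variable {B : Type u} [L0.Structure B]

def inf : B := Structure.funMap (L := L0) F0.inf ![]
def sh (x : B) : B := Structure.funMap (L := L0) F0.sh ![x]
def ff (x : B) : B := Structure.funMap (L := L0) F0.ff ![x]
def cons (x y : B) : B := Structure.funMap (L := L0) F0.cons ![x, y]
def mul (x y : B) : B := Structure.funMap (L := L0) F0.mul ![x, y]
def rr (x : B) : Prop := Structure.RelMap (L := L0) R0.rr ![x]

def e (x : B) : B := cons x inf
def shn : ℕ → B → B
  | 0, x => x
  | n + 1, x => shn n (sh x)
def co (i : ℕ) (x : B) : B := e (shn i x)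
def packN : ℕ → (ℕ → B) → B
  | 0, _ => inf
  | n + 1, g => cons (g 0) (packN n (fun i => g (i + 1)))

end ops

section terms

variable {α : Type x}

def tInf : L0.Term α := .func (F0.inf : L0.Functions 0) ![]
def tSh (t : L0.Term α) : L0.Term α := .func (F0.sh : L0.Functions 1) ![t]
def tFf (t : L0.Term α) : L0.Term α := .func (F0.ff : L0.Functions 1) ![t]
def tCons (t s : L0.Term α) : L0.Term α := .func (F0.cons : L0.Functions 2) ![t, s]
def tMul (t s : L0.Term α) : L0.Term α := .func (F0.mul : L0.Functions 2) ![t, s]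
def tRr (t : L0.Term α) : Atom L0 α := .rel (R0.rr : L0.Relations 1) ![t]
def tE (t : L0.Term α) : L0.Term α := tCons t tInf
def tShn : ℕ → L0.Term α → L0.Term α
  | 0, x => x
  | n + 1, x => tShn n (tSh x)
def tCo (i : ℕ) (x : L0.Term α) : L0.Term α := tE (tShn i x)
def tPackN : ℕ → (ℕ → L0.Term α) → L0.Term α
  | 0, _ => tInf
  | n + 1, g => tCons (g 0) (tPackN n (fun i => g (i + 1)))

variable {B : Type u} [L0.Structure B] (a : α → B)

@[simp] lemma r_var (i : α) : (Term.var i : L0.Term α).realize a = a i := rfl

@[simp] lemma r_inf : (tInf : L0.Term α).realize a = inf := by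
  rw [tInf, Term.realize_func, inf]
  congr 1
  funext i; exact i.elim0

@[simp] lemma r_sh (t : L0.Term α) : (tSh t).realize a = sh (t.realize a) := by
  rw [tSh, Term.realize_func, sh]
  congr 1
  funext i
  fin_cases i; rfl

@[simp] lemma r_ff (t : L0.Term α) : (tFf t).realize a = ff (t.realize a) := by
  rw [tFf, Term.realize_func, ff]
  congr 1
  funext i
  fin_cases i; rfl

@[simp] lemma r_cons (t s : L0.Term α) : (tCons t s).realize a = cons (t.realize a) (s.realize a) := by
  rw [tCons, Term.realize_func, cons]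
  congr 1
  funext i
  fin_cases i <;> rfl

@[simp] lemma r_mul (t s : L0.Term α) : (tMul t s).realize a = mul (t.realize a) (s.realize a) := by
  rw [tMul, Term.realize_func, mul]
  congr 1
  funext i
  fin_cases i <;> rfl

@[simp] lemma r_rr (t : L0.Term α) : (tRr t).Realize a ↔ rr (t.realize a) := by
  unfold tRr rr
  change Structure.RelMap (L := L0) R0.rr (fun i => (![t] i).realize a) ↔ _
  have : (fun i => (![t] i).realize a) = ![t.realize a] := by
    funext i
    fin_cases i; rfl
  rw [this]

@[simp] lemma r_eq (t s : L0.Term α) : (Atom.eq t s).Realize a ↔ t.realize a = s.realize a := Iff.rfl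

@[simp] lemma r_e (t : L0.Term α) : (tE t).realize a = e (t.realize a) := by
  rw [tE, r_cons, r_inf, e]

@[simp] lemma r_shn (n : ℕ) (t : L0.Term α) : (tShn n t).realize a = shn n (t.realize a) := by
  induction n generalizing t with
  | zero => rfl
  | succ n ih => rw [tShn, ih, r_sh, shn]

@[simp] lemma r_co (n : ℕ) (t : L0.Term α) : (tCo n t).realize a = co n (t.realize a) := by
  rw [tCo, r_e, r_shn, co]

@[simp] lemma r_packN (n : ℕ) (g : ℕ → L0.Term α) :
    (tPackN n g).realize a = packN n (fun i => (g i).realize a) := by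
  induction n generalizing g with
  | zero => rw [tPackN, r_inf, packN]
  | succ n ih => rw [tPackN, r_cons, ih, packN]

end terms

/-! ### Enumeration data of a finite signature -/

structure Data (L : FirstOrder.Language.{v, w}) where
  s : ℕ
  W : ℕ
  fi : ∀ {n : ℕ}, L.Functions n → ℕ
  ri : ∀ {n : ℕ}, L.Relations n → ℕ
  fi_lt : ∀ {n : ℕ} (f : L.Functions n), fi f < s
  ri_lt : ∀ {n : ℕ} (r : L.Relations n), ri r < s
  fi_inj : ∀ {n m : ℕ} (f : L.Functions n) (g : L.Functions m), fi f = fi g →
    (⟨n, f⟩ : Σ n, L.Functions n) = ⟨m, g⟩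
  ri_inj : ∀ {n m : ℕ} (f : L.Relations n) (g : L.Relations m), ri f = ri g →
    (⟨n, f⟩ : Σ n, L.Relations n) = ⟨m, g⟩
  hF : ∀ {n : ℕ}, L.Functions n → n ≤ W
  hR : ∀ {n : ℕ}, L.Relations n → n ≤ W
  rels : List (Σ n, L.Relations n)
  mem_rels : ∀ {n : ℕ} (r : L.Relations n), (⟨n, r⟩ : Σ n, L.Relations n) ∈ rels

lemma exists_data (L : FirstOrder.Language.{v, w}) (h : Finite L.Symbols) : Nonempty (Data L) := by
  classical
  have hf : Finite (Σ n, L.Functions n) := Finite.of_injective (β := L.Symbols) Sum.inl Sum.inl_injective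
  have hr : Finite (Σ n, L.Relations n) := Finite.of_injective (β := L.Symbols) Sum.inr Sum.inr_injective
  have := Fintype.ofFinite (Σ n, L.Functions n)
  have := Fintype.ofFinite (Σ n, L.Relations n)
  have := Fintype.ofFinite L.Symbols
  let E := Fintype.equivFin L.Symbols
  refine ⟨{
    s := Fintype.card L.Symbols
    W := max (Finset.univ.sup (fun x : Σ n, L.Functions n => x.1))
      (Finset.univ.sup (fun x : Σ n, L.Relations n => x.1))
    fi := fun {n} f => E (Sum.inl ⟨n, f⟩)
    ri := fun {n} r => E (Sum.inr ⟨n, r⟩)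
    fi_lt := fun f => (E _).2
    ri_lt := fun f => (E _).2
    fi_inj := fun f g hfg => Sum.inl_injective (E.injective (Fin.ext hfg))
    ri_inj := fun f g hfg => Sum.inr_injective (E.injective (Fin.ext hfg))
    hF := fun {n} f => le_max_of_le_left
      (Finset.le_sup (f := fun x : Σ n, L.Functions n => x.1) (Finset.mem_univ ⟨n, f⟩))
    hR := fun {n} f => le_max_of_le_right
      (Finset.le_sup (f := fun x : Σ n, L.Relations n => x.1) (Finset.mem_univ ⟨n, f⟩))
    rels := (Finset.univ : Finset (Σ n, L.Relations n)).toList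
    mem_rels := fun r => by simp }⟩

variable {L : FirstOrder.Language.{v, w}} (D : Data L)

def Data.k : ℕ := D.s + D.W + 1

/-- the tuple with `b` at position `j` and `y` at the positions `s, s+1, ...` -/
def tau {B : Type u} [L0.Structure B] (j : ℕ) (b : B) {n : ℕ} (y : Fin n → B) : B :=
  packN D.k (fun i => if i = j then b else
    if h : D.s ≤ i ∧ i - D.s < n then y ⟨i - D.s, h.2⟩ else inf)

def tTau {α : Type x} (j : ℕ) (b : L0.Term α) {n : ℕ} (y : Fin n → L0.Term α) : L0.Term α :=
  tPackN D.k (fun i => if i = j then b else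
    if h : D.s ≤ i ∧ i - D.s < n then y ⟨i - D.s, h.2⟩ else tInf)

@[simp] lemma r_tau {α : Type x} {B : Type u} [L0.Structure B] (a : α → B) (j : ℕ) (b : L0.Term α)
    {n : ℕ} (y : Fin n → L0.Term α) :
    (tTau D j b y).realize a = tau D j (b.realize a) (fun i => (y i).realize a) := by
  rw [tTau, r_packN, tau]
  congr 1
  funext i
  split_ifs <;> simp

/-! ### The properties of encoded systems -/

structure Enc (B : Type u) [L0.Structure B] : Prop where
  co_ge : ∀ i, D.k ≤ i → ∀ x : B, co i x = inf
  e_e : ∀ x : B, e (e x) = e x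
  ext : ∀ x y : B, (∀ i < D.k, co i x = co i y) → x = y
  e_cons : ∀ x y : B, e (cons x y) = e x
  co_cons : ∀ i, i + 1 < D.k → ∀ x y : B, co (i + 1) (cons x y) = co i y
  co_inf : ∀ i, co i (inf : B) = inf
  co_mul : ∀ i (x y : B), co i (mul x y) = mul (co i x) (co i y)
  assoc : ∀ x y z : B, mul (mul x y) z = mul x (mul y z)
  idem : ∀ x : B, mul x x = x
  comm : ∀ x y z : B, mul (mul x y) z = mul (mul x z) y
  mul_inf : ∀ x : B, mul x inf = inf
  inf_mul : ∀ x : B, mul inf x = inf
  F_a : ∀ {n : ℕ} (f : L.Functions n) (x b : B), mul b (co (D.fi f) (ff x)) = b →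
    mul b (co (D.fi f) x) = b
  F_a' : ∀ {n : ℕ} (f : L.Functions n) (x b : B), mul b (co (D.fi f) (ff x)) = b →
    ∀ a : Fin n, mul b (co (D.s + a) x) = b
  F_b : ∀ {n : ℕ} (f : L.Functions n) (x b : B), mul b (co (D.fi f) x) = b →
    (∀ a : Fin n, mul b (co (D.s + a) x) = b) → mul b (co (D.fi f) (ff x)) = b
  F_c : ∀ {n : ℕ} (f : L.Functions n) (x b : B), mul b (co (D.fi f) x) = b →
    (∀ a : Fin n, mul b (co (D.s + a) x) = b) →
    mul (co (D.fi f) (ff x)) b =
      co (D.fi f) (ff (tau D (D.fi f) b (fun a : Fin n => mul (co (D.s + a) x) b)))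
  F_d : ∀ j, (∀ n, ∀ f : L.Functions n, D.fi f ≠ j) → ∀ x : B, co j (ff x) = inf
  R_a : ∀ {n : ℕ} (r : L.Relations n) (x b : B), rr x → mul b (co (D.ri r) x) = b →
    ∀ a : Fin n, mul b (co (D.s + a) x) = b
  R_b : ∀ {n : ℕ} (r : L.Relations n) (x b : B), rr x → mul b (co (D.ri r) x) = b →
    rr (tau D (D.ri r) b (fun a : Fin n => mul (co (D.s + a) x) b))
  R_c : ∀ x : B, (∀ {n : ℕ} (r : L.Relations n),
    (∀ a : Fin n, mul (co (D.ri r) x) (co (D.s + a) x) = co (D.ri r) x) ∧
    rr (tau D (D.ri r) (co (D.ri r) x) (fun a : Fin n => mul (co (D.s + a) x) (co (D.ri r) x)))) →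
    rr x
  R_inf : rr (inf : B)

lemma Enc.of_mem {X : Set (Sys.{u} L0)} (hX : ∀ A ∈ X, Enc D A.carrier) {B : Sys.{u} L0}
    (hB : B ∈ Mod (Th X)) : Enc D B.carrier := by
  have := B.ne
  refine {
    co_ge := fun i hi x => ?_
    e_e := fun x => ?_
    ext := fun x y h => ?_
    e_cons := fun x y => ?_
    co_cons := fun i hi x y => ?_
    co_inf := fun i => ?_
    co_mul := fun i x y => ?_
    assoc := fun x y z => ?_
    idem := fun x => ?_
    comm := fun x y z => ?_
    mul_inf := fun x => ?_
    inf_mul := fun x => ?_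
    F_a := fun {n} f x b h => ?_
    F_a' := fun {n} f x b h a => ?_
    F_b := fun {n} f x b h1 h2 => ?_
    F_c := fun {n} f x b h1 h2 => ?_
    F_d := fun j hj x => ?_
    R_a := fun {n} r x b h1 h2 a => ?_
    R_b := fun {n} r x b h1 h2 => ?_
    R_c := fun x h => ?_
    R_inf := ?_ }
  · simpa using transfer hB [] (.eq (tCo i (.var x)) tInf)
      (fun A hA a _ => by simpa using (hX A hA).co_ge i hi (a x)) id (by simp)
  · simpa using transfer hB [] (.eq (tE (tE (.var x))) (tE (.var x)))
      (fun A hA a _ => by simpa using (hX A hA).e_e (a x)) id (by simp)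
  · have := transfer hB ((List.range D.k).map (fun i => .eq (tCo i (.var x)) (tCo i (.var y))))
      (.eq (.var x) (.var y))
      (fun A hA a ha => (hX A hA).ext (a x) (a y) (by
        intro i hi
        have := ha (.eq (tCo i (.var x)) (tCo i (.var y)))
          (List.mem_map.mpr ⟨i, List.mem_range.mpr hi, rfl⟩)
        simpa using this)) id (by
        intro d hd
        obtain ⟨i, hi, rfl⟩ := List.mem_map.mp hd
        simpa using h i (List.mem_range.mp hi))
    simpa using this
  · simpa using transfer hB [] (.eq (tE (tCons (.var x) (.var y))) (tE (.var x)))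
      (fun A hA a _ => by simpa using (hX A hA).e_cons (a x) (a y)) id (by simp)
  · simpa using transfer hB [] (.eq (tCo (i + 1) (tCons (.var x) (.var y))) (tCo i (.var y)))
      (fun A hA a _ => by simpa using (hX A hA).co_cons i hi (a x) (a y)) id (by simp)
  · simpa using transfer (α := B.carrier) hB [] (.eq (tCo i tInf) tInf)
      (fun A hA a _ => by simpa using (hX A hA).co_inf i) id (by simp)
  · simpa using transfer hB []
      (.eq (tCo i (tMul (.var x) (.var y))) (tMul (tCo i (.var x)) (tCo i (.var y))))
      (fun A hA a _ => by simpa using (hX A hA).co_mul i (a x) (a y)) id (by simp)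
  · simpa using transfer hB []
      (.eq (tMul (tMul (.var x) (.var y)) (.var z)) (tMul (.var x) (tMul (.var y) (.var z))))
      (fun A hA a _ => by simpa using (hX A hA).assoc (a x) (a y) (a z)) id (by simp)
  · simpa using transfer hB [] (.eq (tMul (.var x) (.var x)) (.var x))
      (fun A hA a _ => by simpa using (hX A hA).idem (a x)) id (by simp)
  · simpa using transfer hB []
      (.eq (tMul (tMul (.var x) (.var y)) (.var z)) (tMul (tMul (.var x) (.var z)) (.var y)))
      (fun A hA a _ => by simpa using (hX A hA).comm (a x) (a y) (a z)) id (by simp)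
  · simpa using transfer hB [] (.eq (tMul (.var x) tInf) tInf)
      (fun A hA a _ => by simpa using (hX A hA).mul_inf (a x)) id (by simp)
  · simpa using transfer hB [] (.eq (tMul tInf (.var x)) tInf)
      (fun A hA a _ => by simpa using (hX A hA).inf_mul (a x)) id (by simp)
  · simpa using transfer hB [.eq (tMul (.var b) (tCo (D.fi f) (tFf (.var x)))) (.var b)]
      (.eq (tMul (.var b) (tCo (D.fi f) (.var x))) (.var b))
      (fun A hA a ha => by
        simpa using (hX A hA).F_a f (a x) (a b) (by simpa using ha)) id (by simpa using h)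
  · simpa using transfer hB [.eq (tMul (.var b) (tCo (D.fi f) (tFf (.var x)))) (.var b)]
      (.eq (tMul (.var b) (tCo (D.s + a) (.var x))) (.var b))
      (fun A hA v ha => by
        simpa using (hX A hA).F_a' f (v x) (v b) (by simpa using ha) a) id (by simpa using h)
  · simpa using transfer hB (.eq (tMul (.var b) (tCo (D.fi f) (.var x))) (.var b) ::
      List.ofFn (fun a : Fin n => .eq (tMul (.var b) (tCo (D.s + a) (.var x))) (.var b)))
      (.eq (tMul (.var b) (tCo (D.fi f) (tFf (.var x)))) (.var b))
      (fun A hA v ha => by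
        simpa using (hX A hA).F_b f (v x) (v b) (by
          have := ha _ List.mem_cons_self
          simpa using this) (fun a => by
          have := ha _ (List.mem_cons_of_mem _ ((List.mem_ofFn' _ _).mpr ⟨a, rfl⟩))
          simpa using this)) id (by
        intro d hd
        rcases List.mem_cons.mp hd with rfl | hd
        · simpa using h1
        · obtain ⟨a, rfl⟩ := (List.mem_ofFn' _ _).mp hd
          simpa using h2 a)
  · simpa using transfer hB (.eq (tMul (.var b) (tCo (D.fi f) (.var x))) (.var b) ::
      List.ofFn (fun a : Fin n => .eq (tMul (.var b) (tCo (D.s + a) (.var x))) (.var b)))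
      (.eq (tMul (tCo (D.fi f) (tFf (.var x))) (.var b))
        (tCo (D.fi f) (tFf (tTau D (D.fi f) (.var b)
          (fun a : Fin n => tMul (tCo (D.s + a) (.var x)) (.var b))))))
      (fun A hA v ha => by
        simpa using (hX A hA).F_c f (v x) (v b) (by
          have := ha _ List.mem_cons_self
          simpa using this) (fun a => by
          have := ha _ (List.mem_cons_of_mem _ ((List.mem_ofFn' _ _).mpr ⟨a, rfl⟩))
          simpa using this)) id (by
        intro d hd
        rcases List.mem_cons.mp hd with rfl | hd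
        · simpa using h1
        · obtain ⟨a, rfl⟩ := (List.mem_ofFn' _ _).mp hd
          simpa using h2 a)
  · simpa using transfer hB [] (.eq (tCo j (tFf (.var x))) tInf)
      (fun A hA a _ => by simpa using (hX A hA).F_d j hj (a x)) id (by simp)
  · simpa using transfer hB [tRr (.var x), .eq (tMul (.var b) (tCo (D.ri r) (.var x))) (.var b)]
      (.eq (tMul (.var b) (tCo (D.s + a) (.var x))) (.var b))
      (fun A hA v ha => by
        simp only [List.mem_cons, List.not_mem_nil, or_false, forall_eq_or_imp, forall_eq] at ha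
        simpa using (hX A hA).R_a r (v x) (v b) (by simpa using ha.1) (by simpa using ha.2) a) id
        (by simpa using ⟨h1, h2⟩)
  · simpa using transfer hB [tRr (.var x), .eq (tMul (.var b) (tCo (D.ri r) (.var x))) (.var b)]
      (tRr (tTau D (D.ri r) (.var b) (fun a : Fin n => tMul (tCo (D.s + a) (.var x)) (.var b))))
      (fun A hA v ha => by
        simp only [List.mem_cons, List.not_mem_nil, or_false, forall_eq_or_imp, forall_eq] at ha
        simpa using (hX A hA).R_b r (v x) (v b) (by simpa using ha.1) (by simpa using ha.2)) id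
        (by simpa using ⟨h1, h2⟩)
  · let Dl : List (Atom L0 B.carrier) := D.rels.flatMap (fun r =>
      tRr (tTau D (D.ri r.2) (tCo (D.ri r.2) (.var x))
        (fun a : Fin r.1 => tMul (tCo (D.s + a) (.var x)) (tCo (D.ri r.2) (.var x)))) ::
      List.ofFn (fun a : Fin r.1 =>
        .eq (tMul (tCo (D.ri r.2) (.var x)) (tCo (D.s + a) (.var x))) (tCo (D.ri r.2) (.var x))))
    simpa using transfer hB Dl (tRr (.var x))
      (fun A hA v ha => by
        simpa using (hX A hA).R_c (v x) (by
          intro n r
          constructor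
          · intro a
            have := ha (.eq (tMul (tCo (D.ri r) (.var x)) (tCo (D.s + a) (.var x)))
              (tCo (D.ri r) (.var x))) (by
                apply List.mem_flatMap.mpr
                refine ⟨⟨n, r⟩, D.mem_rels r, List.mem_cons_of_mem _ ?_⟩
                exact (List.mem_ofFn' _ _).mpr ⟨a, rfl⟩)
            simpa using this
          · have := ha (tRr (tTau D (D.ri r) (tCo (D.ri r) (.var x))
              (fun a : Fin n => tMul (tCo (D.s + a) (.var x)) (tCo (D.ri r) (.var x))))) (by
                apply List.mem_flatMap.mpr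
                exact ⟨⟨n, r⟩, D.mem_rels r, List.mem_cons_self⟩)
            simpa using this)) id
        (by
          intro d hd
          obtain ⟨⟨n, r⟩, hr, hd⟩ := List.mem_flatMap.mp hd
          rcases List.mem_cons.mp hd with rfl | hd
          · simpa using (h r).2
          · obtain ⟨a, rfl⟩ := (List.mem_ofFn' _ _).mp hd
            simpa using (h r).1 a)
  · simpa using transfer (α := B.carrier) hB [] (tRr tInf)
      (fun A hA a _ => by simpa using (hX A hA).R_inf) id (by simp)

end Pool.Agent.Helper30.QV
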