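import Pool.Agent.Helper30.QVDecode

set_option autoImplicit false

universe u v w x y

namespace Pool.Agent.Helper30.QV

open FirstOrder FirstOrder.Language

variable {L : FirstOrder.Language.{v, w}} {D : Data L}

/-! ### The homomorphism from an encoded system to the encoding of a component -/

section phi

variable {B : Type u} [L0.Structure B] (H : Enc D B) (b : B) (hb : e b = b) (hne : b ≠ inf)

open Classical in
/-- the coordinates of the map to the encoding of the component at `b` -/
noncomputable def phiV (x : B) (i : ℕ) : Option (Bb H b hb) :=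
  if h : mul b (co i x) = b then some ⟨mul (co i x) b, Bb.mem_of H b hb i h⟩ else none

lemma phiV_eq_none {x : B} {i : ℕ} : phiV H b hb x i = none ↔ ¬ mul b (co i x) = b := by
  unfold phiV
  split_ifs with h <;> simp [h]

lemma phiV_of {x : B} {i : ℕ} (h : mul b (co i x) = b) :
    phiV H b hb x i = some ⟨mul (co i x) b, Bb.mem_of H b hb i h⟩ := dif_pos h

lemma phiV_congr {x y : B} {i j : ℕ} (h : co i x = co j y) :
    phiV H b hb x i = phiV H b hb y j := by
  by_cases h1 : mul b (co i x) = b
  · rw [phiV_of H b hb h1, phiV_of H b hb (h ▸ h1)]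
    congr 2
    rw [h]
  · rw [(phiV_eq_none H b hb).mpr h1, (phiV_eq_none H b hb).mpr (h ▸ h1)]

lemma phiV_eq_some {x : B} {i : ℕ} {y : Bb H b hb} : phiV H b hb x i = some y ↔
    mul b (co i x) = b ∧ y.1 = mul (co i x) b := by
  constructor
  · intro h
    by_cases h1 : mul b (co i x) = b
    · refine ⟨h1, ?_⟩
      rw [phiV_of H b hb h1] at h
      rw [← Option.some.inj h]
    · rw [(phiV_eq_none H b hb).mpr h1] at h
      cases h
  · rintro ⟨h1, h2⟩
    rw [phiV_of H b hb h1]
    congr 1
    exact Subtype.ext h2.symm

include hne in
lemma phiV_inf {x : B} {i : ℕ} (h : co i x = inf) : phiV H b hb x i = none := by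
  rw [phiV_eq_none, h, H.mul_inf]
  exact fun h => hne h.symm

/-- the homomorphism `B → (B_b)*` -/
noncomputable def phi : B →[L0] StarC D (Bb H b hb) where
  toFun x := ⟨fun i => phiV H b hb x i, fun i hi => phiV_inf H b hb hne (H.co_ge i hi x)⟩
  map_fun' {n} f a := by
    cases f with
    | inf =>
      ext1; funext i
      change phiV H b hb (Structure.funMap (L := L0) F0.inf a) i = none
      have : Structure.funMap (L := L0) F0.inf a = (inf : B) := by
        unfold inf
        congr 1
        funext i; exact i.elim0
      rw [this]
      exact phiV_inf H b hb hne (H.co_inf i)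
    | sh =>
      ext1; funext i
      change phiV H b hb (Structure.funMap (L := L0) F0.sh a) i = phiV H b hb (a 0) (i + 1)
      have : Structure.funMap (L := L0) F0.sh a = sh (a 0) := by
        unfold sh
        congr 1
        funext i
        fin_cases i; rfl
      rw [this]
      exact phiV_congr H b hb rfl
    | cons =>
      have h0 : Structure.funMap (L := L0) F0.cons a = cons (a 0) (a 1) := by
        unfold cons
        congr 1
        funext i
        fin_cases i <;> rfl
      ext1; funext i
      cases i with
      | zero =>
        change phiV H b hb (Structure.funMap (L := L0) F0.cons a) 0 = phiV H b hb (a 0) 0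
        rw [h0]
        exact phiV_congr H b hb (H.e_cons _ _)
      | succ i =>
        change phiV H b hb (Structure.funMap (L := L0) F0.cons a) (i + 1) =
          if i + 1 < D.k then phiV H b hb (a 1) i else none
        rw [h0]
        split_ifs with hi
        · exact phiV_congr H b hb (H.co_cons i hi _ _)
        · exact phiV_inf H b hb hne (H.co_ge _ (by omega) _)
    | mul =>
      have h0 : Structure.funMap (L := L0) F0.mul a = mul (a 0) (a 1) := by
        unfold mul
        congr 1
        funext i
        fin_cases i <;> rfl
      ext1; funext i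
      change phiV H b hb (Structure.funMap (L := L0) F0.mul a) i =
        omul (phiV H b hb (a 0) i) (phiV H b hb (a 1) i)
      rw [h0]
      by_cases h2 : mul b (co i (a 1)) = b
      · rw [omul, if_neg (by rw [phiV_eq_none]; exact not_not.mpr h2)]
        by_cases h1 : mul b (co i (a 0)) = b
        · rw [phiV_of H b hb h1, phiV_eq_some]
          rw [H.co_mul, H.mul_below]
          refine ⟨⟨h1, h2⟩, ?_⟩
          rw [H.mul_mul_of_below h2]
        · rw [(phiV_eq_none H b hb).mpr h1, phiV_eq_none, H.co_mul, H.mul_below]
          exact fun h => h1 h.1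
      · rw [omul, if_pos (by rw [phiV_eq_none]; exact h2), phiV_eq_none, H.co_mul, H.mul_below]
        exact fun h => h2 h.2
    | ff =>
      have h0 : Structure.funMap (L := L0) F0.ff a = ff (a 0) := by
        unfold ff
        congr 1
        funext i
        fin_cases i; rfl
      ext1; funext j
      change phiV H b hb (Structure.funMap (L := L0) F0.ff a) j =
        Fv D (fun i => phiV H b hb (a 0) i) j
      rw [h0]
      set x := a 0 with hx
      cases hF : Fv D (fun i => phiV H b hb x i) j with
      | none =>
        rw [phiV_eq_none]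
        intro h
        rw [Fv_eq_none] at hF
        by_cases hj : ∃ n, ∃ f : L.Functions n, D.fi f = j
        · obtain ⟨n, f, rfl⟩ := hj
          have h1 := H.F_a f x b h
          have h2 := H.F_a' f x b h
          apply hF (Structure.funMap f (fun a : Fin n =>
            (⟨mul (co (D.s + a) x) b, Bb.mem_of H b hb _ (h2 a)⟩ : Bb H b hb)))
          rw [FG_iff]
          refine ⟨?_, _, ?_, rfl⟩
          · change phiV H b hb x (D.fi f) ≠ none
            rw [Ne, phiV_eq_none]; exact not_not.mpr h1
          · intro a
            exact phiV_of H b hb (h2 a)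
        · push Not at hj
          rw [H.F_d j hj, H.mul_inf] at h
          exact hne h.symm
      | some y =>
        rw [Fv_eq_some] at hF
        obtain ⟨n, f, v, rfl, hj, hv, rfl⟩ := hF
        have h1 : mul b (co (D.fi f) x) = b := by
          change phiV H b hb x (D.fi f) ≠ none at hj
          rw [Ne, phiV_eq_none] at hj
          exact not_not.mp hj
        have hv' : ∀ a : Fin n, mul b (co (D.s + a) x) = b ∧ (v a).1 = mul (co (D.s + a) x) b := by
          intro a
          have := hv a
          change phiV H b hb x (D.s + a) = some (v a) at this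
          rwa [phiV_eq_some] at this
        rw [phiV_eq_some]
        refine ⟨H.F_b f x b h1 (fun a => (hv' a).1), ?_⟩
        rw [H.F_c f x b h1 (fun a => (hv' a).1), bb_fun]
        congr 2
        apply tau_congr
        intro a
        exact (hv' a).2
  map_rel' {n} r a := by
    cases r with
    | rr =>
      intro hr
      have hr' : rr (a 0) := by
        unfold rr
        convert hr using 1
        funext i
        fin_cases i; rfl
      intro n r hj
      have h1 : mul b (co (D.ri r) (a 0)) = b := by
        change phiV H b hb (a 0) (D.ri r) ≠ none at hj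
        rw [Ne, phiV_eq_none] at hj
        exact not_not.mp hj
      refine ⟨fun c => ⟨mul (co (D.s + c) (a 0)) b,
        Bb.mem_of H b hb _ (H.R_a r (a 0) b hr' h1 c)⟩, ?_, ?_⟩
      · intro c
        exact phiV_of H b hb (H.R_a r (a 0) b hr' h1 c)
      · rw [bb_rel]
        exact H.R_b r (a 0) b hr' h1

lemma phi_v (x : B) (i : ℕ) : (phi H b hb hne x).v i = phiV H b hb x i := rfl

end phi

/-- An encoded system embeds in the product of the encodings of its components. -/
lemma phi_joint {B : Type u} [L0.Structure B] (H : Enc D B) :
    JointRefl (L := L0) (B := B) (I := {b : B // e b = b ∧ b ≠ inf})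
      (C := fun b => StarC D (Bb H b.1 b.2.1)) (fun b => phi H b.1 b.2.1 b.2.2) := by
  constructor
  · intro x y hxy
    apply H.ext
    intro i _
    have key : ∀ (b : B) (hb : e b = b) (hne : b ≠ inf), phiV H b hb x i = phiV H b hb y i := by
      intro b hb hne
      exact congrArg (fun z => z.v i) (hxy ⟨b, hb, hne⟩)
    -- abstract argument for one side
    have aux : ∀ (u w : B), e u = u → u ≠ inf →
        (∀ (b : B) (hb : e b = b) (hne : b ≠ inf),
          (mul b u = b ↔ mul b w = b) ∧ (mul b u = b → mul u b = mul w b)) →
        mul u w = u ∧ mul w u = u := by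
      intro u w hu hu0 h
      have h1 := h u hu hu0
      have h2 := h1.1.mp (H.idem u)
      have h3 := h1.2 (H.idem u)
      rw [H.idem] at h3
      exact ⟨h2, h3.symm⟩
    have key2 : ∀ (b : B) (hb : e b = b) (hne : b ≠ inf),
        (mul b (co i x) = b ↔ mul b (co i y) = b) ∧
        (mul b (co i x) = b → mul (co i x) b = mul (co i y) b) := by
      intro b hb hne
      have h := key b hb hne
      constructor
      · have h1 := phiV_eq_none H b hb (x := x) (i := i)
        have h2 := phiV_eq_none H b hb (x := y) (i := i)
        rw [h] at h1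
        have := h1.symm.trans h2
        exact not_iff_not.mp this
      · intro h1
        rw [phiV_of H b hb h1] at h
        have h2 := (phiV_eq_some H b hb).mp h.symm
        exact h2.2
    by_cases hu : co i x = inf
    · by_cases hw : co i y = inf
      · rw [hu, hw]
      · have := aux (co i y) (co i x) (H.e_co _ _) hw (fun b hb hne =>
          ⟨(key2 b hb hne).1.symm, fun h => ((key2 b hb hne).2 ((key2 b hb hne).1.mpr h)).symm⟩)
        rw [hu, H.mul_inf] at this
        exact absurd this.1.symm hw
    · have h1 := aux (co i x) (co i y) (H.e_co _ _) hu key2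
      have hw : co i y ≠ inf := by
        intro hw
        rw [hw, H.mul_inf] at h1
        exact hu h1.1.symm
      have h2 := aux (co i y) (co i x) (H.e_co _ _) hw (fun b hb hne =>
          ⟨(key2 b hb hne).1.symm, fun h => ((key2 b hb hne).2 ((key2 b hb hne).1.mpr h)).symm⟩)
      rw [← h1.2, h2.1]
  · intro n r a hr
    cases r with
    | rr =>
      have goal : rr (a 0) := by
        apply H.R_c
        intro n r
        set x := a 0 with hx
        by_cases hb0 : co (D.ri r) x = inf
        · rw [hb0]
          refine ⟨fun c => H.inf_mul _, ?_⟩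
          have : tau D (D.ri r) (inf : B) (fun a : Fin n => mul (co (D.s + a) x) inf) = inf := by
            refine Eq.trans ?_ (H.tau_inf (D.ri_lt r) (D.hR r))
            exact tau_congr (fun c => H.mul_inf _)
          rw [this]
          exact H.R_inf
        · set b := co (D.ri r) x with hbdef
          have hb : e b = b := H.e_co _ _
          have h1 := hr ⟨b, hb, hb0⟩ n r (by
            change phiV H b hb x (D.ri r) ≠ none
            rw [Ne, phiV_eq_none, ← hbdef, H.idem]
            exact fun h => h rfl)
          obtain ⟨v, hv, hR⟩ := h1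
          have hv' : ∀ c : Fin n, mul b (co (D.s + c) x) = b ∧ (v c).1 = mul (co (D.s + c) x) b := by
            intro c
            have := hv c
            change phiV H b hb x (D.s + c) = some (v c) at this
            rwa [phiV_eq_some] at this
          refine ⟨fun c => (hv' c).1, ?_⟩
          rw [bb_rel] at hR
          have : tau D (D.ri r) b (fun a : Fin n => mul (co (D.s + a) x) b) =
              tau D (D.ri r) b (fun a => (v a).1) := tau_congr (fun c => (hv' c).2.symm)
          rw [this]
          exact hR
      unfold rr at goal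
      convert goal using 1
      funext i
      fin_cases i; rfl

/-! ### The lattice embedding -/

variable (D)

lemma enc_of_mem {N : Set (Sys.{u} L)} {B : Sys.{u} L0} (hB : B ∈ Gen (starSys D '' N)) :
    Enc D B.carrier := by
  apply Enc.of_mem D (X := starSys D '' N) _ hB
  rintro _ ⟨A, _, rfl⟩
  exact enc_star D A.carrier

lemma star_inter {N1 N2 : Set (Sys.{u} L)} (h1 : IsQuasivariety N1) (h2 : IsQuasivariety N2) :
    Gen (starSys D '' (N1 ∩ N2)) = Gen (starSys D '' N1) ∩ Gen (starSys D '' N2) := by
  apply Set.Subset.antisymm
  · apply Set.subset_inter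
    · exact Mod_Th_subset ⟨_, rfl⟩ ((Set.image_mono Set.inter_subset_left).trans
        (subset_Mod_Th _))
    · exact Mod_Th_subset ⟨_, rfl⟩ ((Set.image_mono Set.inter_subset_right).trans
        (subset_Mod_Th _))
  · rintro B ⟨hB1, hB2⟩ q hq
    have H := enc_of_mem D hB1
    apply (phi_joint H).holds (B := B)
      (C := fun b : {b : B.carrier // e b = b ∧ b ≠ inf} => starSys D (bbSys H b.1 b.2.1)) q
    intro b
    apply hq
    refine ⟨_, ⟨?_, ?_⟩, rfl⟩
    · have : bbSys H b.1 b.2.1 ∈ Gen N1 := fun q hq =>
        bb_holds_of_mem D hB1 H b.1 b.2.1 q hq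
      exact Mod_Th_subset h1 subset_rfl this
    · have : bbSys H b.1 b.2.1 ∈ Gen N2 := fun q hq =>
        bb_holds_of_mem D hB2 H b.1 b.2.1 q hq
      exact Mod_Th_subset h2 subset_rfl this

lemma star_join {N1 N2 : Set (Sys.{u} L)} (h1 : IsQuasivariety N1) (h2 : IsQuasivariety N2) :
    Gen (starSys D '' (Gen (N1 ∪ N2))) =
      Gen (Gen (starSys D '' N1) ∪ Gen (starSys D '' N2)) := by
  apply Set.Subset.antisymm
  · apply Mod_Th_subset ⟨_, rfl⟩
    rintro _ ⟨C, hC, rfl⟩ q hq
    obtain ⟨A, h, hA1, hA2, hJ⟩ := join_embed h1 h2 hC
    apply (starHom_joint D hJ).holds (B := starSys D C) (C := fun i => starSys D (A i)) q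
    intro i
    apply hq
    cases i with
    | true => left; exact subset_Mod_Th _ ⟨_, hA1, rfl⟩
    | false => right; exact subset_Mod_Th _ ⟨_, hA2, rfl⟩
  · apply Mod_Th_subset ⟨_, rfl⟩
    apply Set.union_subset
    · exact Mod_Th_subset ⟨_, rfl⟩ ((Set.image_mono (Set.subset_union_left.trans
        (subset_Mod_Th _))).trans (subset_Mod_Th _))
    · exact Mod_Th_subset ⟨_, rfl⟩ ((Set.image_mono (Set.subset_union_right.trans
        (subset_Mod_Th _))).trans (subset_Mod_Th _))

lemma star_le {N1 N2 : Set (Sys.{u} L)} (h2 : IsQuasivariety N2)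
    (h : Gen (starSys D '' N1) ⊆ Gen (starSys D '' N2)) : N1 ⊆ N2 := by
  intro A hA
  have hB : starSys D A ∈ Gen (starSys D '' N2) := h (subset_Mod_Th _ ⟨A, hA, rfl⟩)
  have : A ∈ Gen N2 := by
    intro q hq
    obtain ⟨c⟩ := A.ne
    exact holds_of_star_bb A q c
      (bb_holds_of_mem D hB (enc_star D A.carrier) (single D c) (e_single c) q hq)
  exact Mod_Th_subset h2 subset_rfl this

/-- The class of all systems, as a quasivariety. -/
def allSys (L : FirstOrder.Language.{v, w}) : Quasivariety.{u} L := ⟨Mod ∅, ∅, rfl⟩

lemma le_allSys (X : Quasivariety.{u} L) : X ≤ allSys L := fun _ _ _ hq => hq.elim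

/-- The embedding of the lattice of subquasivarieties. -/
noncomputable def starLattice (M : Quasivariety.{u} L) : LatticeHom (Lq M) (Lq (allSys.{u} L0)) where
  toFun N := ⟨⟨Gen (starSys D '' N.1.1), _, rfl⟩, le_allSys _⟩
  map_sup' X Y := by
    apply Subtype.ext
    apply Subtype.ext
    exact star_join D X.1.2 Y.1.2
  map_inf' X Y := by
    apply Subtype.ext
    apply Subtype.ext
    exact star_inter D X.1.2 Y.1.2

lemma starLattice_injective (M : Quasivariety.{u} L) : Function.Injective (starLattice D M) := by
  intro X Y h
  have h1 : Gen (starSys D '' X.1.1) = Gen (starSys D '' Y.1.1) :=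
    congrArg (fun Z : Lq (allSys.{u} L0) => Z.1.1) h
  apply Subtype.ext
  apply Subtype.ext
  exact Set.Subset.antisymm (star_le D Y.1.2 h1.subset) (star_le D X.1.2 h1.symm.subset)

theorem main : ∃ K : Quasivariety.{u} L0, (∀ A : Sys.{u} L0, A ∈ K.1) ∧
    ∀ (L : FirstOrder.Language.{v, w}), Finite L.Symbols →
    ∀ M : Quasivariety.{u} L, ∃ f : LatticeHom (Lq M) (Lq K), Function.Injective f := by
  refine ⟨allSys L0, fun _ _ hq => hq.elim, fun L hL M => ?_⟩
  obtain ⟨D⟩ := exists_data L hL
  exact ⟨starLattice D M, starLattice_injective D M⟩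

end Pool.Agent.Helper30.QV
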