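import Pool.Agent.Helper30.QVDefs

set_option autoImplicit false

universe u v w x y

namespace Pool.Agent.Helper30.QV

open FirstOrder FirstOrder.Language

variable {L : FirstOrder.Language.{v, w}}

/-! ### Homomorphisms and joint reflection -/

lemma Atom.realize_hom {α : Type x} {A : Type u} {B : Type y} [L.Structure A] [L.Structure B]
    (h : A →[L] B) (a : α → A) (p : Atom L α) (hp : p.Realize a) : p.Realize (h ∘ a) := by
  cases p with
  | eq t s =>
    change t.realize a = s.realize a at hp
    change t.realize (h ∘ a) = s.realize (h ∘ a)
    rw [HomClass.realize_term, HomClass.realize_term, hp]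
  | rel r ts =>
    change Structure.RelMap r (fun i => (ts i).realize a) at hp
    change Structure.RelMap r (fun i => (ts i).realize (h ∘ a))
    have := h.map_rel r _ hp
    convert this using 1
    funext i
    simp only [Function.comp_apply]
    rw [HomClass.realize_term]

/-- A family of homomorphisms out of `B` that jointly reflects equality and all relations. -/
structure JointRefl {B : Type u} [L.Structure B] {I : Type x} {C : I → Type y}
    [∀ i, L.Structure (C i)] (h : ∀ i, B →[L] C i) : Prop where
  inj : ∀ a b : B, (∀ i, h i a = h i b) → a = b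
  rel : ∀ {n : ℕ} (r : L.Relations n) (a : Fin n → B),
    (∀ i, Structure.RelMap r (h i ∘ a)) → Structure.RelMap r a

lemma JointRefl.realize {B : Type u} [L.Structure B] {I : Type x} {C : I → Type y}
    [∀ i, L.Structure (C i)] {h : ∀ i, B →[L] C i} (H : JointRefl h) {α : Type*} (a : α → B)
    (p : Atom L α) (hp : ∀ i, p.Realize (h i ∘ a)) : p.Realize a := by
  cases p with
  | eq t s =>
    apply H.inj
    intro i
    have := hp i
    change t.realize (h i ∘ a) = s.realize (h i ∘ a) at this
    rwa [HomClass.realize_term, HomClass.realize_term] at this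
  | rel r ts =>
    apply H.rel
    intro i
    have := hp i
    change Structure.RelMap r (fun j => (ts j).realize (h i ∘ a)) at this
    convert this using 1
    funext j
    simp only [Function.comp_apply]
    rw [HomClass.realize_term]

lemma JointRefl.holds {B : Sys.{u} L} {I : Type x} {C : I → Sys.{y} L}
    {h : ∀ i, B.carrier →[L] (C i).carrier} (H : JointRefl h) (q : QuasiIdentity L)
    (hq : ∀ i, Holds (C i) q) : Holds B q := by
  intro a ha
  apply H.realize
  intro i
  apply hq i
  intro p hp
  exact Atom.realize_hom (h i) a p (ha p hp)

/-! ### Relabelling and finite support of atoms -/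

def Atom.relabel {α : Type x} {β : Type y} (g : α → β) : Atom L α → Atom L β
  | .eq t s => .eq (t.relabel g) (s.relabel g)
  | .rel r ts => .rel r (fun i => (ts i).relabel g)

lemma Atom.realize_relabel {α : Type x} {β : Type y} {A : Type u} [L.Structure A] (g : α → β)
    (a : β → A) (p : Atom L α) : (p.relabel g).Realize a ↔ p.Realize (a ∘ g) := by
  cases p with
  | eq t s =>
    change (t.relabel g).realize a = (s.relabel g).realize a ↔ t.realize (a ∘ g) = s.realize (a ∘ g)
    rw [Term.realize_relabel, Term.realize_relabel]
  | rel r ts =>
    change Structure.RelMap r (fun i => ((ts i).relabel g).realize a) ↔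
      Structure.RelMap r (fun i => (ts i).realize (a ∘ g))
    simp only [Term.realize_relabel]

lemma term_support {α : Type x} (t : L.Term α) : ∃ S : Finset α, ∀ {A : Type u} [L.Structure A]
    (a b : α → A), (∀ c ∈ S, a c = b c) → t.realize a = t.realize b := by
  classical
  induction t with
  | var i => exact ⟨{i}, fun a b h => h i (Finset.mem_singleton_self i)⟩
  | func f ts ih =>
    choose S hS using ih
    refine ⟨Finset.univ.biUnion S, fun a b h => ?_⟩
    rw [Term.realize_func, Term.realize_func]
    congr 1
    funext i
    apply hS
    intro c hc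
    exact h c (Finset.mem_biUnion.mpr ⟨i, Finset.mem_univ i, hc⟩)

lemma atom_support {α : Type x} (p : Atom L α) : ∃ S : Finset α, ∀ {A : Type u} [L.Structure A]
    (a b : α → A), (∀ c ∈ S, a c = b c) → (p.Realize a ↔ p.Realize b) := by
  classical
  cases p with
  | eq t s =>
    obtain ⟨S, hS⟩ := term_support.{u} t
    obtain ⟨T, hT⟩ := term_support.{u} s
    refine ⟨S ∪ T, fun a b h => ?_⟩
    change t.realize a = s.realize a ↔ t.realize b = s.realize b
    rw [hS a b (fun c hc => h c (Finset.mem_union_left _ hc)),
      hT a b (fun c hc => h c (Finset.mem_union_right _ hc))]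
  | rel r ts =>
    choose S hS using fun i => term_support.{u} (ts i)
    refine ⟨Finset.univ.biUnion S, fun a b h => ?_⟩
    change Structure.RelMap r (fun i => (ts i).realize a) ↔
      Structure.RelMap r (fun i => (ts i).realize b)
    have : (fun i => (ts i).realize a) = (fun i => (ts i).realize b) := by
      funext i
      exact hS i a b (fun c hc => h c (Finset.mem_biUnion.mpr ⟨i, Finset.mem_univ i, hc⟩))
    rw [this]

lemma list_support {α : Type x} (l : List (Atom L α)) : ∃ S : Finset α,
    ∀ {A : Type u} [L.Structure A] (a b : α → A), (∀ c ∈ S, a c = b c) →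
      ((∀ p ∈ l, p.Realize a) ↔ (∀ p ∈ l, p.Realize b)) := by
  classical
  induction l with
  | nil => exact ⟨∅, fun a b _ => by simp⟩
  | cons p l ih =>
    obtain ⟨S, hS⟩ := ih
    obtain ⟨T, hT⟩ := atom_support.{u} p
    refine ⟨S ∪ T, fun a b h => ?_⟩
    rw [List.forall_mem_cons, List.forall_mem_cons,
      hS a b (fun c hc => h c (Finset.mem_union_left _ hc)),
      hT a b (fun c hc => h c (Finset.mem_union_right _ hc))]

/-- An implication with variables in an arbitrary nonempty type is equivalent to a quasi-identity. -/
lemma exists_qi {α : Type x} [Nonempty α] (D : List (Atom L α)) (p : Atom L α) :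
    ∃ q : QuasiIdentity L, ∀ A : Sys.{u} L, Holds A q ↔
      ∀ a : α → A.carrier, (∀ d ∈ D, d.Realize a) → p.Realize a := by
  classical
  obtain ⟨S, hS⟩ := list_support.{u} (L := L) D
  obtain ⟨T, hT⟩ := atom_support.{u} (L := L) p
  obtain ⟨c0⟩ := ‹Nonempty α›
  let U : Finset α := insert c0 (S ∪ T)
  let e := U.equivFin
  let g : α → Fin U.card := fun c => if h : c ∈ U then e ⟨c, h⟩ else e ⟨c0, Finset.mem_insert_self _ _⟩
  let h : Fin U.card → α := fun i => (e.symm i : α)
  have hgh : ∀ c ∈ U, h (g c) = c := by
    intro c hc
    simp only [g, h, dif_pos hc, Equiv.symm_apply_apply]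
  refine ⟨⟨U.card, D.map (Atom.relabel g), p.relabel g⟩, fun A => ⟨fun H a ha => ?_, fun H a ha => ?_⟩⟩
  · have h1 := H (a ∘ h) (by
      intro q hq
      obtain ⟨d, hd, rfl⟩ := List.mem_map.mp hq
      rw [Atom.realize_relabel]
      have := (hS a ((a ∘ h) ∘ g) (by
        intro c hc
        simp only [Function.comp_apply]
        rw [hgh c (Finset.mem_insert_of_mem (Finset.mem_union_left _ hc))])).mp ha
      exact this d hd)
    change (p.relabel g).Realize (a ∘ h) at h1
    rw [Atom.realize_relabel] at h1
    exact (hT a ((a ∘ h) ∘ g) (by
        intro c hc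
        simp only [Function.comp_apply]
        rw [hgh c (Finset.mem_insert_of_mem (Finset.mem_union_right _ hc))])).mpr h1
  · change (p.relabel g).Realize a
    rw [Atom.realize_relabel]
    apply H
    intro d hd
    rw [← Atom.realize_relabel]
    exact ha _ (List.mem_map.mpr ⟨d, hd, rfl⟩)

/-- transfer of implications from a class to the generated quasivariety -/
lemma transfer {α : Type x} [Nonempty α] {X : Set (Sys.{u} L)} {B : Sys.{u} L}
    (hB : B ∈ Mod (Th X)) (D : List (Atom L α)) (p : Atom L α)
    (h : ∀ A ∈ X, ∀ a : α → A.carrier, (∀ d ∈ D, d.Realize a) → p.Realize a) :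
    ∀ a : α → B.carrier, (∀ d ∈ D, d.Realize a) → p.Realize a := by
  obtain ⟨q, hq⟩ := exists_qi.{u} D p
  rw [← hq]
  apply hB
  intro A hA
  rw [hq]
  exact h A hA

/-! ### Replicas -/

section replica

variable (X : Set (Sys.{u} L)) (C : Sys.{u} L)

/-- `p` follows in the class `X` from finitely many facts true in `C`. -/
def Conseq (p : Atom L C.carrier) : Prop :=
  ∃ D : List (Atom L C.carrier), (∀ d ∈ D, d.Realize id) ∧
    ∀ A ∈ X, ∀ a : C.carrier → A.carrier, (∀ d ∈ D, d.Realize a) → p.Realize a

lemma Conseq.self {p : Atom L C.carrier} (hp : p.Realize id) : Conseq X C p :=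
  ⟨[p], by simpa using hp, fun A _ a h => h p (by simp)⟩

lemma Conseq.mono {l : List (Atom L C.carrier)} (hl : ∀ d ∈ l, Conseq X C d)
    {p : Atom L C.carrier} (h : ∀ A ∈ X, ∀ a : C.carrier → A.carrier,
      (∀ d ∈ l, d.Realize a) → p.Realize a) : Conseq X C p := by
  have : ∃ D : List (Atom L C.carrier), (∀ d ∈ D, d.Realize id) ∧
    ∀ A ∈ X, ∀ a : C.carrier → A.carrier, (∀ d ∈ D, d.Realize a) → ∀ d ∈ l, d.Realize a := by
    clear h
    induction l with
    | nil => exact ⟨[], by simp, fun A _ a _ => by simp⟩
    | cons d l ih =>
      obtain ⟨D, hD1, hD2⟩ := ih (fun d' hd' => hl d' (List.mem_cons_of_mem _ hd'))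
      obtain ⟨E, hE1, hE2⟩ := hl d List.mem_cons_self
      refine ⟨D ++ E, ?_, ?_⟩
      · intro d' hd'
        rcases List.mem_append.mp hd' with h | h
        · exact hD1 d' h
        · exact hE1 d' h
      · intro A hA a ha
        rw [List.forall_mem_cons]
        exact ⟨hE2 A hA a (fun d' hd' => ha d' (List.mem_append_right _ hd')),
          hD2 A hA a (fun d' hd' => ha d' (List.mem_append_left _ hd'))⟩
  obtain ⟨D, hD1, hD2⟩ := this
  exact ⟨D, hD1, fun A hA a ha => h A hA a (hD2 A hA a ha)⟩

/-- the congruence of the replica -/
def repSetoid : Setoid C.carrier where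
  r a b := Conseq X C (.eq (.var a) (.var b))
  iseqv := by
    refine ⟨fun a => ?_, fun {a b} h => ?_, fun {a b c} h1 h2 => ?_⟩
    · exact Conseq.self X C rfl
    · apply Conseq.mono X C (l := [.eq (.var a) (.var b)]) (by simpa using h)
      intro A _ v hv
      have := hv _ List.mem_cons_self
      exact this.symm
    · apply Conseq.mono X C (l := [.eq (.var a) (.var b), .eq (.var b) (.var c)])
        (by simpa using ⟨h1, h2⟩)
      intro A _ v hv
      have e1 := hv (.eq (.var a) (.var b)) (by simp)
      have e2 := hv (.eq (.var b) (.var c)) (by simp)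
      exact Eq.trans e1 e2

/-- carrier of the replica -/
def Rep : Type u := Quotient (repSetoid X C)

instance : Nonempty (Rep X C) := ⟨Quotient.mk _ (Classical.choice C.ne)⟩

def repMk (c : C.carrier) : Rep X C := Quotient.mk _ c

lemma repMk_eq {a b : C.carrier} : repMk X C a = repMk X C b ↔ Conseq X C (.eq (.var a) (.var b)) :=
  Quotient.eq (r := repSetoid X C)

noncomputable def repOut (c : Rep X C) : C.carrier := Quotient.out c

lemma repMk_out (c : Rep X C) : repMk X C (repOut X C c) = c := Quotient.out_eq c

noncomputable instance : L.Structure (Rep X C) where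
  funMap f a := repMk X C (Structure.funMap f (fun i => repOut X C (a i)))
  RelMap r a := Conseq X C (.rel r (fun i => .var (repOut X C (a i))))

lemma rep_fun {n : ℕ} (f : L.Functions n) (a : Fin n → C.carrier) :
    Structure.funMap f (fun i => repMk X C (a i)) = repMk X C (Structure.funMap f a) := by
  change repMk X C (Structure.funMap f (fun i => repOut X C (repMk X C (a i)))) = _
  set b : Fin n → C.carrier := fun i => repOut X C (repMk X C (a i)) with hb
  have hba : ∀ i, Conseq X C (.eq (.var (b i)) (.var (a i))) := by
    intro i
    rw [← repMk_eq, hb, repMk_out]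
  rw [repMk_eq]
  apply Conseq.mono X C (l := [.eq (.func f (fun i => .var (b i))) (.var (Structure.funMap f b)),
    .eq (.func f (fun i => .var (a i))) (.var (Structure.funMap f a))] ++
    List.ofFn (fun i => Atom.eq (.var (b i)) (.var (a i))))
  · intro d hd
    rcases List.mem_append.mp hd with hd | hd
    · rcases List.mem_cons.mp hd with rfl | hd
      · exact Conseq.self X C rfl
      · rw [List.mem_singleton] at hd
        subst hd
        exact Conseq.self X C rfl
    · obtain ⟨i, rfl⟩ := (List.mem_ofFn' _ _).mp hd
      exact hba i
  · intro A _ v hv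
    have e1 : Structure.funMap f (fun i => v (b i)) = v (Structure.funMap f b) :=
      hv (.eq (.func f (fun i => .var (b i))) (.var (Structure.funMap f b))) (by simp)
    have e2 : Structure.funMap f (fun i => v (a i)) = v (Structure.funMap f a) :=
      hv (.eq (.func f (fun i => .var (a i))) (.var (Structure.funMap f a))) (by simp)
    have e3 : ∀ i, v (b i) = v (a i) := fun i =>
      hv (.eq (.var (b i)) (.var (a i))) (List.mem_append_right _ ((List.mem_ofFn' _ _).mpr ⟨i, rfl⟩))
    change v (Structure.funMap f b) = v (Structure.funMap f a)
    rw [← e1, ← e2]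
    congr 1
    funext i
    exact e3 i

lemma rep_rel {n : ℕ} (r : L.Relations n) (a : Fin n → C.carrier) :
    Structure.RelMap r (fun i => repMk X C (a i)) ↔ Conseq X C (.rel r (fun i => .var (a i))) := by
  change Conseq X C (.rel r (fun i => .var (repOut X C (repMk X C (a i))))) ↔ _
  set b : Fin n → C.carrier := fun i => repOut X C (repMk X C (a i)) with hb
  have hba : ∀ i, Conseq X C (.eq (.var (b i)) (.var (a i))) := by
    intro i
    rw [← repMk_eq, hb, repMk_out]
  have key : ∀ (b a : Fin n → C.carrier), (∀ i, Conseq X C (.eq (.var (b i)) (.var (a i)))) →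
      Conseq X C (.rel r (fun i => .var (b i))) → Conseq X C (.rel r (fun i => .var (a i))) := by
    intro b a hba hr
    apply Conseq.mono X C (l := [.rel r (fun i => .var (b i))] ++
      List.ofFn (fun i => Atom.eq (.var (b i)) (.var (a i))))
    · intro d hd
      rcases List.mem_append.mp hd with hd | hd
      · rw [List.mem_singleton] at hd
        subst hd
        exact hr
      · obtain ⟨i, rfl⟩ := (List.mem_ofFn' _ _).mp hd
        exact hba i
    · intro A _ v hv
      have e1 : Structure.RelMap r (fun i => v (b i)) :=
        hv (.rel r (fun i => .var (b i))) (by simp)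
      have e3 : ∀ i, v (b i) = v (a i) := fun i =>
        hv (.eq (.var (b i)) (.var (a i)))
          (List.mem_append_right _ ((List.mem_ofFn' _ _).mpr ⟨i, rfl⟩))
      change Structure.RelMap r (fun i => v (a i))
      have : (fun i => v (a i)) = (fun i => v (b i)) := funext fun i => (e3 i).symm
      rw [this]
      exact e1
  constructor
  · exact key b a hba
  · apply key a b
    intro i
    have := hba i
    rw [← repMk_eq] at this ⊢
    exact this.symm

/-- The canonical homomorphism to the replica. -/
def repHom : C.carrier →[L] Rep X C where
  toFun := repMk X C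
  map_fun' f a := (rep_fun X C f a).symm
  map_rel' r a h := by
    have := (rep_rel X C r a).mpr (Conseq.self X C h)
    exact this

lemma rep_term {α : Type x} (t : L.Term α) (a : α → C.carrier) :
    t.realize (fun i => repMk X C (a i)) = repMk X C (t.realize a) := by
  have := HomClass.realize_term (repHom X C) (t := t) (v := a)
  exact this

lemma rep_atom {α : Type x} (p : Atom L α) (a : α → C.carrier) :
    p.Realize (fun i => repMk X C (a i)) ↔ Conseq X C (p.relabel a) := by
  cases p with
  | eq t s =>
    change t.realize (fun i => repMk X C (a i)) = s.realize (fun i => repMk X C (a i)) ↔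
      Conseq X C (.eq (t.relabel a) (s.relabel a))
    rw [rep_term, rep_term, repMk_eq]
    have hl : ∀ t : L.Term α, Conseq X C (.eq (t.relabel a) (.var (t.realize a))) := fun t =>
      Conseq.self X C (by
        change (t.relabel a).realize id = t.realize a
        rw [Term.realize_relabel]; rfl)
    constructor
    · intro h
      apply Conseq.mono X C (l := [.eq (t.relabel a) (.var (t.realize a)),
        .eq (s.relabel a) (.var (s.realize a)), .eq (.var (t.realize a)) (.var (s.realize a))])
        (by simpa using ⟨hl t, hl s, h⟩)
      intro A _ v hv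
      have e1 := hv (.eq (t.relabel a) (.var (t.realize a))) (by simp)
      have e2 := hv (.eq (s.relabel a) (.var (s.realize a))) (by simp)
      have e3 := hv (.eq (.var (t.realize a)) (.var (s.realize a))) (by simp)
      change (t.relabel a).realize v = v _ at e1
      change (s.relabel a).realize v = v _ at e2
      change v _ = v _ at e3
      change (t.relabel a).realize v = (s.relabel a).realize v
      rw [e1, e2, e3]
    · intro h
      apply Conseq.mono X C (l := [.eq (t.relabel a) (.var (t.realize a)),
        .eq (s.relabel a) (.var (s.realize a)), .eq (t.relabel a) (s.relabel a)])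
        (by simpa using ⟨hl t, hl s, h⟩)
      intro A _ v hv
      have e1 := hv (.eq (t.relabel a) (.var (t.realize a))) (by simp)
      have e2 := hv (.eq (s.relabel a) (.var (s.realize a))) (by simp)
      have e3 := hv (.eq (t.relabel a) (s.relabel a)) (by simp)
      change (t.relabel a).realize v = v _ at e1
      change (s.relabel a).realize v = v _ at e2
      change (t.relabel a).realize v = (s.relabel a).realize v at e3
      change v _ = v _
      rw [← e1, ← e2, e3]
  | rel r ts =>
    change Structure.RelMap r (fun i => (ts i).realize (fun i => repMk X C (a i))) ↔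
      Conseq X C (.rel r (fun i => (ts i).relabel a))
    simp only [rep_term]
    rw [rep_rel]
    have hl : ∀ t : L.Term α, Conseq X C (.eq (t.relabel a) (.var (t.realize a))) := fun t =>
      Conseq.self X C (by
        change (t.relabel a).realize id = t.realize a
        rw [Term.realize_relabel]; rfl)
    constructor
    · intro h
      apply Conseq.mono X C (l := [.rel r (fun i => .var ((ts i).realize a))] ++
        List.ofFn (fun i => Atom.eq ((ts i).relabel a) (.var ((ts i).realize a))))
      · intro d hd
        rcases List.mem_append.mp hd with hd | hd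
        · rw [List.mem_singleton] at hd
          subst hd
          exact h
        · obtain ⟨i, rfl⟩ := (List.mem_ofFn' _ _).mp hd
          exact hl _
      · intro A _ v hv
        have e1 : Structure.RelMap r (fun i => v ((ts i).realize a)) :=
          hv (.rel r (fun i => .var ((ts i).realize a))) (by simp)
        have e3 : ∀ i, ((ts i).relabel a).realize v = v ((ts i).realize a) := fun i =>
          hv (.eq ((ts i).relabel a) (.var ((ts i).realize a)))
            (List.mem_append_right _ ((List.mem_ofFn' _ _).mpr ⟨i, rfl⟩))
        change Structure.RelMap r (fun i => ((ts i).relabel a).realize v)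
        simp only [e3]
        exact e1
    · intro h
      apply Conseq.mono X C (l := [.rel r (fun i => (ts i).relabel a)] ++
        List.ofFn (fun i => Atom.eq ((ts i).relabel a) (.var ((ts i).realize a))))
      · intro d hd
        rcases List.mem_append.mp hd with hd | hd
        · rw [List.mem_singleton] at hd
          subst hd
          exact h
        · obtain ⟨i, rfl⟩ := (List.mem_ofFn' _ _).mp hd
          exact hl _
      · intro A _ v hv
        have e1 : Structure.RelMap r (fun i => ((ts i).relabel a).realize v) :=
          hv (.rel r (fun i => (ts i).relabel a)) (by simp)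
        have e3 : ∀ i, ((ts i).relabel a).realize v = v ((ts i).realize a) := fun i =>
          hv (.eq ((ts i).relabel a) (.var ((ts i).realize a)))
            (List.mem_append_right _ ((List.mem_ofFn' _ _).mpr ⟨i, rfl⟩))
        change Structure.RelMap r (fun i => v ((ts i).realize a))
        simp only [← e3]
        exact e1

/-- the replica as a system -/
noncomputable def RepSys : Sys.{u} L := ⟨Rep X C⟩

lemma RepSys_mem (hX : IsQuasivariety X) : RepSys X C ∈ X := by
  have H : RepSys X C ∈ Mod (Th X) := by
    intro q hq (a : Fin q.n → Rep X C) ha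
    -- lift the assignment
    set b : Fin q.n → C.carrier := fun i => repOut X C (a i) with hb
    have ha' : a = fun i => repMk X C (b i) := by
      funext i; exact (repMk_out X C _).symm
    have hc : Conseq X C (q.concl.relabel b) := by
      apply Conseq.mono X C (l := q.prem.map (Atom.relabel b))
      · intro d hd
        obtain ⟨p, hp, rfl⟩ := List.mem_map.mp hd
        rw [← rep_atom]
        have : Atom.Realize (A := Rep X C) a p := ha p hp
        rwa [ha'] at this
      · intro A hA v hv
        rw [Atom.realize_relabel]
        apply hq A hA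
        intro p hp
        rw [← Atom.realize_relabel]
        exact hv _ (List.mem_map.mpr ⟨p, hp, rfl⟩)
    rw [← rep_atom, ← ha'] at hc
    exact hc
  have := hX.eq
  rw [Set.ext_iff] at this
  exact (this _).mp H

end replica

/-- Every member of the join of two quasivarieties embeds in a product of one member of each. -/
lemma join_embed {X Y : Set (Sys.{u} L)} (hX : IsQuasivariety X) (hY : IsQuasivariety Y)
    {C : Sys.{u} L} (hC : C ∈ Mod (Th (X ∪ Y))) :
    ∃ (A : Bool → Sys.{u} L) (h : ∀ i, C.carrier →[L] (A i).carrier),
      A true ∈ X ∧ A false ∈ Y ∧ JointRefl h := by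
  refine ⟨fun i => match i with | true => RepSys X C | false => RepSys Y C,
    fun i => match i with | true => repHom X C | false => repHom Y C,
    RepSys_mem X C hX, RepSys_mem Y C hY, ?_⟩
  have key : ∀ p : Atom L C.carrier, Conseq X C p → Conseq Y C p → p.Realize id := by
    rintro p ⟨D, hD1, hD2⟩ ⟨E, hE1, hE2⟩
    have := C.ne
    apply transfer hC (D ++ E) p
    · intro A hA a ha
      rcases hA with hA | hA
      · exact hD2 A hA a (fun d hd => ha d (List.mem_append_left _ hd))
      · exact hE2 A hA a (fun d hd => ha d (List.mem_append_right _ hd))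
    · intro d hd
      rcases List.mem_append.mp hd with hd | hd
      · exact hD1 d hd
      · exact hE1 d hd
  constructor
  · intro a b hab
    have h1 : repMk X C a = repMk X C b := hab true
    have h2 : repMk Y C a = repMk Y C b := hab false
    rw [repMk_eq] at h1 h2
    exact key _ h1 h2
  · intro n r a hr
    have h1 : Structure.RelMap r (fun i => repMk X C (a i)) := hr true
    have h2 : Structure.RelMap r (fun i => repMk Y C (a i)) := hr false
    rw [rep_rel] at h1 h2
    exact key _ h1 h2

end Pool.Agent.Helper30.QV
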