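import Pool.Agent.Helper30.QVEnc

set_option autoImplicit false

universe u v w x y

namespace Pool.Agent.Helper30.QV

open FirstOrder FirstOrder.Language

variable {L : FirstOrder.Language.{v, w}} (D : Data L)

/-! ### The encoding of a system -/

section star

variable (A : Type u) [L.Structure A]

/-- tuples (finitely many entries) of elements of `A` or the extra element `none` -/
@[ext] structure StarC : Type u where
  v : ℕ → Option A
  hv : ∀ i, D.k ≤ i → v i = none

variable {A}

/-- graph of the coordinatewise application of all basic operations -/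
def FG (x : ℕ → Option A) (j : ℕ) (y : A) : Prop :=
  ∃ (n : ℕ) (f : L.Functions n) (v : Fin n → A), D.fi f = j ∧ x j ≠ none ∧
    (∀ a : Fin n, x (D.s + a) = some (v a)) ∧ y = Structure.funMap f v

lemma FG_unique {x : ℕ → Option A} {j : ℕ} {y z : A} (h1 : FG D x j y) (h2 : FG D x j z) :
    y = z := by
  obtain ⟨n, f, v, rfl, _, hv, rfl⟩ := h1
  obtain ⟨m, g, v', hfg, _, hv', rfl⟩ := h2
  have := D.fi_inj g f hfg
  rw [Sigma.mk.injEq] at this
  obtain ⟨rfl, hg⟩ := this
  rw [heq_eq_eq] at hg
  subst hg
  congr 1
  funext a
  have := (hv a).symm.trans (hv' a)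
  exact Option.some.inj this

open Classical in
noncomputable def Fv (x : ℕ → Option A) (j : ℕ) : Option A :=
  if h : ∃ y, FG D x j y then some (Classical.choose h) else none

lemma Fv_eq_some {x : ℕ → Option A} {j : ℕ} {y : A} : Fv D x j = some y ↔ FG D x j y := by
  classical
  unfold Fv
  split_ifs with h
  · rw [Option.some.injEq]
    constructor
    · rintro rfl; exact Classical.choose_spec h
    · intro hy; exact FG_unique D (Classical.choose_spec h) hy
  · constructor
    · intro h'; cases h'
    · intro hy; exact absurd ⟨y, hy⟩ h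

lemma Fv_eq_none {x : ℕ → Option A} {j : ℕ} : Fv D x j = none ↔ ∀ y, ¬ FG D x j y := by
  constructor
  · intro h y hy
    rw [← Fv_eq_some, h] at hy
    cases hy
  · intro h
    cases hF : Fv D x j with
    | none => rfl
    | some y => exact absurd ((Fv_eq_some D).mp hF) (h y)

lemma FG_iff {x : ℕ → Option A} {n : ℕ} (f : L.Functions n) {y : A} :
    FG D x (D.fi f) y ↔ x (D.fi f) ≠ none ∧ ∃ v : Fin n → A,
      (∀ a : Fin n, x (D.s + a) = some (v a)) ∧ y = Structure.funMap f v := by
  constructor
  · rintro ⟨m, g, v, hfg, hx, hv, rfl⟩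
    have := D.fi_inj g f hfg
    rw [Sigma.mk.injEq] at this
    obtain ⟨rfl, hg⟩ := this
    rw [heq_eq_eq] at hg
    subst hg
    exact ⟨hx, v, hv, rfl⟩
  · rintro ⟨hx, v, hv, rfl⟩
    exact ⟨n, f, v, rfl, hx, hv, rfl⟩

def Rv (x : ℕ → Option A) : Prop :=
  ∀ (n : ℕ) (r : L.Relations n), x (D.ri r) ≠ none → ∃ v : Fin n → A,
    (∀ a : Fin n, x (D.s + a) = some (v a)) ∧ Structure.RelMap r v

def omul (o p : Option A) : Option A := if p = none then none else o

end star

section star2

variable (A : Type u) [L.Structure A]

lemma Data.lt_k_of_le_s {j : ℕ} (h : j < D.s) : j < D.k := by unfold Data.k; omega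

noncomputable def starFun : ∀ {n : ℕ}, L0.Functions n → (Fin n → StarC D A) → StarC D A
  | _, F0.inf, _ => ⟨fun _ => none, fun _ _ => rfl⟩
  | _, F0.sh, a => ⟨fun i => (a 0).v (i + 1), fun i hi => (a 0).hv _ (by omega)⟩
  | _, F0.ff, a => ⟨fun j => Fv D (a 0).v j, fun j hj => by
      rw [Fv_eq_none]
      rintro y ⟨n, f, v, rfl, _⟩
      have := D.lt_k_of_le_s (D.fi_lt f)
      omega⟩
  | _, F0.cons, a => ⟨fun i => match i with
      | 0 => (a 0).v 0
      | i + 1 => if i + 1 < D.k then (a 1).v i else none, fun i hi => by
        cases i with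
        | zero => exact absurd hi (by unfold Data.k; omega)
        | succ i => exact if_neg (by omega)⟩
  | _, F0.mul, a => ⟨fun i => omul ((a 0).v i) ((a 1).v i), fun i hi => by
      simp [omul, (a 1).hv i hi]⟩

noncomputable instance instStar : L0.Structure (StarC D A) where
  funMap := starFun D A
  RelMap {n} r := match n, r with
    | _, R0.rr => fun a => Rv D (a 0).v

variable {A}

@[simp] lemma star_inf (i : ℕ) : (inf : StarC D A).v i = none := rfl
@[simp] lemma star_sh (x : StarC D A) (i : ℕ) : (sh x).v i = x.v (i + 1) := rfl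
@[simp] lemma star_ff (x : StarC D A) (i : ℕ) : (ff x).v i = Fv D x.v i := rfl
@[simp] lemma star_cons0 (x y : StarC D A) : (cons x y).v 0 = x.v 0 := rfl
@[simp] lemma star_cons (x y : StarC D A) (i : ℕ) :
    (cons x y).v (i + 1) = if i + 1 < D.k then y.v i else none := rfl
@[simp] lemma star_mul (x y : StarC D A) (i : ℕ) : (mul x y).v i = omul (x.v i) (y.v i) := rfl
lemma star_rr (x : StarC D A) : rr x ↔ Rv D x.v := Iff.rfl

@[simp] lemma star_shn (n : ℕ) (x : StarC D A) (i : ℕ) : (shn n x).v i = x.v (i + n) := by
  induction n generalizing x i with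
  | zero => rfl
  | succ n ih => rw [shn, ih, star_sh]; congr 1

lemma star_e (x : StarC D A) (i : ℕ) : (e x).v i = if i = 0 then x.v 0 else none := by
  cases i with
  | zero => simp [e]
  | succ i => simp [e]

lemma star_co (j : ℕ) (x : StarC D A) (i : ℕ) : (co j x).v i = if i = 0 then x.v j else none := by
  rw [co, star_e, star_shn]; simp

lemma star_packN (n : ℕ) (g : ℕ → StarC D A) (i : ℕ) :
    (packN n g).v i = if i < n ∧ i < D.k then (g i).v 0 else none := by
  induction n generalizing g i with
  | zero => simp [packN]
  | succ n ih =>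
    cases i with
    | zero =>
      have : 0 < D.k := by unfold Data.k; omega
      simp [packN, this]
    | succ i =>
      rw [packN, star_cons, ih]
      by_cases h1 : i + 1 < D.k
      · have : i < D.k := by omega
        simp [h1, this]
      · simp [h1]

lemma star_tau_b {j : ℕ} (hj : j < D.s) (b : StarC D A) {n : ℕ} (y : Fin n → StarC D A) :
    (tau D j b y).v j = b.v 0 := by
  have h1 : j < D.k := D.lt_k_of_le_s hj
  rw [tau, star_packN]
  simp [h1]

lemma star_tau_y {j : ℕ} (hj : j < D.s) (b : StarC D A) {n : ℕ} (hn : n ≤ D.W)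
    (y : Fin n → StarC D A) (a : Fin n) :
    (tau D j b y).v (D.s + a) = (y a).v 0 := by
  have h1 : D.s + a < D.k := by unfold Data.k; omega
  rw [tau, star_packN, if_pos ⟨h1, h1⟩, if_neg (by omega)]
  have h2 : D.s ≤ D.s + (a : ℕ) ∧ D.s + (a : ℕ) - D.s < n := ⟨by omega, by
    rw [Nat.add_sub_cancel_left]; exact a.2⟩
  rw [dif_pos h2]
  congr 2
  apply Fin.ext
  simp

lemma star_tau_other {j : ℕ} (b : StarC D A) {n : ℕ} (y : Fin n → StarC D A) {i : ℕ}
    (hi : i < D.s) (hij : i ≠ j) : (tau D j b y).v i = none := by
  rw [tau, star_packN, if_neg hij, dif_neg (by omega)]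
  simp

lemma mul_co_eq (b x : StarC D A) (j : ℕ) :
    mul b (co j x) = b ↔ (∀ m, b.v (m + 1) = none) ∧ (b.v 0 ≠ none → x.v j ≠ none) := by
  constructor
  · intro h
    constructor
    · intro m
      have := congrArg (fun z => z.v (m + 1)) h
      simp only [star_mul, star_co] at this
      rw [← this]; simp [omul]
    · intro hb hx
      have := congrArg (fun z => z.v 0) h
      simp only [star_mul, star_co] at this
      apply hb
      rw [← this, omul]; simp [hx]
  · rintro ⟨h1, h2⟩
    ext1
    funext m
    cases m with
    | zero =>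
      simp only [star_mul, star_co, if_true, omul]
      by_cases hb : b.v 0 = none
      · simp [hb]
      · simp [h2 hb]
    | succ m => simp [star_mul, star_co, omul, h1 m]

variable (A)

lemma enc_star : Enc D (StarC D A) := by
  have lt_s : ∀ {j}, j < D.s → j < D.k := fun h => D.lt_k_of_le_s h
  refine {
    co_ge := fun i hi x => ?_
    e_e := fun x => ?_
    ext := fun x y h => ?_
    e_cons := fun x y => ?_
    co_cons := fun i hi x y => ?_
    co_inf := fun i => ?_
    co_mul := fun i x y => ?_
    assoc := fun x y z => ?_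
    idem := fun x => ?_
    comm := fun x y z => ?_
    mul_inf := fun x => ?_
    inf_mul := fun x => ?_
    F_a := fun {n} f x b h => ?_
    F_a' := fun {n} f x b h a => ?_
    F_b := fun {n} f x b h1 h2 => ?_
    F_c := fun {n} f x b h1 h2 => ?_
    F_d := fun j hj x => ?_
    R_a := fun {n} r x b h1 h2 a => ?_
    R_b := fun {n} r x b h1 h2 => ?_
    R_c := fun x h => ?_
    R_inf := ?_ }
  · ext1; funext m; rw [star_co]; simp [x.hv i hi]
  · ext1; funext m; rw [star_e, star_e, star_e]; simp
  · ext1; funext m
    by_cases hm : m < D.k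
    · have := congrArg (fun z => z.v 0) (h m hm)
      simpa [star_co] using this
    · rw [x.hv m (by omega), y.hv m (by omega)]
  · ext1; funext m; rw [star_e, star_e]; simp
  · ext1; funext m; rw [star_co, star_co, star_cons]; simp [hi]
  · ext1; funext m; rw [star_co]; simp
  · ext1; funext m; rw [star_co, star_mul, star_mul, star_co, star_co]
    split_ifs <;> simp [omul]
  · ext1; funext m; simp only [star_mul, omul]
    split_ifs <;> simp_all
  · ext1; funext m; simp only [star_mul, omul]
    split_ifs <;> simp_all
  · ext1; funext m; simp only [star_mul, omul]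
    split_ifs <;> simp_all
  · ext1; funext m; simp only [star_mul, omul]
    split_ifs <;> simp_all
  · ext1; funext m; simp only [star_mul, omul]
    split_ifs <;> simp_all
  · rw [mul_co_eq] at h ⊢
    refine ⟨h.1, fun hb => ?_⟩
    have := h.2 hb
    rw [star_ff] at this
    obtain ⟨y, hy⟩ := Option.ne_none_iff_exists'.mp this
    rw [Fv_eq_some, FG_iff] at hy
    exact hy.1
  · rw [mul_co_eq] at h ⊢
    refine ⟨h.1, fun hb => ?_⟩
    have := h.2 hb
    rw [star_ff] at this
    obtain ⟨y, hy⟩ := Option.ne_none_iff_exists'.mp this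
    rw [Fv_eq_some, FG_iff] at hy
    obtain ⟨_, v, hv, _⟩ := hy
    rw [hv a]; simp
  · rw [mul_co_eq] at h1 ⊢
    refine ⟨h1.1, fun hb => ?_⟩
    have h3 : ∀ a : Fin n, ∃ y, x.v (D.s + a) = some y := by
      intro a
      have := h2 a
      rw [mul_co_eq] at this
      exact Option.ne_none_iff_exists'.mp (this.2 hb)
    choose v hv using h3
    rw [star_ff, (Fv_eq_some D).mpr ((FG_iff D f).mpr ⟨h1.2 hb, v, hv, rfl⟩)]
    simp
  · rw [mul_co_eq] at h1
    ext1; funext m
    rw [star_mul, star_co, star_co]
    by_cases hm : m = 0
    · subst hm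
      simp only [if_true]
      by_cases hb : b.v 0 = none
      · have e1 : (tau D (D.fi f) b (fun a : Fin n => mul (co (D.s + a) x) b)).v (D.fi f) = none := by
          rw [star_tau_b D (D.fi_lt f), hb]
        have e2 : Fv D (tau D (D.fi f) b (fun a : Fin n => mul (co (D.s + a) x) b)).v (D.fi f)
            = none := by
          rw [Fv_eq_none]
          intro y hy
          rw [FG_iff] at hy
          exact hy.1 e1
        rw [star_ff, star_ff, e2]
        simp [omul, hb]
      · have h3 : ∀ a : Fin n, ∃ y, x.v (D.s + a) = some y := by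
          intro a
          have := h2 a
          rw [mul_co_eq] at this
          exact Option.ne_none_iff_exists'.mp (this.2 hb)
        choose v hv using h3
        rw [star_ff, star_ff, (Fv_eq_some D).mpr ((FG_iff D f).mpr ⟨h1.2 hb, v, hv, rfl⟩)]
        rw [omul, if_neg hb]
        symm
        rw [Fv_eq_some, FG_iff]
        refine ⟨?_, v, ?_, rfl⟩
        · rw [star_tau_b D (D.fi_lt f)]; exact hb
        · intro a
          rw [star_tau_y D (D.fi_lt f) b (D.hF f), star_mul, star_co, if_pos rfl, omul, if_neg hb,
            hv a]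
    · simp [hm, omul]
  · ext1; funext m
    rw [star_co, star_ff]
    have : Fv D x.v j = none := by
      rw [Fv_eq_none]
      rintro y ⟨n, f, v, hf, _⟩
      exact hj n f hf
    simp [this]
  · rw [mul_co_eq] at h2 ⊢
    refine ⟨h2.1, fun hb => ?_⟩
    obtain ⟨v, hv, _⟩ := h1 n r (h2.2 hb)
    have hva : x.v (D.s + a) = some (v a) := hv a
    rw [hva]; simp
  · rw [mul_co_eq] at h2
    rw [star_rr] at h1 ⊢
    intro m r' hr'
    by_cases hrr : D.ri r' = D.ri r
    · have := D.ri_inj r' r hrr
      rw [Sigma.mk.injEq] at this
      obtain ⟨rfl, hg⟩ := this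
      rw [heq_eq_eq] at hg
      subst hg
      rw [star_tau_b D (D.ri_lt r')] at hr'
      obtain ⟨v, hv, hR⟩ := h1 m r' (h2.2 hr')
      refine ⟨v, ?_, hR⟩
      intro a
      rw [star_tau_y D (D.ri_lt r') b (D.hR r'), star_mul, star_co, if_pos rfl, omul, if_neg hr',
        hv a]
    · exact absurd (star_tau_other D b _ (D.ri_lt r') hrr) hr'
  · rw [star_rr]
    intro n r hr
    obtain ⟨h1, h2⟩ := h r
    rw [star_rr] at h2
    have h3 : (tau D (D.ri r) (co (D.ri r) x)
        (fun a : Fin n => mul (co (D.s + a) x) (co (D.ri r) x))).v (D.ri r) ≠ none := by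
      rw [star_tau_b D (D.ri_lt r), star_co, if_pos rfl]; exact hr
    obtain ⟨v, hv, hR⟩ := h2 n r h3
    refine ⟨v, ?_, hR⟩
    intro a
    have := hv a
    rwa [star_tau_y D (D.ri_lt r) _ (D.hR r), star_mul, star_co, star_co, if_pos rfl, if_pos rfl,
      omul, if_neg hr] at this
  · rw [star_rr]
    intro n r hr
    exact absurd rfl hr

variable {A}

/-- The encoding is functorial. -/
def starHom {B : Type y} [L.Structure B] (h : A →[L] B) : StarC D A →[L0] StarC D B where
  toFun x := ⟨fun i => (x.v i).map h, fun i hi => by rw [x.hv i hi]; rfl⟩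
  map_fun' {n} f a := by
    cases f with
    | inf => ext1; funext i; rfl
    | sh => ext1; funext i; rfl
    | cons =>
      ext1; funext i
      cases i with
      | zero => rfl
      | succ i =>
        change Option.map h (if i + 1 < D.k then (a 1).v i else none) =
          if i + 1 < D.k then ((a 1).v i).map h else none
        split_ifs <;> rfl
    | mul =>
      ext1; funext i
      change Option.map h (omul ((a 0).v i) ((a 1).v i)) =
        omul (((a 0).v i).map h) (((a 1).v i).map h)
      unfold omul
      cases h1 : (a 1).v i <;> simp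
    | ff =>
      ext1; funext j
      change Option.map h (Fv D (a 0).v j) = Fv D (fun i => ((a 0).v i).map h) j
      cases hF : Fv D (a 0).v j with
      | none =>
        symm
        rw [Option.map_none, Fv_eq_none]
        rintro y ⟨n, f, v, rfl, hj, hv, rfl⟩
        rw [Fv_eq_none] at hF
        have h3 : ∀ b : Fin n, ∃ y, (a 0).v (D.s + b) = some y := by
          intro b
          have := hv b
          rw [Option.map_eq_some_iff] at this
          obtain ⟨y, hy, _⟩ := this
          exact ⟨y, hy⟩
        choose v' hv' using h3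
        apply hF (Structure.funMap f v')
        refine ⟨n, f, v', rfl, ?_, hv', rfl⟩
        intro h0
        apply hj
        change Option.map h ((a 0).v (D.fi f)) = none
        rw [h0]; rfl
      | some y =>
        symm
        rw [Option.map_some, Fv_eq_some]
        rw [Fv_eq_some] at hF
        obtain ⟨n, f, v, rfl, hj, hv, rfl⟩ := hF
        refine ⟨n, f, h ∘ v, rfl, ?_, ?_, ?_⟩
        · rw [Ne, Option.map_eq_none_iff]; exact hj
        · intro b
          change Option.map h ((a 0).v (D.s + b)) = _
          rw [hv b]; rfl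
        · rw [h.map_fun]
  map_rel' {n} r a := by
    cases r with
    | rr =>
      intro hr n r hj
      have hj' : (a 0).v (D.ri r) ≠ none := by
        intro h0
        apply hj
        change Option.map h ((a 0).v (D.ri r)) = none
        rw [h0]; rfl
      obtain ⟨v, hv, hR⟩ := hr n r hj'
      refine ⟨h ∘ v, ?_, h.map_rel r v hR⟩
      intro b
      change Option.map h ((a 0).v (D.s + b)) = _
      rw [hv b]; rfl

lemma starHom_v {B : Type y} [L.Structure B] (h : A →[L] B) (x : StarC D A) (i : ℕ) :
    (starHom D h x).v i = (x.v i).map h := rfl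

lemma starHom_joint {I : Type x} [Nonempty I] {C : I → Type y} [∀ i, L.Structure (C i)]
    {h : ∀ i, A →[L] C i} (H : JointRefl h) : JointRefl (fun i => starHom D (h i)) := by
  constructor
  · intro a b hab
    ext1
    funext m
    have h1 : ∀ i, (a.v m).map (h i) = (b.v m).map (h i) := fun i =>
      congrArg (fun z => z.v m) (hab i)
    obtain ⟨i0⟩ := ‹Nonempty I›
    cases ha : a.v m with
    | none =>
      have := h1 i0
      rw [ha, Option.map_none] at this
      exact (Option.map_eq_none_iff.mp this.symm).symm
    | some x =>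
      cases hb : b.v m with
      | none =>
        have := h1 i0
        rw [ha, hb] at this
        cases this
      | some y =>
        congr 1
        apply H.inj
        intro i
        have := h1 i
        rw [ha, hb] at this
        exact Option.some.inj this
  · intro n r a hr
    cases r with
    | rr =>
      intro n r hj
      obtain ⟨i0⟩ := ‹Nonempty I›
      have h1 : ∀ i, ∃ v : Fin n → C i, (∀ b : Fin n, ((a 0).v (D.s + b)).map (h i) = some (v b)) ∧
          Structure.RelMap r v := by
        intro i
        apply hr i n r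
        intro h0
        apply hj
        exact Option.map_eq_none_iff.mp h0
      have h3 : ∀ b : Fin n, ∃ y, (a 0).v (D.s + b) = some y := by
        intro b
        obtain ⟨v, hv, _⟩ := h1 i0
        have := hv b
        rw [Option.map_eq_some_iff] at this
        obtain ⟨y, hy, _⟩ := this
        exact ⟨y, hy⟩
      choose v hv using h3
      refine ⟨v, hv, ?_⟩
      apply H.rel
      intro i
      obtain ⟨v', hv', hR⟩ := h1 i
      have : h i ∘ v = v' := by
        funext b
        have := hv' b
        rw [hv b] at this
        exact Option.some.inj this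
      rw [this]
      exact hR

end star2

end Pool.Agent.Helper30.QV
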