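import Mathlib

set_option autoImplicit false

namespace Pool.Agent.Helper30.Thompson

open scoped commutatorElement

/-- The two relators of the standard finite presentation of Thompson's group `F`, in the free group
on the generators `0` (called `A`) and `1` (called `B`); the bracket is the commutator. -/
def relators : Set (FreeGroup (Fin 2)) :=
  let A : FreeGroup (Fin 2) := FreeGroup.of 0
  let B : FreeGroup (Fin 2) := FreeGroup.of 1
  {⁅A * B⁻¹, A⁻¹ * B * A⁆, ⁅A * B⁻¹, (A ^ 2)⁻¹ * B * A ^ 2⁆}

/-- Thompson's group `F`. -/
abbrev F : Type := PresentedGroup relators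

end Pool.Agent.Helper30.Thompson
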