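import Pool.Agent.Helper30.WHypSelfSimilar
import Pool.Agent.Helper30.ThompsonDefs

set_option autoImplicit false

namespace Pool.Agent.Helper30.Thompson

open Pool.Agent.Helper30.WHyp
open Pointwise
open scoped commutatorElement

/-! ### algebra -/

lemma commute_iff_conj {P : Type*} [Group P] (a b x : P) :
    Commute (a * b⁻¹) x ↔ b⁻¹ * x * b = a⁻¹ * x * a := by
  constructor
  · intro h
    have h1 : a * b⁻¹ * x = x * (a * b⁻¹) := h
    calc b⁻¹ * x * b = a⁻¹ * (a * b⁻¹ * x) * b := by group
      _ = a⁻¹ * (x * (a * b⁻¹)) * b := by rw [h1]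
      _ = a⁻¹ * x * a := by group
  · intro h
    change a * b⁻¹ * x = x * (a * b⁻¹)
    calc a * b⁻¹ * x = a * (b⁻¹ * x * b) * b⁻¹ := by group
      _ = a * (a⁻¹ * x * a) * b⁻¹ := by rw [h]
      _ = x * (a * b⁻¹) := by group

section Algebra

variable {P : Type*} [Group P] (A B : P)

/-- the defining relations of `F` for a pair of elements -/
structure Rel : Prop where
  r1 : Commute (A * B⁻¹) (A⁻¹ * B * A)
  r2 : Commute (A * B⁻¹) (A⁻¹ * (A⁻¹ * B * A) * A)

variable {A B}

lemma Rel.shift (h : Rel A B) : Rel B (A⁻¹ * B * A) := by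
  obtain ⟨h1, h2⟩ := h
  have h1' := (commute_iff_conj A B _).mp h1
  have h2' := (commute_iff_conj A B _).mp h2
  set X₂ := A⁻¹ * B * A with hX2
  set X₃ := A⁻¹ * X₂ * A with hX3
  have e1 : X₂⁻¹ * X₃ * X₂ = A⁻¹ * X₃ * A := by
    calc X₂⁻¹ * X₃ * X₂ = A⁻¹ * (B⁻¹ * X₂ * B) * A := by rw [hX3, hX2]; group
      _ = A⁻¹ * X₃ * A := by rw [h1']
  have h3 : Commute (A * B⁻¹) (A⁻¹ * X₃ * A) := by
    rw [← e1]
    exact (h1.inv_right.mul_right h2).mul_right h1
  have h3' := (commute_iff_conj A B _).mp h3
  constructor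
  · rw [h1', commute_iff_conj, h2', ← e1]
  · rw [h1', h2', commute_iff_conj, h3']
    calc X₂⁻¹ * (A⁻¹ * X₃ * A) * X₂ = A⁻¹ * (B⁻¹ * X₃ * B) * A := by rw [hX2]; group
      _ = A⁻¹ * (A⁻¹ * X₃ * A) * A := by rw [h2']

/-- the generators of the left copy -/
def leftA (A B : P) : P := A * (A * B⁻¹) * A⁻¹

def leftB (A B : P) : P := A * leftA B (A⁻¹ * B * A) * A⁻¹

lemma commute_conj_iff (g x y : P) : Commute (g * x * g⁻¹) y ↔ Commute x (g⁻¹ * y * g) := by
  constructor
  · intro h
    have h1 : g * x * g⁻¹ * y = y * (g * x * g⁻¹) := h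
    change x * (g⁻¹ * y * g) = (g⁻¹ * y * g) * x
    calc x * (g⁻¹ * y * g) = g⁻¹ * (g * x * g⁻¹ * y) * g := by group
      _ = g⁻¹ * (y * (g * x * g⁻¹)) * g := by rw [h1]
      _ = (g⁻¹ * y * g) * x := by group
  · intro h
    have h1 : x * (g⁻¹ * y * g) = (g⁻¹ * y * g) * x := h
    change g * x * g⁻¹ * y = y * (g * x * g⁻¹)
    calc g * x * g⁻¹ * y = g * (x * (g⁻¹ * y * g)) * g⁻¹ := by group
      _ = g * ((g⁻¹ * y * g) * x) * g⁻¹ := by rw [h1]
      _ = y * (g * x * g⁻¹) := by group

lemma Rel.leftA_B (h : Rel A B) : Commute (leftA A B) B := by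
  unfold leftA
  rw [commute_conj_iff]
  exact h.r1

lemma Rel.leftA_X (h : Rel A B) : Commute (leftA A B) (A⁻¹ * B * A) := by
  unfold leftA
  rw [commute_conj_iff]
  exact h.r2

lemma Rel.leftB_B (h : Rel A B) : Commute (leftB A B) B := by
  unfold leftB
  rw [commute_conj_iff]
  exact h.shift.leftA_B

lemma Rel.leftB_X (h : Rel A B) : Commute (leftB A B) (A⁻¹ * B * A) := by
  unfold leftB
  rw [commute_conj_iff]
  have h1 := h.shift.leftA_X
  have h2 := (commute_iff_conj A B _).mp h.r1
  rw [h2] at h1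
  exact h1

end Algebra

/-! ### the action on a set with `α ≃ α ⊕ α` -/

section Action

variable {α : Type*} (e : α ≃ α ⊕ α)

def c0 (x : α) : α := e.symm (Sum.inl x)

def c1 (x : α) : α := e.symm (Sum.inr x)

lemma c0_inj : Function.Injective (c0 e) := fun x y h => by simpa [c0] using h

lemma c1_inj : Function.Injective (c1 e) := fun x y h => by simpa [c1] using h

lemma cases01 (x : α) : (∃ y, x = c0 e y) ∨ ∃ y, x = c1 e y := by
  rcases h : e x with y | y
  · left
    exact ⟨y, by rw [c0, ← h, Equiv.symm_apply_apply]⟩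
  · right
    exact ⟨y, by rw [c1, ← h, Equiv.symm_apply_apply]⟩

def lam : Equiv.Perm α →* Equiv.Perm α where
  toFun f := e.trans ((Equiv.sumCongr f (Equiv.refl α)).trans e.symm)
  map_one' := by
    ext x
    rcases h : e x with y | y <;> simp [h, Equiv.symm_apply_eq]
  map_mul' f g := by
    ext x
    rcases h : e x with y | y <;> simp [h]

def rho : Equiv.Perm α →* Equiv.Perm α where
  toFun f := e.trans ((Equiv.sumCongr (Equiv.refl α) f).trans e.symm)
  map_one' := by
    ext x
    rcases h : e x with y | y <;> simp [h, Equiv.symm_apply_eq]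
  map_mul' f g := by
    ext x
    rcases h : e x with y | y <;> simp [h]

@[simp] lemma lam_c0 (f : Equiv.Perm α) (x : α) : lam e f (c0 e x) = c0 e (f x) := by
  simp [lam, c0]

@[simp] lemma lam_c1 (f : Equiv.Perm α) (x : α) : lam e f (c1 e x) = c1 e x := by
  simp [lam, c1]

@[simp] lemma rho_c0 (f : Equiv.Perm α) (x : α) : rho e f (c0 e x) = c0 e x := by
  simp [rho, c0]

@[simp] lemma rho_c1 (f : Equiv.Perm α) (x : α) : rho e f (c1 e x) = c1 e (f x) := by
  simp [rho, c1]

/-- the generator `A` -/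
def perA : Equiv.Perm α :=
  e.trans ((Equiv.sumCongr (Equiv.refl α) e).trans ((Equiv.sumAssoc α α α).symm.trans
    ((Equiv.sumCongr e.symm (Equiv.refl α)).trans e.symm)))

@[simp] lemma perA_0 (x : α) : perA e (c0 e x) = c0 e (c0 e x) := by
  simp [perA, c0]

@[simp] lemma perA_10 (x : α) : perA e (c1 e (c0 e x)) = c0 e (c1 e x) := by
  simp [perA, c0, c1]

@[simp] lemma perA_11 (x : α) : perA e (c1 e (c1 e x)) = c1 e x := by
  simp [perA, c1]

lemma perm_ext (f g : Equiv.Perm α) (h0 : ∀ x, f (c0 e x) = g (c0 e x))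
    (h1 : ∀ x, f (c1 e x) = g (c1 e x)) : f = g := by
  ext x
  rcases cases01 e x with ⟨y, rfl⟩ | ⟨y, rfl⟩
  · exact h0 y
  · exact h1 y

lemma conj_rho (f : Equiv.Perm α) : (perA e)⁻¹ * rho e f * perA e = rho e (rho e f) := by
  rw [mul_assoc, inv_mul_eq_iff_eq_mul]
  apply perm_ext e
  · intro x; simp
  · intro x
    rcases cases01 e x with ⟨y, rfl⟩ | ⟨y, rfl⟩
    · simp
    · simp

lemma conj_lam (f : Equiv.Perm α) : perA e * rho e (lam e f) * (perA e)⁻¹ = lam e (rho e f) := by
  rw [mul_inv_eq_iff_eq_mul]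
  apply perm_ext e
  · intro x; simp
  · intro x
    rcases cases01 e x with ⟨y, rfl⟩ | ⟨y, rfl⟩
    · simp
    · simp

lemma lam_A : leftA (perA e) (rho e (perA e)) = lam e (perA e) := by
  unfold leftA
  rw [mul_inv_eq_iff_eq_mul, ← mul_assoc, mul_inv_eq_iff_eq_mul]
  apply perm_ext e
  · intro x; simp
  · intro x
    rcases cases01 e x with ⟨y, rfl⟩ | ⟨y, rfl⟩
    · simp
    · rcases cases01 e y with ⟨z, rfl⟩ | ⟨z, rfl⟩
      · simp
      · simp

lemma conj_A : (perA e)⁻¹ * rho e (perA e) * perA e = rho e (rho e (perA e)) := conj_rho e _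

lemma lam_B : leftB (perA e) (rho e (perA e)) = lam e (rho e (perA e)) := by
  have h : leftA (rho e (perA e)) (rho e (rho e (perA e))) = rho e (lam e (perA e)) := by
    rw [← lam_A]
    simp [leftA]
  unfold leftB
  rw [conj_A, h, conj_lam]

lemma rel_per : Rel (perA e) (rho e (perA e)) := by
  constructor
  · rw [commute_iff_conj, conj_A, conj_rho, ← map_inv, ← map_mul, ← map_mul, conj_rho]
  · rw [commute_iff_conj, conj_A, conj_rho, conj_rho, ← map_inv, ← map_mul, ← map_mul, conj_rho]

lemma lam_rho_inj (u v u' v' : Equiv.Perm α) (h : lam e u * rho e v = lam e u' * rho e v') :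
    u = u' ∧ v = v' := by
  constructor
  · ext x
    have := congrArg (fun f : Equiv.Perm α => f (c0 e x)) h
    simp only [Equiv.Perm.mul_apply, rho_c0, lam_c0] at this
    exact c0_inj e this
  · ext x
    have := congrArg (fun f : Equiv.Perm α => f (c1 e x)) h
    simp only [Equiv.Perm.mul_apply, rho_c1, lam_c1] at this
    exact c1_inj e this

end Action

/-! ### the presented group -/

def gA : F := PresentedGroup.of 0

def gB : F := PresentedGroup.of 1

lemma rel_F : Rel gA gB := by
  constructor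
  · rw [← commutatorElement_eq_one_iff_commute]
    have h0 : ⁅(FreeGroup.of 0 : FreeGroup (Fin 2)) * (FreeGroup.of 1)⁻¹,
        (FreeGroup.of 0)⁻¹ * FreeGroup.of 1 * FreeGroup.of 0⁆ ∈ relators := Or.inl rfl
    have h := PresentedGroup.one_of_mem h0
    simpa [gA, gB, PresentedGroup.of, map_commutatorElement] using h
  · rw [← commutatorElement_eq_one_iff_commute]
    have h0 : ⁅(FreeGroup.of 0 : FreeGroup (Fin 2)) * (FreeGroup.of 1)⁻¹,
        (FreeGroup.of 0 ^ 2)⁻¹ * FreeGroup.of 1 * FreeGroup.of 0 ^ 2⁆ ∈ relators := Or.inr rfl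
    have h := PresentedGroup.one_of_mem h0
    have h2 : gA⁻¹ * (gA⁻¹ * gB * gA) * gA = (gA ^ 2)⁻¹ * gB * gA ^ 2 := by
      rw [pow_two]; group
    rw [h2]
    simpa [gA, gB, PresentedGroup.of, map_commutatorElement] using h

/-- homomorphisms out of `F` -/
def toHom {P : Type*} [Group P] (A B : P) (h : Rel A B) : F →* P :=
  PresentedGroup.toGroup (f := ![A, B]) (by
    intro r hr
    rcases hr with rfl | hr
    · simp only [map_commutatorElement, map_mul, map_inv, FreeGroup.lift_apply_of,
        Matrix.cons_val_zero, Matrix.cons_val_one]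
      rw [commutatorElement_eq_one_iff_commute]
      exact h.r1
    · rw [Set.mem_singleton_iff] at hr
      subst hr
      simp only [map_commutatorElement, map_mul, map_inv, map_pow, FreeGroup.lift_apply_of,
        Matrix.cons_val_zero, Matrix.cons_val_one]
      rw [commutatorElement_eq_one_iff_commute]
      have h2 : A⁻¹ * (A⁻¹ * B * A) * A = (A ^ 2)⁻¹ * B * A ^ 2 := by rw [pow_two]; group
      rw [← h2]
      exact h.r2)

lemma toHom_A {P : Type*} [Group P] (A B : P) (h : Rel A B) : toHom A B h gA = A := by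
  unfold toHom gA
  rw [PresentedGroup.toGroup.of]
  rfl

lemma toHom_B {P : Type*} [Group P] (A B : P) (h : Rel A B) : toHom A B h gB = B := by
  unfold toHom gB
  rw [PresentedGroup.toGroup.of]
  rfl

/-- the shift endomorphism -/
def shift : F →* F := toHom gB (gA⁻¹ * gB * gA) rel_F.shift

lemma hom_ext {P : Type*} [Group P] (f g : F →* P) (hA : f gA = g gA) (hB : f gB = g gB) :
    f = g := by
  apply PresentedGroup.ext
  intro x
  fin_cases x
  · exact hA
  · exact hB

lemma closure_gen : Subgroup.closure ({gA, gB} : Set F) = ⊤ := by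
  rw [← PresentedGroup.closure_range_of relators]
  congr 1
  ext x
  constructor
  · rintro (rfl | rfl)
    · exact ⟨0, rfl⟩
    · exact ⟨1, rfl⟩
  · rintro ⟨i, rfl⟩
    fin_cases i
    · exact Or.inl rfl
    · exact Or.inr rfl

lemma commute_shift (x : F) (hB : Commute x gB) (hX : Commute x (gA⁻¹ * gB * gA)) (y : F) :
    Commute x (shift y) := by
  have hy : y ∈ Subgroup.closure ({gA, gB} : Set F) := by rw [closure_gen]; trivial
  have h1 : Subgroup.closure ({gA, gB} : Set F) ≤ (Subgroup.centralizer {x}).comap shift := by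
    rw [Subgroup.closure_le]
    rintro z (rfl | rfl)
    · rw [SetLike.mem_coe, Subgroup.mem_comap, Subgroup.mem_centralizer_singleton_iff]
      rw [shift, toHom_A]
      exact hB.symm
    · rw [SetLike.mem_coe, Subgroup.mem_comap, Subgroup.mem_centralizer_singleton_iff]
      rw [shift, toHom_B]
      exact hX.symm
  have h2 := h1 hy
  rw [Subgroup.mem_comap, Subgroup.mem_centralizer_singleton_iff] at h2
  exact h2.symm

/-! ### the commuting sets -/

open Classical in
/-- the commuting copies of `{1, A, A⁻¹, B, B⁻¹}` -/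
noncomputable def sets : ℕ → Finset F
  | 0 => {1, leftA gA gB, (leftA gA gB)⁻¹, leftB gA gB, (leftB gA gB)⁻¹}
  | (i + 1) => (sets i).image shift

lemma one_mem_sets (i : ℕ) : 1 ∈ sets i := by
  classical
  induction i with
  | zero => simp [sets]
  | succ i ih =>
    rw [sets, Finset.mem_image]
    exact ⟨1, ih, map_one _⟩

lemma sets_commute (i j : ℕ) (hij : i < j) : ∀ s ∈ sets i, ∀ t ∈ sets j, Commute s t := by
  classical
  induction i generalizing j with
  | zero =>
    obtain ⟨j, rfl⟩ : ∃ k, j = k + 1 := ⟨j - 1, by omega⟩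
    intro s hs t ht
    rw [sets, Finset.mem_image] at ht
    obtain ⟨t, ht, rfl⟩ := ht
    have hA : Commute (leftA gA gB) (shift t) := commute_shift _ rel_F.leftA_B rel_F.leftA_X t
    have hB : Commute (leftB gA gB) (shift t) := commute_shift _ rel_F.leftB_B rel_F.leftB_X t
    simp only [sets, Finset.mem_insert, Finset.mem_singleton] at hs
    rcases hs with rfl | rfl | rfl | rfl | rfl
    · exact Commute.one_left _
    · exact hA
    · exact hA.inv_left
    · exact hB
    · exact hB.inv_left
  | succ i ih =>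
    obtain ⟨j, rfl⟩ : ∃ k, j = k + 1 := ⟨j - 1, by omega⟩
    intro s hs t ht
    rw [sets, Finset.mem_image] at hs ht
    obtain ⟨s, hs, rfl⟩ := hs
    obtain ⟨t, ht, rfl⟩ := ht
    exact (ih j (by omega) s hs t ht).map shift

section

variable {α : Type*} (e : α ≃ α ⊕ α)

/-- the action -/
def act : F →* Equiv.Perm α := toHom (perA e) (rho e (perA e)) (rel_per e)

lemma act_shift (x : F) : act e (shift x) = rho e (act e x) := by
  have : (act e).comp shift = (rho e).comp (act e) := by
    apply hom_ext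
    · simp [act, shift, toHom_A, toHom_B]
    · simp only [MonoidHom.comp_apply, act, shift, toHom_B, map_mul, map_inv, toHom_A]
      exact conj_A e
  exact DFunLike.congr_fun this x

lemma act_leftA : act e (leftA gA gB) = lam e (perA e) := by
  rw [← lam_A]
  simp [leftA, act, toHom_A, toHom_B]

lemma act_leftB : act e (leftB gA gB) = lam e (rho e (perA e)) := by
  rw [← lam_B]
  simp [leftB, leftA, act, toHom_A, toHom_B]

/-- the copies -/
def kap : ℕ → (Equiv.Perm α →* Equiv.Perm α)
  | 0 => lam e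
  | (i + 1) => (rho e).comp (kap i)

lemma kap_inj (i : ℕ) : Function.Injective (kap e i) := by
  induction i with
  | zero =>
    intro u u' h
    exact (lam_rho_inj e u 1 u' 1 (by simpa [kap] using h)).1
  | succ i ih =>
    intro u u' h
    apply ih
    exact (lam_rho_inj e 1 (kap e i u) 1 (kap e i u') (by simpa [kap] using h)).2

open Classical in
/-- the symmetric generating set of the image -/
noncomputable def gens : Finset (Equiv.Perm α) :=
  {1, perA e, (perA e)⁻¹, rho e (perA e), (rho e (perA e))⁻¹}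

open Classical in
lemma gens_kap (i : ℕ) : (gens e).image (kap e i) ⊆ (sets i).image (act e) := by
  induction i with
  | zero =>
    intro x hx
    rw [Finset.mem_image] at hx
    obtain ⟨u, hu, rfl⟩ := hx
    simp only [gens, Finset.mem_insert, Finset.mem_singleton] at hu
    rw [Finset.mem_image]
    simp only [sets, Finset.mem_insert, Finset.mem_singleton, kap]
    rcases hu with rfl | rfl | rfl | rfl | rfl
    · exact ⟨1, by simp, by simp⟩
    · exact ⟨leftA gA gB, by simp, act_leftA e⟩
    · exact ⟨(leftA gA gB)⁻¹, by simp, by rw [map_inv, map_inv, act_leftA e]⟩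
    · exact ⟨leftB gA gB, by simp, act_leftB e⟩
    · exact ⟨(leftB gA gB)⁻¹, by simp, by rw [map_inv, map_inv, act_leftB e]⟩
  | succ i ih =>
    intro x hx
    rw [Finset.mem_image] at hx
    obtain ⟨u, hu, rfl⟩ := hx
    have h1 := ih (Finset.mem_image_of_mem (kap e i) hu)
    rw [Finset.mem_image] at h1 ⊢
    obtain ⟨t, ht, h2⟩ := h1
    refine ⟨shift t, ?_, ?_⟩
    · rw [sets]
      exact Finset.mem_image_of_mem _ ht
    · rw [act_shift, h2]
      rfl

open Classical in
lemma word_mem {Q : Type*} [Group Q] (U : Finset Q) (h1 : 1 ∈ U) (l : List Q) (hl : ∀ s ∈ l, s ∈ U)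
    (n : ℕ) (hn : l.length ≤ n) : l.prod ∈ U ^ n := by
  have h2 : l.prod ∈ U ^ l.length := by
    induction l generalizing n with
    | nil => simp
    | cons a l ih =>
      rw [List.prod_cons, List.length_cons, pow_succ']
      exact Finset.mul_mem_mul (hl a (by simp)) (ih (fun s hs => hl s (by simp [hs])) l.length le_rfl)
  exact Finset.pow_subset_pow_right h1 hn h2

open Classical in
lemma gens_rho : (gens e).image (rho e) ⊆ gens e ^ 8 := by
  have h1 : (1 : Equiv.Perm α) ∈ gens e := by simp [gens]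
  have hA : perA e ∈ gens e := by simp [gens]
  have hA' : (perA e)⁻¹ ∈ gens e := by simp [gens]
  have hB : rho e (perA e) ∈ gens e := by simp [gens]
  have hB' : (rho e (perA e))⁻¹ ∈ gens e := by simp [gens]
  intro x hx
  rw [Finset.mem_image] at hx
  obtain ⟨u, hu, rfl⟩ := hx
  simp only [gens, Finset.mem_insert, Finset.mem_singleton] at hu
  rcases hu with rfl | rfl | rfl | rfl | rfl
  · have := word_mem (gens e) h1 [] (by simp) 8 (by simp)
    simpa using this
  · have := word_mem (gens e) h1 [rho e (perA e)] (by simp [hB]) 8 (by simp)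
    simpa using this
  · have := word_mem (gens e) h1 [(rho e (perA e))⁻¹] (by simp [hB']) 8 (by simp)
    simpa using this
  · have := word_mem (gens e) h1 [(perA e)⁻¹, rho e (perA e), perA e] (by simp [hA, hA', hB]) 8 (by simp)
    rw [← conj_A]
    simpa [mul_assoc] using this
  · have := word_mem (gens e) h1 [(perA e)⁻¹, (rho e (perA e))⁻¹, perA e] (by simp [hA, hA', hB']) 8
      (by simp)
    rw [map_inv, ← conj_A]
    simpa [mul_assoc] using this

open Classical in
lemma gens_lam : (gens e).image (lam e) ⊆ gens e ^ 8 := by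
  have h1 : (1 : Equiv.Perm α) ∈ gens e := by simp [gens]
  have hA : perA e ∈ gens e := by simp [gens]
  have hA' : (perA e)⁻¹ ∈ gens e := by simp [gens]
  have hB : rho e (perA e) ∈ gens e := by simp [gens]
  have hB' : (rho e (perA e))⁻¹ ∈ gens e := by simp [gens]
  intro x hx
  rw [Finset.mem_image] at hx
  obtain ⟨u, hu, rfl⟩ := hx
  simp only [gens, Finset.mem_insert, Finset.mem_singleton] at hu
  rcases hu with rfl | rfl | rfl | rfl | rfl
  · have := word_mem (gens e) h1 [] (by simp) 8 (by simp)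
    simpa using this
  · have := word_mem (gens e) h1 [perA e, perA e, (rho e (perA e))⁻¹, (perA e)⁻¹]
      (by simp [hA, hA', hB']) 8 (by simp)
    rw [← lam_A]
    simpa [leftA, mul_assoc] using this
  · have := word_mem (gens e) h1 [perA e, rho e (perA e), (perA e)⁻¹, (perA e)⁻¹]
      (by simp [hA, hA', hB]) 8 (by simp)
    rw [map_inv, ← lam_A]
    simpa [leftA, mul_assoc] using this
  · have := word_mem (gens e) h1 [perA e, rho e (perA e), rho e (perA e), (perA e)⁻¹,
      (rho e (perA e))⁻¹, perA e, (rho e (perA e))⁻¹, (perA e)⁻¹]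
      (by simp [hA, hA', hB, hB']) 8 (by simp)
    rw [← lam_B]
    simpa [leftB, leftA, mul_assoc] using this
  · have := word_mem (gens e) h1 [perA e, rho e (perA e), (perA e)⁻¹, rho e (perA e), perA e,
      (rho e (perA e))⁻¹, (rho e (perA e))⁻¹, (perA e)⁻¹]
      (by simp [hA, hA', hB, hB']) 8 (by simp)
    rw [map_inv, ← lam_B]
    simpa [leftB, leftA, mul_assoc] using this

open Classical in
lemma gens_card [Nonempty α] : 2 ≤ (gens e).card := by
  refine Finset.one_lt_card.mpr ?_
  refine ⟨1, by simp [gens], perA e, by simp [gens], ?_⟩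
  intro h
  obtain ⟨x⟩ := ‹Nonempty α›
  have h1 : perA e (c1 e (c0 e x)) = c1 e (c0 e x) := by rw [← h]; rfl
  rw [perA_10] at h1
  simp [c0, c1] at h1

end

/-- Thompson's group `F` has infinite weak hyperbolic dimension. -/
theorem weakHyperbolicDimension_F (S : Set F) (hfin : S.Finite) (hS : Subgroup.closure S = ⊤) :
    @weakHyperbolicDimension F (wordMetric S hS) = ⊤ := by
  classical
  let _ := wordMetric S hS
  have e : ℕ ≃ ℕ ⊕ ℕ := Equiv.natSumNatEquivNat.symm
  exact selfsimilar_criterion hfin hS (fun _ _ => rfl) (gens e) (gens_card e) (lam e) (rho e)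
    (lam_rho_inj e) 8 (gens_lam e) (gens_rho e) (act e) sets one_mem_sets sets_commute (kap e)
    (kap_inj e) (gens_kap e)

end Pool.Agent.Helper30.Thompson
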