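import Mathlib

set_option autoImplicit false

namespace Pool.Agent.Helper30.WHyp

/-- `Y` is `(N, R)`-large scale doubling in `X`: for every `x` and every `r ≥ R` the part of `Y` in
the ball of radius `2 * r` about `x` is covered by at most `N` balls of radius `r`. -/
def LargeScaleDoubling {X : Type*} [MetricSpace X] (N : ℕ) (R : ℝ) (Y : Set X) : Prop :=
  ∀ (x : X) (r : ℝ), R ≤ r → ∃ C : Finset X, C.card ≤ N ∧
    Y ∩ Metric.closedBall x (2 * r) ⊆ ⋃ c ∈ C, Metric.closedBall c r

/-- A family is weakly large scale doubling if one pair `(N, R)` works for all its members. -/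
def WeaklyLargeScaleDoubling {X : Type*} [MetricSpace X] (𝒴 : Set (Set X)) : Prop :=
  ∃ (N : ℕ) (R : ℝ), 1 ≤ N ∧ 0 < R ∧ ∀ Y ∈ 𝒴, LargeScaleDoubling N R Y

/-- Points lying in different members of the family are at distance at least `r`. -/
def IsDisjointFamily {X : Type*} [MetricSpace X] (r : ℝ) (𝓕 : Set (Set X)) : Prop :=
  ∀ A ∈ 𝓕, ∀ B ∈ 𝓕, A ≠ B → ∀ x ∈ A, ∀ y ∈ B, r ≤ dist x y

/-- `X` is `(r, n)`-decomposable over `𝒴`. -/
def Decomposable {X : Type*} [MetricSpace X] (r : ℝ) (n : ℕ) (𝒴 : Set (Set X)) : Prop :=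
  ∃ 𝓕 : Fin (n + 1) → Set (Set X), (∀ i, 𝓕 i ⊆ 𝒴) ∧ (∀ i, IsDisjointFamily r (𝓕 i)) ∧
    ⋃ i, ⋃₀ 𝓕 i = Set.univ

/-- The weak hyperbolic dimension of a metric space. -/
noncomputable def weakHyperbolicDimension (X : Type*) [MetricSpace X] : ℕ∞ :=
  ⨅ n ∈ {n : ℕ | ∀ r : ℝ, 0 < r → ∃ 𝒴 : Set (Set X),
    WeaklyLargeScaleDoubling 𝒴 ∧ Decomposable r n 𝒴}, (n : ℕ∞)

/-- The word length of `g`: the least length of a word in `S` and the inverses of elements of `S`
with value `g`. -/
noncomputable def wordLength {G : Type*} [Group G] (S : Set G) (g : G) : ℕ :=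
  sInf {n : ℕ | ∃ l : List G, (∀ s ∈ l, s ∈ S ∨ s⁻¹ ∈ S) ∧ l.prod = g ∧ l.length = n}

section

variable {G : Type*} [Group G] {S : Set G}

lemma wordLength_nonempty (hS : Subgroup.closure S = ⊤) (g : G) :
    {n : ℕ | ∃ l : List G, (∀ s ∈ l, s ∈ S ∨ s⁻¹ ∈ S) ∧ l.prod = g ∧ l.length = n}.Nonempty := by
  have hg : g ∈ Subgroup.closure S := by rw [hS]; trivial
  rw [← Subgroup.mem_toSubmonoid, Subgroup.closure_toSubmonoid] at hg
  obtain ⟨l, hl, hp⟩ := Submonoid.exists_list_of_mem_closure hg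
  exact ⟨l.length, l, fun s hs => hl s hs, hp, rfl⟩

lemma exists_word (hS : Subgroup.closure S = ⊤) (g : G) :
    ∃ l : List G, (∀ s ∈ l, s ∈ S ∨ s⁻¹ ∈ S) ∧ l.prod = g ∧ l.length = wordLength S g :=
  Nat.sInf_mem (wordLength_nonempty hS g)

lemma wordLength_le (l : List G) (hl : ∀ s ∈ l, s ∈ S ∨ s⁻¹ ∈ S) :
    wordLength S l.prod ≤ l.length :=
  Nat.sInf_le ⟨l, hl, rfl, rfl⟩

lemma wordLength_one : wordLength S (1 : G) = 0 := by
  have := wordLength_le (S := S) ([] : List G) (by simp)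
  simpa using this

lemma wordLength_mul_le (hS : Subgroup.closure S = ⊤) (g h : G) :
    wordLength S (g * h) ≤ wordLength S g + wordLength S h := by
  obtain ⟨l, hl, hp, hn⟩ := exists_word hS g
  obtain ⟨l', hl', hp', hn'⟩ := exists_word hS h
  rw [← hn, ← hn', ← List.length_append, ← hp, ← hp', ← List.prod_append]
  apply wordLength_le
  intro s hs
  rcases List.mem_append.mp hs with h | h
  · exact hl s h
  · exact hl' s h

lemma wordLength_inv_le (hS : Subgroup.closure S = ⊤) (g : G) :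
    wordLength S g⁻¹ ≤ wordLength S g := by
  obtain ⟨l, hl, hp, hn⟩ := exists_word hS g
  rw [← hn, ← hp, List.prod_inv_reverse]
  refine (wordLength_le _ ?_).trans (by simp)
  intro s hs
  rw [List.mem_reverse, List.mem_map] at hs
  obtain ⟨t, ht, rfl⟩ := hs
  rw [inv_inv]
  exact (hl t ht).symm

lemma eq_one_of_wordLength (hS : Subgroup.closure S = ⊤) (g : G) (h : wordLength S g = 0) :
    g = 1 := by
  obtain ⟨l, hl, hp, hn⟩ := exists_word hS g
  rw [h, List.length_eq_zero_iff] at hn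
  rw [← hp, hn, List.prod_nil]

end

/-- The word metric of a generating set `S`. -/
@[reducible] noncomputable def wordMetric {G : Type*} [Group G] (S : Set G) (hS : Subgroup.closure S = ⊤) :
    MetricSpace G where
  dist g h := wordLength S (g⁻¹ * h)
  dist_self g := by simp [wordLength_one]
  dist_comm g h := by
    have h1 := wordLength_inv_le hS (g⁻¹ * h)
    have h2 := wordLength_inv_le hS (h⁻¹ * g)
    rw [mul_inv_rev, inv_inv] at h1 h2
    exact_mod_cast le_antisymm h2 h1
  dist_triangle a b c := by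
    have := wordLength_mul_le hS (a⁻¹ * b) (b⁻¹ * c)
    rw [mul_assoc, mul_inv_cancel_left] at this
    exact_mod_cast this
  eq_of_dist_eq_zero {a b} h := by
    have h1 : wordLength S (a⁻¹ * b) = 0 := by exact_mod_cast h
    have := eq_one_of_wordLength hS _ h1
    rw [inv_mul_eq_one] at this
    exact this

end Pool.Agent.Helper30.WHyp
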