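import Pool.Agent.Helper30.HexLemma
import Pool.Agent.Helper30.WHypDefs

set_option autoImplicit false

namespace Pool.Agent.Helper30.WHyp

open Pointwise

section Balls

lemma LargeScaleDoubling.mono {X : Type*} [MetricSpace X] {N : ℕ} {R R' : ℝ} {Y : Set X} (h : LargeScaleDoubling N R Y)
    (hR : R ≤ R') : LargeScaleDoubling N R' Y :=
  fun x r hr => h x r (hR.trans hr)

lemma encard_biUnion_le {X ι : Type*} (C : Finset ι) (s : ι → Set X) (b : ℕ∞)
    (h : ∀ c ∈ C, (s c).encard ≤ b) : (⋃ c ∈ C, s c).encard ≤ C.card * b := by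
  classical
  induction C using Finset.induction_on with
  | empty => simp
  | insert a C ha ih =>
    rw [Finset.set_biUnion_insert, Finset.card_insert_of_notMem ha]
    refine (Set.encard_union_le _ _).trans ?_
    have h1 := h a (Finset.mem_insert_self a C)
    have h2 := ih (fun c hc => h c (Finset.mem_insert_of_mem hc))
    push_cast
    rw [add_mul, one_mul, add_comm]
    exact add_le_add h2 h1

lemma encard_inter_closedBall_le {X : Type*} [MetricSpace X] {N : ℕ} {R : ℝ} {Y : Set X} (hY : LargeScaleDoubling N R Y)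
    (hR : 0 ≤ R) (B : ℕ) (hB : ∀ x : X, (Metric.closedBall x R).encard ≤ B) (j : ℕ) (x : X) :
    (Y ∩ Metric.closedBall x (2 ^ j * R)).encard ≤ (N ^ j * B : ℕ) := by
  induction j generalizing x with
  | zero =>
    simp only [pow_zero, one_mul]
    exact (Set.encard_le_encard Set.inter_subset_right).trans (hB x)
  | succ j ih =>
    have hle : R ≤ 2 ^ j * R := by
      have : (1 : ℝ) ≤ 2 ^ j := one_le_pow₀ (by norm_num)
      nlinarith
    obtain ⟨C, hC, hcov⟩ := hY x (2 ^ j * R) hle
    have h1 : Y ∩ Metric.closedBall x (2 ^ (j + 1) * R) ⊆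
        ⋃ c ∈ C, (Y ∩ Metric.closedBall c (2 ^ j * R)) := by
      intro y hy
      have : y ∈ ⋃ c ∈ C, Metric.closedBall c (2 ^ j * R) := by
        apply hcov
        refine ⟨hy.1, ?_⟩
        have e : 2 * ((2 : ℝ) ^ j * R) = 2 ^ (j + 1) * R := by ring
        rw [e]
        exact hy.2
      simp only [Set.mem_iUnion] at this ⊢
      obtain ⟨c, hc, h⟩ := this
      exact ⟨c, hc, hy.1, h⟩
    refine (Set.encard_le_encard h1).trans ((encard_biUnion_le C _ _ (fun c _ => ih c)).trans ?_)
    rw [pow_succ]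
    have : C.card * (N ^ j * B) ≤ N ^ j * N * B := by
      calc C.card * (N ^ j * B) ≤ N * (N ^ j * B) := Nat.mul_le_mul_right _ hC
        _ = N ^ j * N * B := by ring
    exact_mod_cast this

/-- balls in a weakly large scale doubling family grow polynomially -/
lemma polynomial_growth {X : Type*} [MetricSpace X] {𝒴 : Set (Set X)} (h𝒴 : WeaklyLargeScaleDoubling 𝒴)
    (hfin : ∀ R : ℝ, ∃ B : ℕ, ∀ x : X, (Metric.closedBall x R).encard ≤ B) (D : ℕ) :
    ∃ k P : ℕ, ∀ Y ∈ 𝒴, ∀ (L : ℕ) (x : X),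
      (Y ∩ Metric.closedBall x (D * L)).encard ≤ (P * (L + 1) ^ k : ℕ) := by
  obtain ⟨N, R₀, hN, hR₀, hY⟩ := h𝒴
  set R := max R₀ 1 with hR
  have hR1 : 1 ≤ R := le_max_right _ _
  obtain ⟨B, hB⟩ := hfin R
  obtain ⟨k, hk⟩ : ∃ k, N ≤ 2 ^ k := ⟨N, Nat.lt_two_pow_self.le⟩
  refine ⟨k, B * (2 * (D + 1)) ^ k, ?_⟩
  intro Y hYm L x
  have h1 := (hY Y hYm).mono (le_max_left R₀ 1)
  set M := (D + 1) * (L + 1) with hM
  have hM1 : 1 ≤ M := Nat.mul_pos (by omega) (by omega)
  set j := Nat.clog 2 M with hj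
  have hj1 : M ≤ 2 ^ j := Nat.le_pow_clog (by norm_num) M
  have hj2 : 2 ^ j ≤ 2 * M := by
    rcases Nat.lt_or_ge 1 M with h | h
    · have := Nat.pow_pred_clog_lt_self (b := 2) (by norm_num) h
      have hjpos : 0 < j := Nat.clog_pos (by norm_num) h
      have e : 2 ^ j = 2 * 2 ^ (j.pred) := by
        rw [← pow_succ', ← Nat.succ_eq_add_one, Nat.succ_pred_eq_of_pos hjpos]
      rw [e]
      exact Nat.mul_le_mul_left 2 this.le
    · have hM' : M = 1 := le_antisymm h hM1
      rw [hj, hM']
      simp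
  have h2 := encard_inter_closedBall_le h1 (by linarith) B hB j x
  refine (Set.encard_le_encard ?_).trans (h2.trans ?_)
  · apply Set.inter_subset_inter_right
    apply Metric.closedBall_subset_closedBall
    have e1 : ((D : ℝ) * L) ≤ (M : ℝ) := by
      rw [hM]
      push_cast
      nlinarith [(Nat.cast_nonneg D : (0 : ℝ) ≤ D), (Nat.cast_nonneg L : (0 : ℝ) ≤ L)]
    have e2 : (M : ℝ) ≤ 2 ^ j := by exact_mod_cast hj1
    have e3 : (0 : ℝ) ≤ 2 ^ j := by positivity
    nlinarith
  · have e : N ^ j * B ≤ B * (2 * (D + 1)) ^ k * (L + 1) ^ k := by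
      calc N ^ j * B ≤ (2 ^ k) ^ j * B := Nat.mul_le_mul_right _ (Nat.pow_le_pow_left hk j)
        _ = (2 ^ j) ^ k * B := by rw [← pow_mul, ← pow_mul, mul_comm k j]
        _ ≤ (2 * M) ^ k * B := Nat.mul_le_mul_right _ (Nat.pow_le_pow_left hj2 k)
        _ = B * (2 * (D + 1)) ^ k * (L + 1) ^ k := by
          rw [hM, ← mul_assoc, mul_pow]; ring
    exact_mod_cast e

end Balls

section Group

variable {G : Type*} [Group G]

/-- word paths -/
lemma exists_path [DecidableEq G] (T : Finset G) (h1 : 1 ∈ T) (n : ℕ) (g : G) (hg : g ∈ T ^ n) :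
    ∃ γ : ℕ → G, γ 0 = 1 ∧ (∀ j, (γ j)⁻¹ * γ (j + 1) ∈ T) ∧ ∀ j, n ≤ j → γ j = g := by
  induction n generalizing g with
  | zero =>
    rw [pow_zero, Finset.mem_one] at hg
    exact ⟨fun _ => 1, rfl, fun _ => by simpa using h1, fun _ _ => hg.symm⟩
  | succ n ih =>
    rw [pow_succ, Finset.mem_mul] at hg
    obtain ⟨g', hg', t, ht, rfl⟩ := hg
    obtain ⟨γ, h0, hs, he⟩ := ih g' hg'
    refine ⟨fun j => if j ≤ n then γ j else g' * t, by simp [h0], ?_, ?_⟩
    · intro j
      by_cases hj : j + 1 ≤ n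
      · simp only [hj, if_true, (by omega : j ≤ n)]
        exact hs j
      · by_cases hj' : j ≤ n
        · have : γ j = g' := he j (by omega)
          simp only [hj, hj', this, if_true, if_false, inv_mul_cancel_left]
          exact ht
        · simp only [hj, hj', if_false, inv_mul_cancel]
          exact h1
    · intro j hj
      have hj' : ¬ j ≤ n := by omega
      simp only [hj', if_false]

/-- shifted word paths, constant near both ends -/
lemma exists_path' [DecidableEq G] (T : Finset G) (h1 : 1 ∈ T) (n : ℕ) (g : G) (hg : g ∈ T ^ n) :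
    ∃ γ : ℕ → G, (∀ j, j ≤ 1 → γ j = 1) ∧ (∀ j, (γ j)⁻¹ * γ (j + 1) ∈ T) ∧
      ∀ j, n + 2 ≤ j + 1 → γ j = g := by
  obtain ⟨γ, h0, hs, he⟩ := exists_path T h1 n g hg
  refine ⟨fun j => γ (j - 1), ?_, ?_, ?_⟩
  · intro j hj
    have : j - 1 = 0 := by omega
    simp only [this, h0]
  · intro j
    rcases Nat.eq_zero_or_pos j with h | h
    · subst h
      simpa using h1
    · have := hs (j - 1)
      have e : j - 1 + 1 = j + 1 - 1 := by omega
      rw [e] at this
      exact this
  · intro j hj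
    exact he _ (by omega)

variable {S : Set G}

/-- balls in a finitely generated group are finite -/
lemma ball_finite (hfin : S.Finite) (hS : Subgroup.closure S = ⊤) [MetricSpace G]
    (hd : ∀ g h : G, dist g h = wordLength S (g⁻¹ * h)) (R : ℝ) :
    ∃ B : ℕ, ∀ x : G, (Metric.closedBall x R).encard ≤ B := by
  classical
  have hA : (insert 1 (S ∪ S⁻¹)).Finite := (hfin.union hfin.inv).insert 1
  set A : Finset G := hA.toFinset with hAdef
  have hA1 : (1 : G) ∈ A := by
    rw [hAdef, Set.Finite.mem_toFinset]; exact Set.mem_insert _ _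
  refine ⟨(A ^ ⌊R⌋₊).card, ?_⟩
  intro x
  have hsub : Metric.closedBall x R ⊆ (fun g => x * g) '' (A ^ ⌊R⌋₊ : Finset G) := by
    intro g hg
    rw [Metric.mem_closedBall, dist_comm, hd] at hg
    refine ⟨x⁻¹ * g, ?_, by simp⟩
    obtain ⟨l, hl, hp, hn⟩ := exists_word hS (x⁻¹ * g)
    have h1 : ∀ l : List G, (∀ s ∈ l, s ∈ A) → l.prod ∈ A ^ l.length := by
      intro l
      induction l with
      | nil => intro _; simp
      | cons a l ih =>
        intro h
        rw [List.prod_cons, List.length_cons, pow_succ']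
        exact Finset.mul_mem_mul (h a (by simp)) (ih (fun s hs => h s (by simp [hs])))
    have h2 : l.prod ∈ A ^ l.length := by
      apply h1
      intro s hs
      rw [hAdef, Set.Finite.mem_toFinset]
      right
      rcases hl s hs with h | h
      · exact Or.inl h
      · exact Or.inr h
    rw [hp, hn] at h2
    have h3 : wordLength S (x⁻¹ * g) ≤ ⌊R⌋₊ := Nat.le_floor hg
    exact Finset.pow_subset_pow_right hA1 h3 h2
  refine (Set.encard_le_encard hsub).trans ?_
  refine (Set.encard_image_le _ _).trans ?_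
  rw [Set.encard_coe_eq_coe_finsetCard]

lemma commute_closure {T T' : Set G} (h : ∀ s ∈ T, ∀ t ∈ T', Commute s t) (x y : G)
    (hx : x ∈ Subgroup.closure T) (hy : y ∈ Subgroup.closure T') : Commute x y := by
  have h1 : ∀ t ∈ T', Subgroup.closure T ≤ Subgroup.centralizer {t} := by
    intro t ht
    rw [Subgroup.closure_le]
    intro s hs
    rw [SetLike.mem_coe, Subgroup.mem_centralizer_singleton_iff]
    exact (h s hs t ht)
  have h2 : Subgroup.closure T' ≤ Subgroup.centralizer {x} := by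
    rw [Subgroup.closure_le]
    intro t ht
    have := h1 t ht hx
    rw [Subgroup.mem_centralizer_singleton_iff] at this
    rw [SetLike.mem_coe, Subgroup.mem_centralizer_singleton_iff]
    exact this.symm
  have := h2 hy
  rw [Subgroup.mem_centralizer_singleton_iff] at this
  exact this.symm

lemma wordLength_noncommProd (hS : Subgroup.closure S = ⊤) {ι : Type*} (s : Finset ι) (f : ι → G)
    (comm : (s : Set ι).Pairwise (Function.onFun Commute f)) :
    wordLength S (s.noncommProd f comm) ≤ ∑ i ∈ s, wordLength S (f i) := by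
  classical
  induction s using Finset.induction_on with
  | empty => simp [wordLength_one]
  | insert a s ha ih =>
    rw [Finset.noncommProd_insert_of_notMem _ _ _ _ ha, Finset.sum_insert ha]
    exact (wordLength_mul_le hS _ _).trans (Nat.add_le_add_left (ih _) _)

lemma path_length (hS : Subgroup.closure S = ⊤) (D : ℕ) (γ : ℕ → G)
    (h : ∀ j, wordLength S ((γ j)⁻¹ * γ (j + 1)) ≤ D) (a n : ℕ) :
    wordLength S ((γ a)⁻¹ * γ (a + n)) ≤ D * n := by
  induction n with
  | zero => simp [wordLength_one]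
  | succ n ih =>
    have h1 : (γ a)⁻¹ * γ (a + (n + 1)) = ((γ a)⁻¹ * γ (a + n)) * ((γ (a + n))⁻¹ * γ (a + n + 1)) := by
      rw [mul_assoc, mul_inv_cancel_left, add_assoc]
    rw [h1]
    have h2 := wordLength_mul_le hS ((γ a)⁻¹ * γ (a + n)) ((γ (a + n))⁻¹ * γ (a + n + 1))
    have h3 := h (a + n)
    have h4 : D * (n + 1) = D * n + D := by ring
    omega

lemma path_close (hS : Subgroup.closure S = ⊤) (D : ℕ) (γ : ℕ → G)
    (h : ∀ j, wordLength S ((γ j)⁻¹ * γ (j + 1)) ≤ D) (a b : ℕ) (hab : a ≤ b + 2) (hba : b ≤ a + 2) :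
    wordLength S ((γ a)⁻¹ * γ b) ≤ D * 2 := by
  rcases le_total a b with hle | hle
  · obtain ⟨n, rfl⟩ := Nat.exists_eq_add_of_le hle
    exact (path_length hS D γ h a n).trans (Nat.mul_le_mul_left _ (by omega))
  · obtain ⟨n, rfl⟩ := Nat.exists_eq_add_of_le hle
    have h1 := path_length hS D γ h b n
    have h2 := wordLength_inv_le hS ((γ b)⁻¹ * γ (b + n))
    rw [mul_inv_rev, inv_inv] at h2
    exact h2.trans (h1.trans (Nat.mul_le_mul_left _ (by omega)))

end Group

end Pool.Agent.Helper30.WHyp
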