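import Pool.Agent.Helper30.WHypCriterion

set_option autoImplicit false

namespace Pool.Agent.Helper30.WHyp

open Pointwise

section Growth

variable {Q : Type*} [Group Q] [DecidableEq Q]

lemma image_pow_hom {G : Type*} [Group G] [DecidableEq G] (f : G →* Q) (s : Finset G) (n : ℕ) :
    (s ^ n).image f = (s.image f) ^ n := Finset.image_pow f s n

/-- growth of a self-similar set -/
lemma growth_square (U : Finset Q) (lam rho : Q →* Q)
    (hinj : ∀ u v u' v', lam u * rho v = lam u' * rho v' → u = u' ∧ v = v') (c : ℕ)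
    (hl : U.image lam ⊆ U ^ c) (hr : U.image rho ⊆ U ^ c) (L : ℕ) :
    (U ^ L).card ^ 2 ≤ (U ^ (2 * c * L)).card := by
  rw [sq, ← Finset.card_product]
  refine Finset.card_le_card_of_injOn (fun p => lam p.1 * rho p.2) ?_ ?_
  · intro p hp
    rw [Finset.mem_coe, Finset.mem_product] at hp
    rw [Finset.mem_coe]
    have e : U ^ (2 * c * L) = U ^ (c * L) * U ^ (c * L) := by rw [← pow_add]; congr 1; ring
    rw [e]
    apply Finset.mul_mem_mul
    · have h1 : lam p.1 ∈ (U ^ L).image lam := Finset.mem_image_of_mem _ hp.1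
      rw [image_pow_hom] at h1
      rw [pow_mul]
      exact Finset.pow_subset_pow_left hl h1
    · have h1 : rho p.2 ∈ (U ^ L).image rho := Finset.mem_image_of_mem _ hp.2
      rw [image_pow_hom] at h1
      rw [pow_mul]
      exact Finset.pow_subset_pow_left hr h1
  · intro p _ q _ h
    obtain ⟨h1, h2⟩ := hinj _ _ _ _ h
    exact Prod.ext h1 h2

lemma growth_tower (U : Finset Q) (h2 : 2 ≤ U.card) (lam rho : Q →* Q)
    (hinj : ∀ u v u' v', lam u * rho v = lam u' * rho v' → u = u' ∧ v = v') (c : ℕ)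
    (hl : U.image lam ⊆ U ^ c) (hr : U.image rho ⊆ U ^ c) (j : ℕ) :
    2 ^ (2 ^ j) ≤ (U ^ ((2 * c) ^ j)).card := by
  induction j with
  | zero => simpa using h2
  | succ j ih =>
    have h1 := growth_square U lam rho hinj c hl hr ((2 * c) ^ j)
    rw [← pow_succ'] at h1
    refine le_trans ?_ h1
    rw [pow_succ, pow_mul]
    exact Nat.pow_le_pow_left ih 2

lemma exists_lin_lt_two_pow (a b : ℕ) : ∃ j, a + b * j < 2 ^ j := by
  refine ⟨2 * (a + 2 * b), ?_⟩
  have h1 : a + 2 * b < 2 ^ (a + 2 * b) := Nat.lt_two_pow_self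
  have h2 : 2 ^ (2 * (a + 2 * b)) = 2 ^ (a + 2 * b) * 2 ^ (a + 2 * b) := by
    rw [two_mul, pow_add]
  rw [h2]
  have h3 : (a + 2 * b + 1) * (a + 2 * b + 1) ≤ 2 ^ (a + 2 * b) * 2 ^ (a + 2 * b) :=
    Nat.mul_le_mul h1 h1
  nlinarith

lemma growth_superpoly (U : Finset Q) (h2 : 2 ≤ U.card) (lam rho : Q →* Q)
    (hinj : ∀ u v u' v', lam u * rho v = lam u' * rho v' → u = u' ∧ v = v') (c : ℕ)
    (hl : U.image lam ⊆ U ^ c) (hr : U.image rho ⊆ U ^ c) (k C : ℕ) :
    ∃ L, C * (L + 1) ^ k < (U ^ L).card := by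
  have hc : 0 < c := by
    rcases Nat.eq_zero_or_pos c with h | h
    · exfalso
      subst h
      obtain ⟨x, hx, y, hy, hxy⟩ := Finset.one_lt_card.mp h2
      have h1 : ∀ z ∈ U, lam z = 1 := by
        intro z hz
        have := hl (Finset.mem_image_of_mem _ hz)
        rwa [pow_zero, Finset.mem_one] at this
      have := (hinj x 1 y 1 (by rw [h1 x hx, h1 y hy])).1
      exact hxy this
    · exact h
  obtain ⟨e, he⟩ : ∃ e, 2 * c ≤ 2 ^ e := ⟨2 * c, Nat.lt_two_pow_self.le⟩
  obtain ⟨j, hj⟩ := exists_lin_lt_two_pow (C + k) (e * k)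
  refine ⟨(2 * c) ^ j, lt_of_lt_of_le ?_ (growth_tower U h2 lam rho hinj c hl hr j)⟩
  have h3 : (2 * c) ^ j + 1 ≤ 2 * (2 ^ e) ^ j := by
    have h4 : (2 * c) ^ j ≤ (2 ^ e) ^ j := Nat.pow_le_pow_left he j
    have h5 : 1 ≤ (2 ^ e) ^ j := Nat.one_le_pow _ _ (by positivity)
    omega
  calc C * ((2 * c) ^ j + 1) ^ k ≤ C * (2 * (2 ^ e) ^ j) ^ k :=
        Nat.mul_le_mul_left _ (Nat.pow_le_pow_left h3 k)
    _ = C * 2 ^ (k + e * k * j) := by
        rw [mul_pow, ← pow_mul, ← pow_mul, ← pow_add]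
        congr 2
        ring
    _ ≤ 2 ^ C * 2 ^ (k + e * k * j) := Nat.mul_le_mul_right _ Nat.lt_two_pow_self.le
    _ = 2 ^ (C + k + e * k * j) := by rw [← pow_add]; congr 1; ring
    _ < 2 ^ 2 ^ j := Nat.pow_lt_pow_right (by norm_num) hj

end Growth

open Classical in
/-- A finitely generated group with infinitely many pairwise commuting finite subsets which all look
like one self-similar set of another group has infinite weak hyperbolic dimension. -/
theorem selfsimilar_criterion {G Q : Type*} [Group G] [Group Q] {S : Set G} (hfin : S.Finite)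
    (hS : Subgroup.closure S = ⊤) [MetricSpace G]
    (hd : ∀ g h : G, dist g h = wordLength S (g⁻¹ * h))
    (U : Finset Q) (h2 : 2 ≤ U.card) (lam rho : Q →* Q)
    (hinj : ∀ u v u' v', lam u * rho v = lam u' * rho v' → u = u' ∧ v = v') (c : ℕ)
    (hl : U.image lam ⊆ U ^ c) (hr : U.image rho ⊆ U ^ c)
    (Θ : G →* Q) (T : ℕ → Finset G) (hT1 : ∀ i, 1 ∈ T i)
    (hTc : ∀ i j, i < j → ∀ s ∈ T i, ∀ t ∈ T j, Commute s t)
    (κ : ℕ → Q →* Q) (hκ : ∀ i, Function.Injective (κ i))
    (hTΘ : ∀ i, U.image (κ i) ⊆ (T i).image Θ) :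
    weakHyperbolicDimension G = ⊤ := by
  apply criterion hfin hS hd
  intro m
  refine ⟨fun i => T i, fun i => hT1 i, ?_, ?_⟩
  · intro i j hij s hs t ht
    rcases lt_or_gt_of_ne (fun h => hij (Fin.ext h) : (i : ℕ) ≠ j) with h | h
    · exact hTc i j h s hs t ht
    · exact (hTc j i h t ht s hs).symm
  · intro k C
    obtain ⟨L, hL⟩ := growth_superpoly U h2 lam rho hinj c hl hr k C
    refine ⟨L, fun i => lt_of_lt_of_le hL ?_⟩
    calc (U ^ L).card = ((U ^ L).image (κ i)).card := (Finset.card_image_of_injective _ (hκ i)).symm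
      _ = ((U.image (κ i)) ^ L).card := by rw [image_pow_hom]
      _ ≤ (((T i).image Θ) ^ L).card := Finset.card_le_card (Finset.pow_subset_pow_left (hTΘ i))
      _ = (((T i) ^ L).image Θ).card := by rw [image_pow_hom]
      _ ≤ ((T i) ^ L).card := Finset.card_image_le

end Pool.Agent.Helper30.WHyp
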