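import Mathlib
import Pool.Agent.Helper35.YG.TA
import Pool.Agent.Helper35.YG.QE

set_option autoImplicit false

open Polynomial

namespace Pool.Agent.Helper35.YG

/-- Existence of the quadratic étale algebra structure when all nonzero `bar`-fixed elements
are units. -/
theorem exists_QE {n : ℕ} (hn : Odd n) {E : Type} [CommRing E] [Finite E] [Nontrivial E]
    (ε : P →+* E) (bar : E →+* E) (hε : Function.Surjective ε) (hPh : ε (Ph n) = 0)
    (hbar : bar (ε X) = ε X ^ (n-1)) (hfield : ∀ z, bar z = z → z ≠ 0 → IsUnit z) :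
    ∃ (F : Type) (_ : Field F) (_ : Fintype F) (_ : CharP F 2) (_ : Algebra F E) (q : QE F E),
      q.bar = bar ∧ q.η = ε X ^ ((n+1)/2) ∧ (Fintype.card F < 4 → ε X ^ 3 = 1) := by
  classical
  have hn0 : 0 < n := hn.pos
  obtain ⟨k, hk⟩ := hn
  have h2 : ∀ z : E, z + z = 0 := E_char2 ε hε
  set ζ : E := ε X with hζ
  have hζn : ζ ^ n = 1 := by
    have h := ε_dvd ε hPh (Ph_dvd n)
    rwa [map_pow, map_one] at h
  set ξ : E := ζ ^ (n - 1) with hξ
  have hζξ : ζ * ξ = 1 := by
    rw [hξ, ← pow_succ', Nat.sub_add_cancel hn0]; exact hζn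
  have hbξ : bar ξ = ζ := by
    have h1 : bar (ζ * ξ) = 1 := by rw [hζξ, map_one]
    rw [map_mul, hbar] at h1
    calc bar ξ = bar ξ * (ζ * ξ) := by rw [hζξ, mul_one]
      _ = (ξ * bar ξ) * ζ := by ring
      _ = ζ := by rw [h1, one_mul]
  have hbb : ∀ x, bar (bar x) = x := by
    intro x
    obtain ⟨f, rfl⟩ := hε x
    induction f using P_induction with
    | h0 => simp
    | hX j => rw [map_pow, map_pow, map_pow, ← hζ, hbar, hbξ]
    | hadd f g hf hg => rw [map_add, map_add, map_add, hf, hg]
  -- the fixed subring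
  let F₀ : Subring E := RingHom.eqLocus bar (RingHom.id E)
  have hmem : ∀ x, x ∈ F₀ ↔ bar x = x := fun x => Iff.rfl
  have hF : IsField F₀ := by
    refine ⟨⟨0, 1, zero_ne_one⟩, mul_comm, ?_⟩
    intro a ha
    have ha' : (a : E) ≠ 0 := fun h => ha (Subtype.ext h)
    obtain ⟨u, hu⟩ := hfield a a.2 ha'
    have h1 : (a : E) * ((u⁻¹ : Eˣ) : E) = 1 := by rw [← hu]; simp
    have h3 : bar ((u⁻¹ : Eˣ) : E) = ((u⁻¹ : Eˣ) : E) := by
      have h4 : (a : E) * bar ((u⁻¹ : Eˣ) : E) = 1 := by
        have := congrArg bar h1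
        rwa [map_mul, map_one, (hmem _).mp a.2] at this
      calc bar ((u⁻¹ : Eˣ) : E) = ((a : E) * ((u⁻¹ : Eˣ) : E)) * bar ((u⁻¹ : Eˣ) : E) := by
            rw [h1, one_mul]
        _ = ((a : E) * bar ((u⁻¹ : Eˣ) : E)) * ((u⁻¹ : Eˣ) : E) := by ring
        _ = _ := by rw [h4, one_mul]
    exact ⟨⟨((u⁻¹ : Eˣ) : E), h3⟩, Subtype.ext h1⟩
  let iF : Field F₀ := hF.toField
  let iA : Algebra F₀ E := RingHom.toAlgebra F₀.subtype
  have iFin : Finite F₀ := inferInstance
  let iFt : Fintype F₀ := Fintype.ofFinite F₀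
  have h2F : (2 : F₀) = 0 := by
    rw [← one_add_one_eq_two]
    apply Subtype.ext
    exact h2 1
  have iC : CharP F₀ 2 := CharTwo.of_one_ne_zero_of_two_eq_zero one_ne_zero h2F
  have halg : ∀ a : F₀, algebraMap F₀ E a = (a : E) := fun _ => rfl
  -- the element `η`
  have hdiv : (n + 1) / 2 = k + 1 := by omega
  set η : E := ζ ^ ((n + 1) / 2) with hη
  have hηη : η * η = ζ := by
    rw [hη, hdiv, ← pow_add, show k + 1 + (k + 1) = n + 1 by omega, pow_succ, hζn, one_mul]
  have hbη : η * bar η = 1 := by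
    rw [hη, map_pow, hbar, ← mul_pow, hζξ, one_pow]
  have hηn : η ^ n = 1 := by
    rw [hη, ← pow_mul, mul_comm, pow_mul, hζn, one_pow]
  let Nf : E → F₀ := fun x => ⟨x * bar x, by rw [hmem, map_mul, hbb, mul_comm]⟩
  let Tf : E → F₀ := fun x => ⟨x + bar x, by rw [hmem, map_add, hbb, add_comm]⟩
  have hs0 : ζ + ξ ≠ 0 := by
    intro h
    have h3 : ζ = ξ := by
      calc ζ = ζ + (ξ + ξ) := by rw [h2, add_zero]
        _ = (ζ + ξ) + ξ := by ring
        _ = ξ := by rw [h, zero_add]
    have h4 : ζ * ζ = 1 := by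
      nth_rewrite 2 [h3]; exact hζξ
    have h5 : ζ = 1 := by
      have := hζn
      rw [hk, pow_succ, pow_mul, pow_two, h4, one_pow, one_mul] at this
      exact this
    have h6 : ε (Ph n) = 1 := by
      rw [Ph, map_sum]
      simp only [map_pow, ← hζ, h5, one_pow, Finset.sum_const, Finset.card_range, nsmul_eq_mul,
        mul_one]
      rw [hk]
      push_cast
      have : (2 : E) = 0 := by
        have := h2 1
        calc (2 : E) = 1 + 1 := by norm_num
          _ = 0 := this
      rw [this, zero_mul, zero_add]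
    rw [hPh] at h6
    exact zero_ne_one h6
  have hs : Tf (η * η) ≠ 0 := by
    intro h
    apply hs0
    have h3 := congrArg Subtype.val h
    change η * η + bar (η * η) = 0 at h3
    rwa [hηη, hbar] at h3
  have hTs : ((Tf (η * η) : F₀) : E) = ζ + ξ := by
    change η * η + bar (η * η) = _
    rw [hηη, hbar]
  have hζ2 : ζ * ζ = (ζ + ξ) * ζ + 1 := by
    have : (ζ + ξ) * ζ + 1 = ζ * ζ + (ζ * ξ + 1) := by ring
    rw [this, hζξ, h2, add_zero]
  -- spanning
  have key : ∀ S : Subring F₀, Tf (η * η) ∈ S → ∀ x : E, ∃ a ∈ S, ∃ b ∈ S,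
      x = (a : E) + (b : E) * ζ := by
    intro S hS x
    obtain ⟨f, rfl⟩ := hε x
    induction f using P_induction with
    | h0 => exact ⟨0, S.zero_mem, 0, S.zero_mem, by simp⟩
    | hX j =>
      induction j with
      | zero => exact ⟨1, S.one_mem, 0, S.zero_mem, by simp⟩
      | succ j ih =>
        obtain ⟨a, ha, b, hb, hab⟩ := ih
        refine ⟨b, hb, a + b * Tf (η * η), S.add_mem ha (S.mul_mem hb hS), ?_⟩
        rw [pow_succ, map_mul, hab, ← hζ]
        have : ((a + b * Tf (η * η) : F₀) : E) = (a : E) + (b : E) * (ζ + ξ) := by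
          rw [← hTs]; rfl
        rw [this]
        linear_combination (b : E) * hζ2
    | hadd f g hf hg =>
      obtain ⟨a, ha, b, hb, hab⟩ := hf
      obtain ⟨c, hc, d, hd, hcd⟩ := hg
      refine ⟨a + c, S.add_mem ha hc, b + d, S.add_mem hb hd, ?_⟩
      rw [map_add, hab, hcd]
      have e1 : ((a + c : F₀) : E) = (a : E) + (c : E) := rfl
      have e2 : ((b + d : F₀) : E) = (b : E) + (d : E) := rfl
      rw [e1, e2]; ring
  let q : QE F₀ E :=
    { bar := bar
      bar_bar := hbb
      bar_alg := fun a => a.2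
      N := Nf
      T := Tf
      N_eq := fun x => rfl
      T_eq := fun x => rfl
      η := η
      η_bar := hbη
      n := n
      n_odd := ⟨k, hk⟩
      η_pow := hηn
      s_ne := hs
      span := by
        intro x
        obtain ⟨a, -, b, -, h⟩ := key ⊤ trivial x
        exact ⟨a, b, by rw [hηη]; exact h⟩
      gen := by
        intro S hS
        rw [eq_top_iff]
        intro z _
        obtain ⟨a, ha, b, hb, hab⟩ := key S hS (z : E)
        have hz : bar (z : E) = z := z.2
        have e1 : (z : E) = (a : E) + (b : E) * ξ := by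
          have e2 := congrArg bar hab
          rw [hz, map_add, map_mul, hbar, (hmem _).mp a.2, (hmem _).mp b.2] at e2
          exact e2
        have e3 : (b : E) * (ζ + ξ) = 0 := by
          have e4 := h2 (z : E)
          nth_rewrite 1 [hab] at e4
          rw [e1] at e4
          have e5 := h2 (a : E)
          linear_combination e4 - e5
        have e6 : b * Tf (η * η) = 0 := by
          apply Subtype.ext
          change (b : E) * ((Tf (η * η) : F₀) : E) = 0
          rw [hTs]; exact e3
        have e7 : b = 0 := (mul_eq_zero.mp e6).resolve_right hs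
        have e8 : z = a := by
          apply Subtype.ext
          rw [hab, e7]
          have : ((0 : F₀) : E) = 0 := rfl
          rw [this, zero_mul, add_zero]
        rw [e8]; exact ha }
  refine ⟨F₀, iF, iFt, iC, iA, q, rfl, rfl, ?_⟩
  intro hcard
  have hs1 : Tf (η * η) = 1 := by
    by_contra hne
    have h4 : (({0, 1, Tf (η * η), Tf (η * η) + 1} : Finset F₀)).card = 4 := by
      have hself : ∀ x : F₀, x + x = 0 := fun x => Subtype.ext (h2 (x : E))
      rw [Finset.card_insert_of_notMem, Finset.card_insert_of_notMem,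
        Finset.card_insert_of_notMem, Finset.card_singleton]
      · simp
      · simp only [Finset.mem_insert, Finset.mem_singleton, not_or]
        refine ⟨fun h => hne h.symm, fun h => hs ?_⟩
        exact left_eq_add.mp (by rw [add_comm]; exact h)
      · simp only [Finset.mem_insert, Finset.mem_singleton, not_or]
        refine ⟨zero_ne_one, fun h => hs h.symm, fun h => hne ?_⟩
        calc Tf (η * η) = (Tf (η * η) + 1) + 1 := by rw [add_assoc, hself, add_zero]
          _ = 1 := by rw [← h, zero_add]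
    have h5 := Finset.card_le_univ (({0, 1, Tf (η * η), Tf (η * η) + 1} : Finset F₀))
    rw [h4] at h5
    omega
  have hs1' : ζ + ξ = 1 := by
    rw [← hTs, hs1]; rfl
  have : ζ ^ 3 = 1 := by
    rw [hs1'] at hζ2
    have h3 := h2 ζ
    linear_combination (ζ + 1) * hζ2 + h3
  exact this

end Pool.Agent.Helper35.YG
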