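import Mathlib

namespace Pool.Agent.Helper30.YG

open Subgroup

/-- A group whose centre has finite index, which is finitely generated and generated by
involutions, is finite. -/
theorem finite_of_center {N : Type*} [Group N] [Group.FG N] [(center N).FiniteIndex]
    (S : Set N) (hS : ∀ x ∈ S, x * x = 1) (hN : closure S = ⊤) : Finite N := by
  have hfg : Group.FG (center N) := inferInstance
  have key : ∀ g : N, (MonoidHom.transferCenterPow N g) ^ 2 = 1 := by
    intro g
    have hg : g ∈ closure S := by rw [hN]; trivial
    induction hg using closure_induction with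
    | mem x hx =>
      have : (x ^ 2) = 1 := by rw [pow_two]; exact hS x hx
      rw [← map_pow, this, map_one]
    | one => simp
    | mul x y _ _ hx hy =>
      rw [map_mul]
      have hc : Commute (MonoidHom.transferCenterPow N x) (MonoidHom.transferCenterPow N y) := by
        apply Subtype.ext
        exact (mem_center_iff.mp (MonoidHom.transferCenterPow N x).2 _).symm
      rw [hc.mul_pow, hx, hy, one_mul]
    | inv x _ hx => rw [map_inv, inv_pow, hx, inv_one]
  have hfin : Finite (center N) := by
    let _ : CommGroup (center N) := IsMulCommutative.instCommGroup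
    apply CommGroup.finite_of_fg_isMulTorsion
    intro z
    rw [isOfFinOrder_iff_pow_eq_one]
    refine ⟨(center N).index * 2, ?_, ?_⟩
    · have : (center N).index ≠ 0 := FiniteIndex.index_ne_zero
      omega
    · have h := key (z : N)
      apply Subtype.ext
      have h' := congrArg Subtype.val h
      simp only [MonoidHom.transferCenterPow_apply, SubmonoidClass.coe_pow, OneMemClass.coe_one] at h'
      rw [← pow_mul] at h'
      simpa using h'
  have hcard : Nat.card N ≠ 0 := by
    rw [← (center N).card_mul_index]
    exact mul_ne_zero Nat.card_pos.ne' FiniteIndex.index_ne_zero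
  exact Nat.finite_of_card_ne_zero hcard

theorem finite_of_commuting {G : Type*} [Group G] [Group.FG G] (N₁ N₂ : Subgroup G)
    [N₁.Normal] [N₂.Normal] (hc : ∀ x ∈ N₁, ∀ y ∈ N₂, x * y = y * x)
    (h1 : Finite (G ⧸ N₁)) (h2 : Finite (G ⧸ N₂)) (S : Set G) (hS : ∀ x ∈ S, x * x = 1)
    (hN : N₁ = Subgroup.closure S) : Finite G := by
  have i1 : N₁.FiniteIndex := N₁.finiteIndex_of_finite_quotient
  have i2 : N₂.FiniteIndex := N₂.finiteIndex_of_finite_quotient
  have : Group.FG N₁ := inferInstance
  have i3 : (N₂.subgroupOf N₁).FiniteIndex := inferInstance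
  have hle : N₂.subgroupOf N₁ ≤ center N₁ := by
    intro x hx
    rw [mem_center_iff]
    intro g
    apply Subtype.ext
    exact hc g g.2 x hx
  have i4 : (center N₁).FiniteIndex := finiteIndex_of_le hle
  have hfin : Finite N₁ := by
    refine finite_of_center (N := N₁) ((fun x : N₁ => (x : G)) ⁻¹' S) ?_ ?_
    · intro x hx
      apply Subtype.ext
      exact hS x hx
    · subst hN
      exact closure_closure_coe_preimage
  have hcard : Nat.card G ≠ 0 := by
    rw [← N₁.card_mul_index]
    exact mul_ne_zero Nat.card_pos.ne' FiniteIndex.index_ne_zero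
  exact Nat.finite_of_card_ne_zero hcard

end Pool.Agent.Helper30.YG
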